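import Pool.Agent.H868.TC.Build

/-!
Complete intersections of three forms in three variables: the maps away from the middle.
-/

namespace Pool.Agent.H868.TC

set_option maxHeartbeats 400000

open MvPolynomial
open Pool.Agent.Helper15K9.IC
open Pool.Agent.W695.SLP (lf lf_hom exists_lf fun0 Ann ex ex_self HasSLP)
open Pool.Agent.W515.SLP (AnnP Deg annP_of_homog annP_of_gt)
open Pool.Agent.TH61.SL (exI)
open H503R3.QCI (NZD Reg)
open TH130CI (gor mem_gor surj_of_inj reg_map sreg_of_reg)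
open Pool.Agent.H868.NR (exists_F gor_ex)

section

variable {K : Type*} [Field K] [CharZero K]

lemma gor_self (φ : R K →ₗ[K] K) : ex φ K = φ := LinearMap.ext (ex_self φ)

/-- genericity -/
lemma gen {I : Ideal (R K)} {φ : R K →ₗ[K] K} {D i N : ℕ} (hφ : Deg φ D) (hI : I = gor φ)
    (hD : i + N ≤ D) (h : ∃ t : Fin 3 → K, Inj I i N t) :
    ∃ P : R K, P ≠ 0 ∧ ∀ t : Fin 3 → K, eval t P ≠ 0 → Inj I i N t := by
  obtain ⟨t, ht⟩ := h
  rw [hI] at ht ⊢
  refine descend (L := K) (pL := t) hφ hD (by rw [gor_self]; exact hφ) ?_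
  rw [gor_self]
  exact ht

/-- the degree zero -/
lemma inj_zero {φ : R K →ₗ[K] K} {D N : ℕ} (hφ : Deg φ D) (hN : N ≤ D) :
    ∃ t : Fin 3 → K, Inj (gor φ) 0 N t := by
  by_contra hcon
  push Not at hcon
  have h1 : ∀ t, lf t ^ N ∈ gor φ := by
    intro t
    have h2 := hcon t
    rw [Inj] at h2
    push Not at h2
    obtain ⟨x, hx, hm, hn⟩ := h2
    obtain ⟨a, rfl⟩ : ∃ a : K, x = C a := by
      refine ⟨coeff 0 x, ?_⟩
      rwa [← totalDegree_zero_iff_isHomogeneous, totalDegree_eq_zero_iff_eq_C] at hx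
    have ha : a ≠ 0 := by
      rintro rfl
      apply hn
      rw [C_0]
      exact Ideal.zero_mem _
    have e : lf t ^ N = C a⁻¹ * (lf t ^ N * C a) := by
      rw [mul_comm (lf t ^ N), ← mul_assoc, ← C_mul, inv_mul_cancel₀ ha, C_1, one_mul]
    rw [e]
    exact Ideal.mul_mem_left _ _ hm
  have h2 : ∀ y m, φ (coeff m (gl K ^ N) * y) = 0 := by
    intro y m
    have h3 : Ph (φ ∘ₗ LinearMap.mulRight K y) (gl K ^ N) = 0 := by
      apply MvPolynomial.funext
      intro t
      rw [eval_Ph, map_zero, map_pow, evt_gl]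
      exact mem_gor.1 (h1 t) y
    have h4 := congrArg (coeff m) h3
    rw [coeff_Ph, coeff_zero] at h4
    exact h4
  have h3 : (1 : R K) ∈ gor φ := by
    rw [mem_gor]
    apply annP_of_homog hφ (Nat.zero_le D) (isHomogeneous_one _ _)
    intro v hv
    refine kill_of_gl φ N (D - N) 1 ?_ v (by rwa [show D - N + N = D - 0 by omega])
    intro y _ m
    rw [one_mul]
    exact h2 y m
  obtain ⟨x, hx, hm, hn⟩ : ∃ x : R K, x.IsHomogeneous 0 ∧ lf (0 : Fin 3 → K) ^ N * x ∈ gor φ ∧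
      x ∉ gor φ := by
    have h2 := hcon 0
    rw [Inj] at h2
    push Not at h2
    exact h2
  apply hn
  rw [← mul_one x]
  exact Ideal.mul_mem_left _ _ h3

/-- the strong Lefschetz property gives the injectivity -/
lemma inj_of_slp {I : Ideal (R K)} {φ : R K →ₗ[K] K} {D : ℕ} (hφ : Deg φ D) (hI : I = gor φ)
    (h : HasSLP I) : ∃ t : Fin 3 → K, ∀ i N : ℕ, 2 * i + N ≤ D → Inj I i N t := by
  obtain ⟨ℓ, hℓ, h⟩ := h
  obtain ⟨t, rfl⟩ := exists_lf hℓ
  refine ⟨t, fun i N hiN => ?_⟩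
  apply Inj.mono (N := D - 2 * i) _ (by omega)
  rcases h i (D - 2 * i) with h1 | h1
  · exact h1
  · intro x hx hm
    rw [hI] at hm ⊢
    rw [mem_gor]
    apply annP_of_homog hφ (by omega) hx
    intro v hv
    obtain ⟨y, hy, hy2⟩ := h1 v (by rwa [show i + (D - 2 * i) = D - i by omega])
    rw [hI] at hy2
    have e : x * v = (lf t ^ (D - 2 * i) * x) * y + (v - lf t ^ (D - 2 * i) * y) * x := by ring
    rw [e, map_add, mem_gor.1 hm, mem_gor.1 hy2, add_zero]

/-- the product of two forms -/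
lemma step {a a' b c : ℕ} {p q g h : R K} (hp : p.IsHomogeneous a) (hq : q.IsHomogeneous a')
    (hg : g.IsHomogeneous b) (hh : h.IsHomogeneous c) (H : CI (p * q) g h) {i N : ℕ}
    (h1 : ∃ P : R K, P ≠ 0 ∧ ∀ t, eval t P ≠ 0 → Inj (Ideal.span {p, g, h}) i N t)
    (h2 : ∃ P : R K, P ≠ 0 ∧ ∀ t, eval t P ≠ 0 → a ≤ i → Inj (Ideal.span {q, g, h}) (i - a) N t) :
    ∃ t : Fin 3 → K, Inj (Ideal.span {p * q, g, h}) i N t := by
  obtain ⟨P, hP0, hP⟩ := h1
  obtain ⟨Q, hQ0, hQ⟩ := h2
  obtain ⟨t, ht⟩ : ∃ t, eval t (P * Q) ≠ 0 := by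
    by_contra hall
    push Not at hall
    apply mul_ne_zero hP0 hQ0
    apply MvPolynomial.funext
    intro t
    rw [hall t, map_zero]
  rw [map_mul, mul_ne_zero_iff] at ht
  refine ⟨t, fun x hx hm => ?_⟩
  have h3 := hP t ht.1 x hx (span_le_factor hm)
  obtain ⟨y, hy, hy0, hxy⟩ := exists_quot hp hx hg hh h3
  have hle : Ideal.span {g, h} ≤ Ideal.span {p * q, g, h} := by
    apply Ideal.span_mono
    intro z hz
    exact Or.inr hz
  have h4 : y ∈ Ideal.span {q, g, h} := by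
    rcases Nat.lt_or_ge i a with hia | hia
    · rw [hy0 hia]
      exact Ideal.zero_mem _
    · apply hQ t ht.2 hia y hy
      apply H.colon_factor
      have e : p * (lf t ^ N * y) = lf t ^ N * x - lf t ^ N * (x - p * y) := by
        ring
      rw [e]
      exact Ideal.sub_mem _ hm (Ideal.mul_mem_left _ _ (hle hxy))
  have e : x = (x - p * y) + p * y := by ring
  rw [e]
  exact Ideal.add_mem _ (hle hxy) (mul_mem_factor h4)

end

universe w

/-- the maps over an algebraically closed field -/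
theorem alg {K : Type w} [Field K] [CharZero K] [IsAlgClosed K] {b c : ℕ} {g h : R K}
    (hg : g.IsHomogeneous b) (hh : h.IsHomogeneous c) (hb : 1 ≤ b) (hc : 1 ≤ c) (n : ℕ) :
    ∀ {a : ℕ} {f : R K}, a ≤ n → f.IsHomogeneous a → 1 ≤ a → CI f g h →
    ∀ i N, 2 * i + N ≤ b + c → 2 * i + N + 3 ≤ a + b + c →
      ∃ t : Fin 3 → K, Inj (Ideal.span {f, g, h}) i N t := by
  classical
  induction n with
  | zero => intro a f ha _ ha1; omega
  | succ n ih =>
    intro a f han hf ha1 H i N h1 h2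
    by_cases ha3 : a ≤ 3
    · obtain ⟨D, hD⟩ : ∃ D, a + b + c = D + 3 := ⟨a + b + c - 3, by omega⟩
      obtain ⟨φ, hφ, hI⟩ := H.functional hf hg hh ha1 hb hc hD
      obtain ⟨t, ht⟩ := inj_of_slp hφ hI (Pool.Agent.H868.NR.main hf hg hh ha1 ha3 hb hc H.reg)
      exact ⟨t, ht i N (by omega)⟩
    push Not at ha3
    -- the factor step with the induction hypothesis
    have hstep : ∀ {a₁ a₂ : ℕ} {p q : R K}, f = p * q → p.IsHomogeneous a₁ → q.IsHomogeneous a₂ →
        3 ≤ a₁ → 0 < a₂ → a₁ + a₂ = a → ∃ t : Fin 3 → K, Inj (Ideal.span {f, g, h}) i N t := by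
      intro a₁ a₂ p q hpq hp hq ha₁ ha₂ ha
      rw [hpq] at H ⊢
      have Hp := H.factor hp hg hh (by omega) hb hc
      have Hq := H.factor' hq hg hh (by omega) hb hc
      obtain ⟨D₁, hD₁⟩ : ∃ D, a₁ + b + c = D + 3 := ⟨a₁ + b + c - 3, by omega⟩
      obtain ⟨φ₁, hφ₁, hI₁⟩ := Hp.functional hp hg hh (by omega) hb hc hD₁
      refine step hp hq hg hh H ?_ ?_
      · exact gen hφ₁ hI₁ (by omega) (ih (by omega) hp (by omega) Hp i N h1 (by omega))
      · by_cases hai : a₁ ≤ i
        · obtain ⟨D₂, hD₂⟩ : ∃ D, a₂ + b + c = D + 3 := ⟨a₂ + b + c - 3, by omega⟩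
          obtain ⟨φ₂, hφ₂, hI₂⟩ := Hq.functional hq hg hh (by omega) hb hc hD₂
          obtain ⟨P, hP0, hP⟩ := gen hφ₂ hI₂ (by omega)
            (ih (by omega) hq (by omega) Hq (i - a₁) N (by omega) (by omega))
          exact ⟨P, hP0, fun t ht _ => hP t ht⟩
        · exact ⟨1, one_ne_zero, fun t _ h => absurd h hai⟩
    -- reduction to the top power
    obtain ⟨N', hN'⟩ : ∃ N', 2 * i + N' = b + c := ⟨b + c - 2 * i, by omega⟩
    rcases Nat.eq_zero_or_pos i with hi | hi
    · subst hi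
      obtain ⟨D, hD⟩ : ∃ D, a + b + c = D + 3 := ⟨a + b + c - 3, by omega⟩
      obtain ⟨φ, hφ, hI⟩ := H.functional hf hg hh ha1 hb hc hD
      rw [hI]
      exact inj_zero hφ (by omega)
    rcases Nat.eq_zero_or_pos N' with hN0 | hN0
    · refine ⟨0, fun x hx hm => ?_⟩
      obtain rfl : N = 0 := by omega
      rwa [pow_zero, one_mul] at hm
    by_cases hirr : Irreducible f
    · obtain ⟨t, ht⟩ := inj_irr hf hg hh (by omega) hb hc H hi hN0 hN' hirr
      exact ⟨t, ht.mono (by omega)⟩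
    obtain ⟨a₁, a₂, p, q, hpq, hp, hq, ha₁, ha₂, ha⟩ :=
      Pool.Agent.H868.RC.exists_factor hf (by omega) H.f0 hirr
    by_cases h3 : 3 ≤ a₁
    · exact hstep hpq hp hq h3 ha₂ ha
    by_cases h4 : 3 ≤ a₂
    · exact hstep (by rw [hpq, mul_comm]) hq hp h4 ha₁ (by omega)
    obtain rfl : a₁ = 2 := by omega
    obtain rfl : a₂ = 2 := by omega
    have hp0 : p ≠ 0 := by
      rintro rfl
      rw [zero_mul] at hpq
      exact H.f0 hpq
    have hq0 : q ≠ 0 := by
      rintro rfl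
      rw [mul_zero] at hpq
      exact H.f0 hpq
    by_cases hpi : Irreducible p
    swap
    · obtain ⟨e₁, e₂, l, m, hlm, hl, hm, he₁, he₂, he⟩ :=
        Pool.Agent.H868.RC.exists_factor hp (by norm_num) hp0 hpi
      exact hstep (p := l * q) (q := m) (a₁ := e₁ + 2) (a₂ := e₂) (by rw [hpq, hlm]; ring)
        (hl.mul hq) hm (by omega) he₂ (by omega)
    by_cases hqi : Irreducible q
    swap
    · obtain ⟨e₁, e₂, l, m, hlm, hl, hm, he₁, he₂, he⟩ :=
        Pool.Agent.H868.RC.exists_factor hq (by norm_num) hq0 hqi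
      exact hstep (p := p * l) (q := m) (a₁ := 2 + e₁) (a₂ := e₂) (by rw [hpq, hlm]; ring)
        (hp.mul hl) hm (by omega) he₂ (by omega)
    -- two irreducible conics
    have key : ∀ r : R K, r.IsHomogeneous 2 → Irreducible r → (¬ Associated p r ∨ p = r) →
        CI (p * r) g h → ∃ t : Fin 3 → K, Inj (Ideal.span {p * r, g, h}) i N t := by
      intro r hr hri has H'
      have Hr := H'.factor' hr hg hh (by omega) hb hc
      obtain ⟨t, ht⟩ := inj_two hp hr hg hh le_rfl le_rfl hb hc H' hi hN0 hN' hpi hri has (by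
        by_cases hai : 2 ≤ i
        · obtain ⟨D₂, hD₂⟩ : ∃ D, 2 + b + c = D + 3 := ⟨2 + b + c - 3, by omega⟩
          obtain ⟨φ₂, hφ₂, hI₂⟩ := Hr.functional hr hg hh (by omega) hb hc hD₂
          obtain ⟨P, hP0, hP⟩ := gen hφ₂ hI₂ (by omega)
            (ih (by omega) hr (by omega) Hr (i - 2) N' (by omega) (by omega))
          exact ⟨P, hP0, fun t ht _ => hP t ht⟩
        · exact ⟨1, one_ne_zero, fun t _ h => absurd h hai⟩)
      exact ⟨t, ht.mono (by omega)⟩
    by_cases has : Associated p q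
    · obtain ⟨v, hv⟩ := has
      have e : f = (p * p) * v := by rw [hpq, ← hv]; ring
      have H' : CI (p * p) g h := by
        rw [e] at H
        exact H.factor (hp.mul hp) hg hh (by omega) hb hc
      obtain ⟨t, ht⟩ := key p hp hpi (Or.inr rfl) H'
      refine ⟨t, ?_⟩
      have e2 : Ideal.span {f, g, h} = Ideal.span {p * p, g, h} := by
        rw [Ideal.span_insert, Ideal.span_insert (p * p)]
        congr 1
        rw [e]
        exact Ideal.span_singleton_mul_right_unit v.isUnit _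
      rw [e2]
      exact ht
    · rw [hpq] at H ⊢
      exact key q hq hqi (Or.inl has) H

/-- **Main theorem.** -/
theorem main {K : Type w} [Field K] [CharZero K] {a b c : ℕ} {f g h : R K}
    (hf : f.IsHomogeneous a) (hg : g.IsHomogeneous b) (hh : h.IsHomogeneous c) (ha : 1 ≤ a)
    (hb : 1 ≤ b) (hc : 1 ≤ c) (hreg : Reg ![f, g, h]) :
    ∃ ℓ : R K, ℓ.IsHomogeneous 1 ∧ ∀ i j : ℕ,
      (2 * i + j ≤ b + c → 2 * i + j + 3 ≤ a + b + c → ∀ p : R K, p.IsHomogeneous i →
        ℓ ^ j * p ∈ Ideal.span {f, g, h} → p ∈ Ideal.span {f, g, h}) ∧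
      (2 * a + b + c ≤ 2 * i + j + 6 → a + b + c ≤ 2 * i + j + 3 →
        ∀ q : R K, q.IsHomogeneous (i + j) →
        ∃ p : R K, p.IsHomogeneous i ∧ q - ℓ ^ j * p ∈ Ideal.span {f, g, h}) := by
  classical
  have hinf : Infinite K := inferInstance
  have hchar : CharZero (AlgebraicClosure K) := charZero_of_injective_algebraMap
    (algebraMap K (AlgebraicClosure K)).injective
  obtain ⟨F, hF, hF0, hAnn⟩ := exists_F hf hg hh ha hb hc hreg
  obtain ⟨D, hD⟩ : ∃ D, D = a - 1 + (b - 1) + (c - 1) := ⟨_, rfl⟩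
  rw [← hD] at hF
  obtain ⟨φ, hφd⟩ : ∃ φ, φ = fun0 F := ⟨_, rfl⟩
  have hφ : Deg φ D := by
    have h1 := deg_ex (L := K) hF
    rw [gor_self] at h1
    rwa [hφd]
  have hI : Ideal.span {f, g, h} = gor φ := by
    have h1 := gor_ex (L := K) hF
    rw [gor_self, hAnn, exI, Ideal.map_span, Set.image_insert_eq, Set.image_insert_eq,
      Set.image_singleton, Algebra.algebraMap_self, MvPolynomial.map_id, MvPolynomial.map_id,
      MvPolynomial.map_id] at h1
    rw [hφd, h1]
  have hφL : Deg (ex φ (AlgebraicClosure K)) D := by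
    rw [hφd]
    exact deg_ex hF
  have hIL : gor (ex φ (AlgebraicClosure K)) = Ideal.span
      {map (algebraMap K (AlgebraicClosure K)) f, map (algebraMap K (AlgebraicClosure K)) g,
        map (algebraMap K (AlgebraicClosure K)) h} := by
    rw [hφd, gor_ex hF, hAnn, exI, Ideal.map_span, Set.image_insert_eq, Set.image_insert_eq,
      Set.image_singleton]
  have hreg' := reg_map (L := AlgebraicClosure K) hreg
  have e1 : (fun i => map (algebraMap K (AlgebraicClosure K)) (![f, g, h] i))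
      = ![map (algebraMap K (AlgebraicClosure K)) f, map (algebraMap K (AlgebraicClosure K)) g,
        map (algebraMap K (AlgebraicClosure K)) h] := by
    funext i
    fin_cases i <;> rfl
  rw [e1] at hreg'
  have hfL := hf.map (algebraMap K (AlgebraicClosure K))
  have hgL := hg.map (algebraMap K (AlgebraicClosure K))
  have hhL := hh.map (algebraMap K (AlgebraicClosure K))
  have hCI : CI (map (algebraMap K (AlgebraicClosure K)) f)
      (map (algebraMap K (AlgebraicClosure K)) g) (map (algebraMap K (AlgebraicClosure K)) h) := by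
    have H3 := Pool.Agent.H868.RC.ci3_of_reg hfL hgL hhL ha hb hc hreg'
    refine ci_of hfL hgL hhL ha hb hc ?_ H3.fg H3.fgh
    intro h0
    have h1 := hreg' 0 1 (by
      change map (algebraMap K (AlgebraicClosure K)) f * 1 ∈ _
      rw [h0, zero_mul]
      exact Ideal.zero_mem _)
    have h2 : (![map (algebraMap K (AlgebraicClosure K)) f, map (algebraMap K (AlgebraicClosure K)) g,
        map (algebraMap K (AlgebraicClosure K)) h] '' {j | j < 0}) = ∅ := by
      rw [Set.image_eq_empty]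
      ext j
      simp
    rw [h2, Ideal.span_empty, Ideal.mem_bot] at h1
    exact one_ne_zero h1
  have hP : ∀ z : ℕ × ℕ, ∃ P : R K, P ≠ 0 ∧ (2 * z.1 + z.2 ≤ b + c →
      2 * z.1 + z.2 + 3 ≤ a + b + c → ∀ t : Fin 3 → K, eval t P ≠ 0 →
      Inj (Ideal.span {f, g, h}) z.1 z.2 t) := by
    rintro ⟨i, N⟩
    by_cases h1 : 2 * i + N ≤ b + c ∧ 2 * i + N + 3 ≤ a + b + c
    · obtain ⟨t, ht⟩ := alg hgL hhL hb hc a le_rfl hfL ha hCI i N h1.1 h1.2
      rw [← hIL] at ht
      obtain ⟨P, hP0, hP⟩ := descend hφ (show i + N ≤ D by omega) hφL ht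
      rw [← hI] at hP
      exact ⟨P, hP0, fun _ _ => hP⟩
    · exact ⟨1, one_ne_zero, fun h2 h3 => absurd ⟨h2, h3⟩ h1⟩
  choose P hP0 hP using hP
  have hprod : ∏ z ∈ Finset.range (D + 1) ×ˢ Finset.range (D + 1), P z ≠ 0 :=
    Finset.prod_ne_zero_iff.mpr (fun i _ => hP0 i)
  have hex : ∃ p : Fin 3 → K,
      eval p (∏ z ∈ Finset.range (D + 1) ×ˢ Finset.range (D + 1), P z) ≠ 0 := by
    by_contra h
    push Not at h
    apply hprod
    apply MvPolynomial.funext
    intro p
    rw [h p, map_zero]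
  obtain ⟨t, ht⟩ := hex
  rw [map_prod] at ht
  have hinj : ∀ i j : ℕ, 2 * i + j ≤ b + c → 2 * i + j + 3 ≤ a + b + c →
      Inj (Ideal.span {f, g, h}) i j t := by
    intro i j h1 h2
    refine hP (i, j) h1 h2 t (Finset.prod_ne_zero_iff.mp ht (i, j) ?_)
    rw [Finset.mem_product, Finset.mem_range, Finset.mem_range]
    exact ⟨by simp only; omega, by simp only; omega⟩
  refine ⟨lf t, lf_hom t, fun i j => ⟨fun h1 h2 => hinj i j h1 h2, fun h1 h2 q hq => ?_⟩⟩
  by_cases hij : i + j ≤ D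
  · obtain ⟨p, hp, hm⟩ := surj_of_inj hφ (lf_hom t) hij (fun u hu hk => by
      have h3 := hinj (D - (i + j)) j (by omega) (by omega) u hu
      rw [hI] at h3
      exact mem_gor.1 (h3 (mem_gor.2 hk))) hq
    refine ⟨p, hp, ?_⟩
    rw [hI]
    exact mem_gor.2 hm
  · refine ⟨0, isHomogeneous_zero _ _ _, ?_⟩
    rw [mul_zero, sub_zero, hI]
    exact annP_of_gt hφ (by omega) hq

end Pool.Agent.H868.TC
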