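import Pool.Agent.H868.TC.Colon

/-!
The construction of the data from a complete intersection.
-/

namespace Pool.Agent.H868.TC

set_option maxHeartbeats 400000

open MvPolynomial
open Pool.Agent.Helper15K9.IC
open Pool.Agent.W695.SLP (lf lf_hom)
open Pool.Agent.W515.SLP (AnnP Deg annP_of_homog annP_of_gt)
open H503R3.QCI (NZD Reg)
open TH130CI (gor mem_gor)

variable {K : Type*} [Field K] [CharZero K] [IsAlgClosed K]

/-- a generic kernel vector gives the data -/
theorem build {a b c : ℕ} {f g h : R K} (hf : f.IsHomogeneous a) (hg : g.IsHomogeneous b)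
    (hh : h.IsHomogeneous c) (ha : 3 ≤ a) (hb : 1 ≤ b) (hc : 1 ≤ c) (H : CI f g h) {i N : ℕ}
    (hi : 1 ≤ i) (hN : 1 ≤ N) (hiN : 2 * i + N = b + c)
    (hbad : ∀ t : Fin 3 → K, ¬ Inj (Ideal.span {f, g, h}) i N t) :
    ∃ (D : Dt K) (k : ℕ), D.f = f ∧ D.g = g ^ (k + 1) ∧ D.h = h ^ (k + 1) ∧ D.w = (g * h) ^ k ∧
      D.i = i ∧ D.N = N ∧ D.b = b * (k + 1) ∧ D.c = c * (k + 1) ∧
      (∀ t, lf t ^ N * evt t D.u ∈ Ideal.span {f, g, h}) ∧
      ∃ Q : R K, Q ≠ 0 ∧ ∀ t, eval t Q ≠ 0 → evt t D.u ∉ Ideal.span {f, g, h} := by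
  classical
  obtain ⟨s, hs⟩ : ∃ s, a + b + c = s + 3 := ⟨a + b + c - 3, by omega⟩
  obtain ⟨φ, hφ, hI⟩ := H.functional hf hg hh (by omega) hb hc hs
  rw [hI] at hbad
  obtain ⟨d, u, hd, hut, hux, hker, ⟨t0, ht0⟩, hmin⟩ := exists_kv hφ (by omega) hbad
  obtain ⟨k, hk⟩ : ∃ k, k = i := ⟨_, rfl⟩
  have hbk : b * (k + 1) = b * k + b := by ring
  have hck : c * (k + 1) = c * k + c := by ring
  have hbk' : k ≤ b * k := Nat.le_mul_of_pos_left k (by omega)
  have hck' : k ≤ c * k := Nat.le_mul_of_pos_left k (by omega)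
  have H2 := (H.pow hf hg hh (by omega) hb hc (k := k + 1) (by omega)).2
  have hgk := hg.pow (k + 1)
  have hhk := hh.pow (k + 1)
  obtain ⟨s', hs'⟩ : ∃ s', a + b * (k + 1) + c * (k + 1) = s' + 3 :=
    ⟨a + b * (k + 1) + c * (k + 1) - 3, by omega⟩
  obtain ⟨ψ, hψ, hJ⟩ := H2.functional hf hgk hhk (by omega) (by omega) (by omega) hs'
  have hPt : ∀ t, lf t ^ N * evt t u ∈ gor φ := by
    intro t
    have h1 : evt t (u * gl K ^ N) = lf t ^ N * evt t u := by
      rw [map_mul, map_pow, evt_gl, mul_comm]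
    rw [← h1]
    exact evt_mem hker t
  obtain ⟨v0, hv0⟩ : ∃ v0, φ (evt t0 u * v0) ≠ 0 := by
    by_contra hcon
    push Not at hcon
    exact ht0 hcon
  refine ⟨
    { f := f, g := g ^ (k + 1), h := h ^ (k + 1), w := (g * h) ^ k, a := a, b := b * (k + 1),
      c := c * (k + 1), e := (b + c) * k, i := i, N := N, d := d, M := s' + 1, u := u,
      hf := hf, ha := ha, hf0 := H.f0, hg := hgk, hh := hhk, hw := (hg.mul hh).pow k,
      hreg := ?_, hcg := ?_, hch := ?_, hM := ?_, hN := hN, hdeg := ?_, hi := hi,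
      hib := by omega, hic := by omega, hd := hd, hut := hut, hux := hux, hP := ?_, hmin := ?_ },
    k, rfl, rfl, rfl, rfl, rfl, rfl, rfl, rfl, ?_, ?_⟩
  · intro X Y hXY
    have h1 : h ^ (k + 1) * X ∈ Ideal.span {f, g ^ (k + 1)} := by
      obtain ⟨a, ha⟩ := hXY
      rw [Ideal.mem_span_pair]
      exact ⟨a, -Y, by linear_combination -ha⟩
    have h2 := H2.fgh X h1
    rw [Ideal.mem_span_pair] at h2
    obtain ⟨a, κ, h2⟩ := h2
    refine ⟨-κ, ?_, ⟨a, by linear_combination -h2⟩⟩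
    have h3 : f ∣ g ^ (k + 1) * (Y - h ^ (k + 1) * (-κ)) := by
      obtain ⟨b, hb⟩ := hXY
      exact ⟨b - h ^ (k + 1) * a, by linear_combination hb + h ^ (k + 1) * h2⟩
    rw [← Ideal.mem_span_singleton] at h3 ⊢
    exact H2.fg _ h3
  · intro X hX
    rw [← Ideal.mem_span_singleton] at hX ⊢
    exact H2.fg _ hX
  · intro X hX
    rw [← Ideal.mem_span_singleton] at hX ⊢
    exact H2.fh _ hX
  · intro j
    have h1 := (isHomogeneous_X K j).pow (s' + 1)
    rw [one_mul] at h1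
    rw [hJ]
    exact annP_of_gt hψ (by omega) h1
  · have e : (b + c) * k = b * k + c * k := by ring
    rw [e, hbk, hck]
    omega
  · intro m
    rw [coeff_C_mul, H.colon_pow hf hg hh (by omega) hb hc, hI]
    exact hker m
  · intro c' hc'
    obtain ⟨t, ht, hne⟩ := hmin c' hc'
    refine ⟨t, ht, fun h1 => hne ?_⟩
    rw [H.colon_pow hf hg hh (by omega) hb hc, hI] at h1
    exact h1
  · intro t
    have h1 := hPt t
    rw [← hI] at h1
    exact h1
  · refine ⟨Ph (φ ∘ₗ LinearMap.mulRight K v0) u, ?_, ?_⟩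
    · rintro h
      apply hv0
      have h1 := eval_Ph (φ ∘ₗ LinearMap.mulRight K v0) t0 u
      rw [h, map_zero] at h1
      exact h1.symm
    · intro t ht h1
      have h2 : evt t u ∈ gor φ := by
        rw [← hI]
        exact h1
      apply ht
      rw [eval_Ph]
      exact mem_gor.1 h2 v0

omit [IsAlgClosed K] in
/-- the socle condition for a factor -/
lemma socle {p g h : R K} {a b c : ℕ} (hp : p.IsHomogeneous a) (hg : g.IsHomogeneous b)
    (hh : h.IsHomogeneous c) (ha : 2 ≤ a) (hb : 1 ≤ b) (hc : 1 ≤ c) (H : CI p g h) {e i N : ℕ}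
    (hi : 1 ≤ i) (hdeg : e + 2 * i + N = b + c) {s : R K} (hs : s.IsHomogeneous (e + i))
    (hm : ∀ m, coeff m (gl K ^ N) * s ∈ Ideal.span {p, g, h}) : s ∈ Ideal.span {p, g, h} := by
  obtain ⟨D, hD⟩ : ∃ D, a + b + c = D + 3 := ⟨a + b + c - 3, by omega⟩
  obtain ⟨φ, hφ, hI⟩ := H.functional hp hg hh (by omega) hb hc hD
  rw [hI] at hm ⊢
  rw [mem_gor]
  apply annP_of_homog hφ (by omega) hs
  intro y hy
  refine kill_of_gl φ N (D - (e + i) - N) s ?_ y
    (by rwa [show D - (e + i) - N + N = D - (e + i) by omega])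
  intro z _ m
  have h1 := mem_gor.1 (hm m) z
  rwa [← mul_assoc]

/-- an irreducible form -/
theorem inj_irr {a b c : ℕ} {f g h : R K} (hf : f.IsHomogeneous a) (hg : g.IsHomogeneous b)
    (hh : h.IsHomogeneous c) (ha : 3 ≤ a) (hb : 1 ≤ b) (hc : 1 ≤ c) (H : CI f g h) {i N : ℕ}
    (hi : 1 ≤ i) (hN : 1 ≤ N) (hiN : 2 * i + N = b + c) (hirr : Irreducible f) :
    ∃ t : Fin 3 → K, Inj (Ideal.span {f, g, h}) i N t := by
  by_contra hcon
  push Not at hcon
  obtain ⟨D, k, hDf, -⟩ := build hf hg hh ha hb hc H hi hN hiN hcon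
  exact irr D (by rw [hDf]; exact hirr)

omit [CharZero K] [IsAlgClosed K] in
lemma not_dvd_pow_of_nzd {p r g : R K} {n : ℕ} (hp : Prime p) (hpr : p * r ≠ 0)
    (h : NZD (Ideal.span {p * r}) g) : ¬ p ∣ g ^ n := by
  intro h1
  have h2 := hp.dvd_of_dvd_pow h1
  obtain ⟨q, hq⟩ := h2
  have h3 : r ∈ Ideal.span {p * r} := by
    apply h
    rw [Ideal.mem_span_singleton, hq]
    exact ⟨q, by ring⟩
  rw [Ideal.mem_span_singleton] at h3
  obtain ⟨s, hs⟩ := h3
  have hr : r ≠ 0 := right_ne_zero_of_mul hpr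
  apply hp.not_isUnit
  apply IsUnit.of_mul_eq_one s
  apply mul_left_cancel₀ hr
  rw [mul_one]
  linear_combination -hs

/-- a product of two irreducible forms of degree at least two -/
theorem inj_two {a a' b c : ℕ} {p r g h : R K} (hp : p.IsHomogeneous a) (hr : r.IsHomogeneous a')
    (hg : g.IsHomogeneous b) (hh : h.IsHomogeneous c) (ha : 2 ≤ a) (ha' : 2 ≤ a') (hb : 1 ≤ b)
    (hc : 1 ≤ c) (H : CI (p * r) g h) {i N : ℕ}
    (hi : 1 ≤ i) (hN : 1 ≤ N) (hiN : 2 * i + N = b + c) (hpi : Irreducible p)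
    (hri : Irreducible r) (has : ¬ Associated p r ∨ p = r)
    (hrec : ∃ P : R K, P ≠ 0 ∧ ∀ t, eval t P ≠ 0 → a ≤ i → Inj (Ideal.span {r, g, h}) (i - a) N t) :
    ∃ t : Fin 3 → K, Inj (Ideal.span {p * r, g, h}) i N t := by
  by_contra hcon
  push Not at hcon
  obtain ⟨D, k, hDf, hDg, hDh, hDw, hDi, hDN, hDb, hDc, hlt, Q, hQ0, hQ⟩ :=
    build (hp.mul hr) hg hh (by omega) hb hc H hi hN hiN hcon
  have hp2 := not_dvd_lf_of_deg hp ha
  have hr2 := not_dvd_lf_of_deg hr ha'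
  have Hp : CI p g h := H.factor hp hg hh (by omega) hb hc
  have hgh : NZD (Ideal.span {p * r}) (g * h) := by
    intro x hx
    apply H.fh
    apply H.fg
    rwa [← mul_assoc]
  have hwp : ¬ p ∣ D.w := by
    rw [hDw]
    exact not_dvd_pow_of_nzd hpi.prime H.f0 hgh
  have hwr : ¬ r ∣ D.w := by
    rw [hDw]
    rw [mul_comm p r] at hgh
    exact not_dvd_pow_of_nzd hri.prime (by rw [mul_comm]; exact H.f0) hgh
  have hsoc : ∀ s : R K, s.IsHomogeneous (D.e + D.i) →
      (∀ m, coeff m (gl K ^ D.N) * s ∈ Ideal.span {p, D.g, D.h}) →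
      s ∈ Ideal.span {p, D.g, D.h} := by
    intro s hs hm
    have H2 := (Hp.pow hp hg hh (by omega) hb hc (k := k + 1) (by omega)).2
    rw [← hDg, ← hDh] at H2
    refine socle hp D.hg D.hh ha ?_ ?_ H2 (by rw [hDi]; exact hi) D.hdeg hs hm
    · have := D.hib
      omega
    · have := D.hic
      omega
  have hconcl := concl D hpi hri hDf has hp2 hr2 hwp hwr hsoc
  obtain ⟨P, hP0, hP⟩ := hrec
  obtain ⟨t, ht⟩ : ∃ t, eval t (P * Q) ≠ 0 := by
    by_contra hall
    push Not at hall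
    apply mul_ne_zero hP0 hQ0
    apply MvPolynomial.funext
    intro t
    rw [hall t, map_zero]
  rw [map_mul, mul_ne_zero_iff] at ht
  apply hQ t ht.2
  have h1 := hconcl t
  rw [hDg, hDh, hDw, Hp.colon_pow hp hg hh (by omega) hb hc] at h1
  have huh : (evt t D.u).IsHomogeneous i := by
    have := XH.evt (show XH D.i D.u from D.hux) t
    rwa [hDi] at this
  obtain ⟨y, hy, hy0, hxy⟩ := exists_quot hp huh hg hh h1
  have hle : Ideal.span {g, h} ≤ Ideal.span {p * r, g, h} := by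
    apply Ideal.span_mono
    intro z hz
    exact Or.inr hz
  have h2 : y ∈ Ideal.span {r, g, h} := by
    rcases Nat.lt_or_ge i a with hia | hia
    · rw [hy0 hia]
      exact Ideal.zero_mem _
    · apply hP t ht.1 hia y hy
      apply H.colon_factor
      have e : p * (lf t ^ N * y) = lf t ^ N * evt t D.u - lf t ^ N * (evt t D.u - p * y) := by
        ring
      rw [e]
      exact Ideal.sub_mem _ (hlt t) (Ideal.mul_mem_left _ _ (hle hxy))
  have e : evt t D.u = (evt t D.u - p * y) + p * y := by ring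
  rw [e]
  exact Ideal.add_mem _ (hle hxy) (mul_mem_factor h2)

end Pool.Agent.H868.TC
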