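import Pool.Agent.H868.TC.Ker

/-!
Complete intersections of three forms: permutations, powers, factors and colon ideals.
-/

namespace Pool.Agent.H868.TC

set_option maxHeartbeats 400000

open MvPolynomial
open Pool.Agent.Helper15K9.IC (R nzd_pow)
open Pool.Agent.W695.SLP (lf lf_hom)
open Pool.Agent.W515.SLP (AnnP Deg annP_of_homog annP_of_gt)
open H503R3.QCI (NZD Reg)
open TH130CI (gor mem_gor ci_gor' sreg_of_reg SRegOn)

variable {K : Type*} [Field K]

/-- the regularity conditions on three forms -/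
structure CI (f g h : R K) : Prop where
  f0 : f ≠ 0
  g0 : g ≠ 0
  h0 : h ≠ 0
  fg : NZD (Ideal.span {f}) g
  fh : NZD (Ideal.span {f}) h
  gf : NZD (Ideal.span {g}) f
  gh : NZD (Ideal.span {g}) h
  hf : NZD (Ideal.span {h}) f
  hg : NZD (Ideal.span {h}) g
  fgh : NZD (Ideal.span {f, g}) h
  fhg : NZD (Ideal.span {f, h}) g
  ghf : NZD (Ideal.span {g, h}) f

lemma CI.swap {f g h : R K} (H : CI f g h) : CI f h g where
  f0 := H.f0
  g0 := H.h0
  h0 := H.g0
  fg := H.fh
  fh := H.fg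
  gf := H.hf
  gh := H.hg
  hf := H.gf
  hg := H.gh
  fgh := H.fhg
  fhg := H.fgh
  ghf := by rw [Set.pair_comm]; exact H.ghf

lemma CI.rot {f g h : R K} (H : CI f g h) : CI g h f where
  f0 := H.g0
  g0 := H.h0
  h0 := H.f0
  fg := H.gh
  fh := H.gf
  gf := H.hg
  gh := H.hf
  hf := H.fg
  hg := H.fh
  fgh := H.ghf
  fhg := by rw [Set.pair_comm]; exact H.fgh
  ghf := by rw [Set.pair_comm]; exact H.fhg

lemma ne_of_nzd {g : R K} {b : ℕ} (hg : g.IsHomogeneous b) (hb : 1 ≤ b) {f : R K}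
    (H : NZD (Ideal.span {g}) f) : f ≠ 0 := by
  rintro rfl
  have h1 := H 1 (by rw [zero_mul]; exact Ideal.zero_mem _)
  rw [Ideal.mem_span_singleton] at h1
  exact Pool.Agent.H868.RC.not_unit_of_hom hg hb (isUnit_of_dvd_one h1)

/-- the conditions from a regular sequence -/
lemma ci_of {f g h : R K} {a b c : ℕ} (hf : f.IsHomogeneous a) (hg : g.IsHomogeneous b)
    (hh : h.IsHomogeneous c) (ha : 1 ≤ a) (hb : 1 ≤ b) (hc : 1 ≤ c) (f0 : f ≠ 0)
    (h1 : NZD (Ideal.span {f}) g) (h2 : NZD (Ideal.span {f, g}) h) : CI f g h := by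
  have hreg : Reg ![f, g, h] := by
    intro i
    fin_cases i
    · change NZD (Ideal.span (![f, g, h] '' {j | j < 0})) f
      have h1 : ({j : Fin 3 | j < 0} : Set (Fin 3)) = ∅ := by
        ext j
        simp
      rw [h1, Set.image_empty, Ideal.span_empty]
      intro x hx
      rw [Ideal.mem_bot] at hx ⊢
      exact (mul_eq_zero.1 hx).resolve_left f0
    · change NZD (Ideal.span (![f, g, h] '' {j | j < 1})) g
      have h1 : ({j : Fin 3 | j < 1} : Set (Fin 3)) = {0} := by
        ext j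
        fin_cases j <;> simp
      rw [h1, Set.image_singleton]
      assumption
    · change NZD (Ideal.span (![f, g, h] '' {j | j < 2})) h
      have h1 : ({j : Fin 3 | j < 2} : Set (Fin 3)) = {0, 1} := by
        ext j
        fin_cases j <;> simp
      rw [h1, Set.image_pair]
      assumption
  have hs := sreg_of_reg (f := ![f, g, h]) (d := ![a, b, c]) (by
    intro i
    fin_cases i
    · exact hf
    · exact hg
    · exact hh) (by
    intro i
    fin_cases i
    · exact ha
    · exact hb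
    · exact hc) hreg
  have key1 : ∀ i j : Fin 3, i ≠ j → NZD (Ideal.span {(![f, g, h] : Fin 3 → R K) i})
      ((![f, g, h] : Fin 3 → R K) j) := by
    intro i j hij
    have h1 := hs {i} (Finset.subset_univ _) j (Finset.mem_univ _) (by
      rw [Finset.mem_singleton]; exact fun h => hij h.symm)
    rwa [Finset.coe_singleton, Set.image_singleton] at h1
  have key2 : ∀ i j k : Fin 3, k ≠ i → k ≠ j → NZD (Ideal.span {(![f, g, h] : Fin 3 → R K) i,
      (![f, g, h] : Fin 3 → R K) j}) ((![f, g, h] : Fin 3 → R K) k) := by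
    intro i j k hki hkj
    have h1 := hs {i, j} (Finset.subset_univ _) k (Finset.mem_univ _) (by
      rw [Finset.mem_insert, Finset.mem_singleton]
      rintro (h | h)
      · exact hki h
      · exact hkj h)
    rwa [Finset.coe_insert, Finset.coe_singleton, Set.image_pair] at h1
  have gf : NZD (Ideal.span {g}) f := key1 1 0 (by decide)
  exact ⟨f0, ne_of_nzd hf ha h1, ne_of_nzd hf ha (key1 0 2 (by decide)), h1, key1 0 2 (by decide),
    gf, key1 1 2 (by decide), key1 2 0 (by decide), key1 2 1 (by decide), h2,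
    key2 0 2 1 (by decide) (by decide), key2 1 2 0 (by decide) (by decide)⟩

lemma CI.reg {f g h : R K} (H : CI f g h) : Reg ![f, g, h] := by
  intro i
  fin_cases i
  · change NZD (Ideal.span (![f, g, h] '' {j | j < 0})) f
    have h1 : ({j : Fin 3 | j < 0} : Set (Fin 3)) = ∅ := by
      ext j
      simp
    rw [h1, Set.image_empty, Ideal.span_empty]
    intro x hx
    rw [Ideal.mem_bot] at hx ⊢
    exact (mul_eq_zero.1 hx).resolve_left H.f0
  · change NZD (Ideal.span (![f, g, h] '' {j | j < 1})) g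
    have h1 : ({j : Fin 3 | j < 1} : Set (Fin 3)) = {0} := by
      ext j
      fin_cases j <;> simp
    rw [h1, Set.image_singleton]
    exact H.fg
  · change NZD (Ideal.span (![f, g, h] '' {j | j < 2})) h
    have h1 : ({j : Fin 3 | j < 2} : Set (Fin 3)) = {0, 1} := by
      ext j
      fin_cases j <;> simp
    rw [h1, Set.image_pair]
    exact H.fgh

/-- the functional -/
lemma CI.functional {f g h : R K} (H : CI f g h) {a b c : ℕ} (hf : f.IsHomogeneous a)
    (hg : g.IsHomogeneous b) (hh : h.IsHomogeneous c) (ha : 1 ≤ a) (hb : 1 ≤ b) (hc : 1 ≤ c)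
    {D : ℕ} (hD : a + b + c = D + 3) :
    ∃ φ : R K →ₗ[K] K, Deg φ D ∧ Ideal.span {f, g, h} = gor φ := by
  obtain ⟨φ, hφ, hI⟩ := ci_gor' (f := ![f, g, h]) (d := ![a, b, c]) (by
    intro i
    fin_cases i
    · exact hf
    · exact hg
    · exact hh) (by
    intro i
    fin_cases i
    · exact ha
    · exact hb
    · exact hc) H.reg
  have hsum : ∑ i, ((![a, b, c] : Fin 3 → ℕ) i - 1) = D := by
    rw [Fin.sum_univ_three]
    simp only [Matrix.cons_val_zero, Matrix.cons_val_one, Matrix.cons_val]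
    omega
  rw [hsum] at hφ
  rw [Pool.Agent.H868.RC.range_three] at hI
  exact ⟨φ, hφ, hI⟩

lemma nzd_of_mul {I : Ideal (R K)} {p q : R K} (h : NZD I (p * q)) : NZD I p := by
  intro x hx
  apply h
  rw [mul_comm p q, mul_assoc]
  exact I.mul_mem_left _ hx

/-- factors of the first form -/
lemma CI.factor {p q g h : R K} (H : CI (p * q) g h) {a b c : ℕ} (hp : p.IsHomogeneous a)
    (hg : g.IsHomogeneous b) (hh : h.IsHomogeneous c) (ha : 1 ≤ a) (hb : 1 ≤ b) (hc : 1 ≤ c) :
    CI p g h :=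
  (ci_of hg hh hp hb hc ha H.g0 H.gh (nzd_of_mul H.ghf)).rot.rot

lemma CI.factor' {p q g h : R K} (H : CI (p * q) g h) {a b c : ℕ} (hq : q.IsHomogeneous a)
    (hg : g.IsHomogeneous b) (hh : h.IsHomogeneous c) (ha : 1 ≤ a) (hb : 1 ≤ b) (hc : 1 ≤ c) :
    CI q g h := by
  rw [mul_comm] at H
  exact H.factor hq hg hh ha hb hc

/-- powers of the last two forms -/
lemma CI.pow {f g h : R K} (H : CI f g h) {a b c : ℕ} (hf : f.IsHomogeneous a)
    (hg : g.IsHomogeneous b) (hh : h.IsHomogeneous c) (ha : 1 ≤ a) (hb : 1 ≤ b) (hc : 1 ≤ c)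
    {k : ℕ} (hk : 1 ≤ k) : CI f (g ^ k) h ∧ CI f (g ^ k) (h ^ k) := by
  have hbk : 1 ≤ b * k := Nat.mul_pos hb hk
  have hck : 1 ≤ c * k := Nat.mul_pos hc hk
  have h1 : CI f h (g ^ k) :=
    ci_of hf hh (hg.pow k) ha hc hbk H.f0 H.fh (nzd_pow H.fhg k)
  refine ⟨h1.swap, ci_of hf (hg.pow k) (hh.pow k) ha hbk hck H.f0 h1.swap.fg
    (nzd_pow h1.swap.fgh k)⟩

/-- the linked ideal -/
lemma CI.colon_pow {f g h : R K} (H : CI f g h) {a b c : ℕ} (hf : f.IsHomogeneous a)
    (hg : g.IsHomogeneous b) (hh : h.IsHomogeneous c) (ha : 1 ≤ a) (hb : 1 ≤ b) (hc : 1 ≤ c)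
    (k : ℕ) (x : R K) : (g * h) ^ k * x ∈ Ideal.span {f, g ^ (k + 1), h ^ (k + 1)} ↔
      x ∈ Ideal.span {f, g, h} := by
  constructor
  · intro hx
    obtain ⟨α, β, γ, h1⟩ := Submodule.mem_span_triple.1 hx
    simp only [smul_eq_mul] at h1
    have H1 := (H.swap.pow hf hh hg ha hc hb (k := k + 1) (by omega)).1
    have h2 : h ^ k * x - β * g ∈ Ideal.span {f, h ^ (k + 1)} := by
      apply nzd_pow H1.fgh k
      rw [Ideal.mem_span_pair]
      refine ⟨α, γ, ?_⟩
      rw [mul_pow] at h1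
      linear_combination h1
    obtain ⟨α', γ', h3⟩ := Ideal.mem_span_pair.1 h2
    have h4 : x - γ' * h ∈ Ideal.span {f, g} := by
      apply nzd_pow H.fgh k
      rw [Ideal.mem_span_pair]
      refine ⟨α', β, ?_⟩
      linear_combination h3
    obtain ⟨α'', β'', h5⟩ := Ideal.mem_span_pair.1 h4
    refine Submodule.mem_span_triple.2 ⟨α'', β'', γ', ?_⟩
    simp only [smul_eq_mul]
    linear_combination h5
  · intro hx
    obtain ⟨α, β, γ, rfl⟩ := Submodule.mem_span_triple.1 hx
    simp only [smul_eq_mul]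
    refine Submodule.mem_span_triple.2 ⟨(g * h) ^ k * α, h ^ k * β, g ^ k * γ, ?_⟩
    simp only [smul_eq_mul]
    ring

/-- the colon ideal by a factor of the first form -/
lemma CI.colon_factor {p q g h : R K} (H : CI (p * q) g h) {x : R K}
    (hx : p * x ∈ Ideal.span {p * q, g, h}) : x ∈ Ideal.span {q, g, h} := by
  obtain ⟨α, β, γ, h1⟩ := Submodule.mem_span_triple.1 hx
  simp only [smul_eq_mul] at h1
  have h2 : x - α * q ∈ Ideal.span {g, h} := by
    apply nzd_of_mul H.ghf
    rw [Ideal.mem_span_pair]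
    exact ⟨β, γ, by linear_combination h1⟩
  obtain ⟨β', γ', h3⟩ := Ideal.mem_span_pair.1 h2
  refine Submodule.mem_span_triple.2 ⟨α, β', γ', ?_⟩
  simp only [smul_eq_mul]
  linear_combination h3

lemma mul_mem_factor {p q g h x : R K} (hx : x ∈ Ideal.span {q, g, h}) :
    p * x ∈ Ideal.span {p * q, g, h} := by
  obtain ⟨α, β, γ, rfl⟩ := Submodule.mem_span_triple.1 hx
  simp only [smul_eq_mul]
  refine Submodule.mem_span_triple.2 ⟨α, p * β, p * γ, ?_⟩
  simp only [smul_eq_mul]
  ring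

lemma span_le_factor {p q g h : R K} :
    Ideal.span {p * q, g, h} ≤ Ideal.span {p, g, h} := by
  rw [Ideal.span_le]
  rintro x (rfl | rfl | rfl)
  · exact Ideal.mul_mem_right _ _ (Ideal.subset_span (by simp))
  · exact Ideal.subset_span (by simp)
  · exact Ideal.subset_span (by simp)

/-- elements of `(p, g, h)` modulo the last two forms -/
lemma exists_quot {p g h x : R K} {a i : ℕ} (hp : p.IsHomogeneous a) (hx : x.IsHomogeneous i)
    {b c : ℕ} (hg : g.IsHomogeneous b) (hh : h.IsHomogeneous c) (hm : x ∈ Ideal.span {p, g, h}) :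
    ∃ y : R K, y.IsHomogeneous (i - a) ∧ (i < a → y = 0) ∧ x - p * y ∈ Ideal.span {g, h} := by
  obtain ⟨α, β, γ, h1⟩ := Submodule.mem_span_triple.1 hm
  simp only [smul_eq_mul] at h1
  have h3 := congrArg (homogeneousComponent i) h1
  rw [map_add, map_add, Pool.Agent.TH61.SL.comp_mul hp, Pool.Agent.TH61.SL.comp_mul hg,
    Pool.Agent.TH61.SL.comp_mul hh, Pool.Agent.TH61.SL.comp_self hx] at h3
  refine ⟨Pool.Agent.TH61.SL.hc a i α, Pool.Agent.TH61.SL.hc_hom _,
    fun h => Pool.Agent.TH61.SL.hc_zero h _, ?_⟩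
  rw [Ideal.mem_span_pair]
  exact ⟨Pool.Agent.TH61.SL.hc b i β, Pool.Agent.TH61.SL.hc c i γ, by linear_combination h3⟩

end Pool.Agent.H868.TC
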