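import Pool.Agent.H868.TC.Grad
import Pool.Graph.R_pool_sql_team_seeded_1e53cb71.Helper15K9.IC.Ker

/-!
The generic kernel vector on a component `p = 0` of the cubic: removal of the content.
-/

namespace Pool.Agent.H868.TC

open MvPolynomial
open Pool.Agent.Helper15K9.IC
open Pool.Agent.W695.SLP (lf Good)

variable {K : Type*} [Field K]

/-- coordinates for the forms of degree `i` modulo `p` -/
lemma coords (p : R K) (i : ℕ) : ∃ (r : ℕ) (e : Fin r → R K) (ϕ : Fin r → R K →ₗ[K] K),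
    (∀ q, (e q).IsHomogeneous i) ∧ (∀ q s, p ∣ s → ϕ q s = 0) ∧
    (∀ s : R K, s.IsHomogeneous i → p ∣ s - ∑ q, C (ϕ q s) * e q) := by
  classical
  let π : R K →ₗ[K] (R K ⧸ Ideal.span {p}) := (Ideal.Quotient.mkₐ K (Ideal.span {p})).toLinearMap
  have hπ : ∀ s, π s = 0 ↔ p ∣ s := by
    intro s
    change Ideal.Quotient.mk _ s = 0 ↔ _
    rw [Ideal.Quotient.eq_zero_iff_mem, Ideal.mem_span_singleton]
  have hfd : FiniteDimensional K (homogeneousSubmodule (Fin 3) K i) := by
    change FiniteDimensional K (Pool.Agent.W695.SLP.H K i)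
    infer_instance
  let W : Submodule K (R K ⧸ Ideal.span {p}) := (homogeneousSubmodule (Fin 3) K i).map π
  have hfW : FiniteDimensional K W := inferInstance
  let b := Module.finBasis K W
  have h1 : ∀ q, ∃ e : R K, e.IsHomogeneous i ∧ π e = b q := by
    intro q
    obtain ⟨e, he, h⟩ := (b q).2
    exact ⟨e, he, h⟩
  choose e he heb using h1
  have h2 : ∀ q, ∃ g : (R K ⧸ Ideal.span {p}) →ₗ[K] K, g ∘ₗ W.subtype = b.coord q := fun q =>
    LinearMap.exists_extend (b.coord q)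
  choose g hg using h2
  refine ⟨_, e, fun q => g q ∘ₗ π, he, fun q s hs => ?_, fun s hs => ?_⟩
  · rw [LinearMap.comp_apply, (hπ s).2 hs, map_zero]
  · rw [← hπ, map_sub, map_sum]
    have hsW : π s ∈ W := ⟨s, hs, rfl⟩
    have h3 : ∀ q, π (C ((g q ∘ₗ π) s) * e q) = (b.coord q ⟨π s, hsW⟩) • ((b q : W) : R K ⧸ Ideal.span {p}) := by
      intro q
      rw [← smul_eq_C_mul, map_smul, heb, ← hg q]
      rfl
    rw [Finset.sum_congr rfl fun q _ => h3 q]
    have h4 := b.sum_repr ⟨π s, hsW⟩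
    have h5 := congrArg (fun z : W => (z : R K ⧸ Ideal.span {p})) h4
    simp only [Submodule.coe_sum, Submodule.coe_smul] at h5
    rw [sub_eq_zero]
    exact h5.symm

lemma Ph_XH (e : R K) {i : ℕ} (he : e.IsHomogeneous i) (q : R K) :
    XH i (tt q * C e) := by
  have := (XH.tt q).mul (XH.C he)
  rwa [Nat.zero_add] at this

/-- division by a form `c (t)` modulo `p` -/
lemma div_c [IsAlgClosed K] {p c : R K} (hc : Irreducible c) {i : ℕ}
    {P : RT K} (hx : XH i P) (hv : ∀ t, eval t c = 0 → p ∣ evt t P) :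
    ∃ P' : RT K, XH i P' ∧ (C p : RT K) ∣ P - tt c * P' ∧
      (∀ n, P.IsHomogeneous n → (¬ (C p : RT K) ∣ P) →
        P'.IsHomogeneous (n - c.totalDegree) ∧ c.totalDegree ≤ n ∧ c.IsHomogeneous c.totalDegree) := by
  classical
  obtain ⟨r, e, ϕ, he, hϕ, hdec⟩ := coords p i
  have h1 : ∀ q, c ∣ Ph (ϕ q) P := by
    intro q
    apply dvd_of_zeros hc
    intro t ht
    rw [eval_Ph]
    exact hϕ q _ (hv t ht)
  choose Q hQ using h1
  have hdecP : (C p : RT K) ∣ P - ∑ q, tt (Ph (ϕ q) P) * C (e q) := by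
    rw [C_dvd_iff_dvd_coeff]
    intro m
    have h2 := hdec _ (hx m)
    have h3 : coeff m (P - ∑ q, tt (Ph (ϕ q) P) * C (e q))
        = coeff m P - ∑ q, C (ϕ q (coeff m P)) * e q := by
      rw [coeff_sub, coeff_sum]
      congr 1
      refine Finset.sum_congr rfl fun q _ => ?_
      rw [mul_comm, coeff_C_mul, tt, coeff_map, coeff_Ph, mul_comm]
    rw [h3]
    exact h2
  have hsum : ∑ q, tt (Ph (ϕ q) P) * C (e q) = tt c * ∑ q, tt (Q q) * (C (e q) : RT K) := by
    rw [Finset.mul_sum]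
    refine Finset.sum_congr rfl fun q _ => ?_
    rw [hQ q, map_mul]
    ring
  refine ⟨∑ q, tt (Q q) * C (e q), ?_, ?_, ?_⟩
  · exact XH.sum _ _ fun q _ => Ph_XH _ (he q) _
  · rw [← hsum]
    exact hdecP
  · intro n hn hP0
    obtain ⟨q0, hq0⟩ : ∃ q, Ph (ϕ q) P ≠ 0 := by
      by_contra hcon
      push Not at hcon
      apply hP0
      have : ∑ q, tt (Ph (ϕ q) P) * (C (e q) : RT K) = 0 :=
        Finset.sum_eq_zero fun q _ => by rw [hcon q, map_zero, zero_mul]
      rw [this, sub_zero] at hdecP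
      exact hdecP
    have hPh : ∀ q, (Ph (ϕ q) P).IsHomogeneous n := fun q => Ph_hom _ hn
    have hch : c.IsHomogeneous c.totalDegree :=
      Pool.Agent.Chud.homog_of_dvd (hPh q0) hq0 ⟨_, hQ q0⟩
    have hQh : ∀ q, (Q q).IsHomogeneous (n - c.totalDegree) ∧
        (Ph (ϕ q) P ≠ 0 → c.totalDegree ≤ n) := by
      intro q
      by_cases h0 : Ph (ϕ q) P = 0
      · have : Q q = 0 := by
          have h2 := hQ q
          rw [h0] at h2
          rcases mul_eq_zero.1 h2.symm with h | h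
          · exact absurd h hc.ne_zero
          · exact h
        rw [this]
        exact ⟨isHomogeneous_zero _ _ _, fun h => absurd h0 h⟩
      · have h2 : (Q q).IsHomogeneous (Q q).totalDegree :=
          Pool.Agent.Chud.homog_of_dvd (hPh q) h0 (by rw [hQ q]; exact Dvd.intro_left _ rfl)
        have hQ0 : Q q ≠ 0 := by
          intro h
          apply h0
          rw [hQ q, h, mul_zero]
        have h3 : (Ph (ϕ q) P).totalDegree = n := (hPh q).totalDegree h0
        rw [hQ q, totalDegree_mul_of_isDomain hc.ne_zero hQ0] at h3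
        have h4 : n - c.totalDegree = (Q q).totalDegree := by omega
        rw [h4]
        exact ⟨h2, fun _ => by omega⟩
    refine ⟨?_, (hQh q0).2 hq0, hch⟩
    refine IsHomogeneous.sum _ _ _ fun q _ => ?_
    have h2 := ((hQh q).1.map (C : K →+* R K)).mul (isHomogeneous_C (Fin 3) (e q))
    rwa [add_zero] at h2

section points

variable [CharZero K] [IsAlgClosed K]

omit [CharZero K] in
/-- points of a plane curve outside finitely many given points -/
lemma exists_indep {p : R K} {n : ℕ} (hp : p.IsHomogeneous n) (hn : 0 < n)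
    (Z : Finset (Fin 3 → K)) (hZ : ∀ z ∈ Z, z ≠ 0) :
    ∃ x : Fin 3 → K, x ≠ 0 ∧ eval x p = 0 ∧ ∀ z ∈ Z, ∀ s : K, x ≠ s • z := by
  classical
  have h1 : (∏ z ∈ Z, lf z) * (X 0 : R K) ≠ 0 :=
    mul_ne_zero (Finset.prod_ne_zero_iff.2 fun z hz => lf_ne (hZ z hz)) (X_ne_zero _)
  obtain ⟨y, hy⟩ : ∃ y : Fin 3 → K, eval y ((∏ z ∈ Z, lf z) * (X 0 : R K)) ≠ 0 := by
    by_contra hcon
    push Not at hcon
    apply h1
    apply MvPolynomial.funext
    intro y
    rw [hcon y, map_zero]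
  rw [map_mul, mul_ne_zero_iff, map_prod, Finset.prod_ne_zero_iff, eval_X] at hy
  have hy0 : y ≠ 0 := by
    rintro rfl
    exact hy.2 rfl
  obtain ⟨x, hx0, hxy, hxp⟩ := exists_zero_on_plane hp hn hy0
  refine ⟨x, hx0, hxp, fun z hz s hs => ?_⟩
  have h2 := hy.1 z hz
  rw [eval_lf] at h2
  have h3 : ∑ j, y j * x j = s * ∑ j, z j * y j := by
    rw [hs, Finset.mul_sum]
    exact Finset.sum_congr rfl fun j _ => by simp only [Pi.smul_apply, smul_eq_mul]; ring
  rw [h3] at hxy
  rcases mul_eq_zero.1 hxy with h4 | h4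
  · apply hx0
    rw [hs, h4, zero_smul]
  · exact h2 h4

omit [CharZero K] [IsAlgClosed K] in
lemma lf_smul (s : K) (x : Fin 3 → K) : lf (s • x) = C s * lf x := by
  rw [lf, lf, Finset.mul_sum]
  exact Finset.sum_congr rfl fun j _ => by
    simp only [Pi.smul_apply, smul_eq_mul, C_mul]; ring

omit [CharZero K] [IsAlgClosed K] in
lemma eval_single_lf (x : Fin 3 → K) (j : Fin 3) : eval (Pi.single j 1) (lf x) = x j := by
  rw [eval_lf, Finset.sum_eq_single j]
  · simp
  · intro k _ hk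
    rw [Pi.single_eq_of_ne hk, mul_zero]
  · intro h; exact absurd (Finset.mem_univ j) h

omit [CharZero K] [IsAlgClosed K] in
/-- divisibility of linear forms -/
lemma lf_dvd_lf {x y : Fin 3 → K} (hx : x ≠ 0) (h : lf x ∣ lf y) : ∃ s : K, y = s • x := by
  obtain ⟨q, hq⟩ := h
  by_cases hq0 : q = 0
  · refine ⟨0, ?_⟩
    rw [hq0, mul_zero] at hq
    rw [zero_smul]
    by_contra hy
    exact lf_ne hy hq
  · have hy0 : lf y ≠ 0 := by
      rw [hq]
      exact mul_ne_zero (lf_ne hx) hq0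
    have h1 : (lf y).totalDegree = 1 := (Pool.Agent.W695.SLP.lf_hom y).totalDegree hy0
    have h2 : (lf x).totalDegree = 1 := (Pool.Agent.W695.SLP.lf_hom x).totalDegree (lf_ne hx)
    rw [hq, totalDegree_mul_of_isDomain (lf_ne hx) hq0, h2] at h1
    have h3 : q.totalDegree = 0 := by omega
    rw [totalDegree_eq_zero_iff_eq_C] at h3
    refine ⟨coeff 0 q, ?_⟩
    funext j
    have h4 := congrArg (eval (Pi.single j 1)) hq
    rw [map_mul, eval_single_lf, eval_single_lf, h3, eval_C] at h4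
    rw [Pi.smul_apply, smul_eq_mul, h4, mul_comm]

omit [CharZero K] in
/-- an irreducible polynomial divides at most one linear form up to scalars -/
lemma exists_not_dvd_lf {p c : R K} {n : ℕ} (hp : p.IsHomogeneous n) (hn : 0 < n)
    (hc : Irreducible c) (Z : Finset (Fin 3 → K)) (hZ : ∀ z ∈ Z, z ≠ 0) :
    ∃ x : Fin 3 → K, x ≠ 0 ∧ eval x p = 0 ∧ (∀ z ∈ Z, ∀ s : K, x ≠ s • z) ∧ ¬ c ∣ lf x := by
  classical
  by_cases h : ∃ y : Fin 3 → K, y ≠ 0 ∧ c ∣ lf y
  · obtain ⟨y, hy0, hy⟩ := h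
    obtain ⟨x, hx0, hxp, hx⟩ := exists_indep hp hn (insert y Z) (by
      intro z hz
      rcases Finset.mem_insert.1 hz with rfl | hz
      · exact hy0
      · exact hZ z hz)
    refine ⟨x, hx0, hxp, fun z hz => hx z (Finset.mem_insert_of_mem hz), fun hcx => ?_⟩
    have h1 : Associated c (lf y) := (hc.dvd_irreducible_iff_associated (irreducible_lf hy0)).1 hy
    obtain ⟨s, hs⟩ := lf_dvd_lf hy0 (h1.symm.dvd.trans hcx)
    exact hx y (Finset.mem_insert_self _ _) s hs
  · push Not at h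
    obtain ⟨x, hx0, hxp, hx⟩ := exists_indep hp hn Z hZ
    exact ⟨x, hx0, hxp, hx, h x hx0⟩

end points

end Pool.Agent.H868.TC
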