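import Pool.Agent.H868.TC.Cross

/-!
The generic kernel vector on a component `p = 0` of the curve: removal of the content.
-/

namespace Pool.Agent.H868.TC

open MvPolynomial
open Pool.Agent.Helper15K9.IC
open Pool.Agent.W695.SLP (lf Good)

variable {K : Type*} [Field K]

/-- the relations over a point `x` -/
structure PtRel (N : ℕ) (x : Fin 3 → K) (w g h : K) (u A B θ : R K) (ρ : Fin 3 → R K) : Prop where
  e0 : C w * (u * lf x ^ N) + C h * A + C g * B = 0
  e1 : ∀ k, (lf x * pderiv k u + (N : R K) * (C (x k) * u)) * B - u * lf x * pderiv k B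
      = C h * (θ * C (x k) + ρ k * lf x)
  e2 : ∀ k, (lf x * pderiv k u + (N : R K) * (C (x k) * u)) * A - u * lf x * pderiv k A
      = - (C g * (θ * C (x k) + ρ k * lf x))

lemma pderiv_lf (k : Fin 3) (x : Fin 3 → K) : pderiv k (lf x) = C (x k) := by
  rw [lf, map_sum, Finset.sum_eq_single k]
  · rw [pderiv_C_mul, pderiv_X_self, mul_one]
  · intro j _ hj
    rw [pderiv_C_mul, pderiv_X_of_ne hj, mul_zero]
  · intro h; exact absurd (Finset.mem_univ k) h

/-- the Wronskian -/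
lemma PtRel.wr {N : ℕ} {x : Fin 3 → K} {w g h : K} {u A B θ : R K} {ρ : Fin 3 → R K}
    (P : PtRel N x w g h u A B θ ρ) (hN : 1 ≤ N) (hgh : g ≠ 0 ∨ h ≠ 0) (k : Fin 3) :
    A * pderiv k B - B * pderiv k A
      = C w * (lf x ^ (N - 1) * (θ * C (x k) + ρ k * lf x)) := by
  obtain ⟨n, rfl⟩ : ∃ n, N = n + 1 := ⟨N - 1, by omega⟩
  have h0 := P.e0
  have h1 := P.e1 k
  have h2 := P.e2 k
  have h3 := congrArg (pderiv k) h0
  simp only [map_add, pderiv_mul, pderiv_C, pderiv_pow, pderiv_lf, map_zero, Nat.add_sub_cancel,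
    zero_mul, zero_add] at h3
  simp only [Nat.add_sub_cancel]
  push_cast at h1 h2 h3
  rcases hgh with hg | hh
  · have hg' : (C g : R K) ≠ 0 := C_ne_zero.2 hg
    apply mul_left_cancel₀ hg'
    linear_combination A * h3 - (pderiv k A) * h0 - (C w * lf x ^ n) * h2
  · have hh' : (C h : R K) ≠ 0 := C_ne_zero.2 hh
    apply mul_left_cancel₀ hh'
    linear_combination (pderiv k B) * h0 - B * h3 + (C w * lf x ^ n) * h1

lemma XH.evt {n : ℕ} {P : RT K} (h : XH n P) (t : Fin 3 → K) : (evt t P).IsHomogeneous n := by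
  rw [Pool.Agent.Helper15K9.IC.evt, eval_eq]
  refine IsHomogeneous.sum _ _ _ fun m _ => ?_
  have h1 : (∏ i ∈ m.support, (C (t i) : R K) ^ m i) = C (∏ i ∈ m.support, t i ^ m i) := by
    rw [map_prod]
    exact Finset.prod_congr rfl fun i _ => (C_pow _ _).symm
  rw [h1, mul_comm]
  exact (h m).C_mul _

/-- regularity on the component -/
lemma Dt.regp (D : Dt K) {p : R K} (hpf : p ∣ D.f) {X Y : R K}
    (hX : X.IsHomogeneous (D.b - D.i)) (hY : Y.IsHomogeneous (D.c - D.i))
    (h : p ∣ D.h * X + D.g * Y) : p ∣ X ∧ p ∣ Y := by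
  obtain ⟨r, hr⟩ := hpf
  have hp0 : p ≠ 0 := by
    rintro rfl
    rw [zero_mul] at hr
    exact D.hf0 hr
  have hr0 : r ≠ 0 := by
    rintro rfl
    rw [mul_zero] at hr
    exact D.hf0 hr
  have hpf : p ∣ D.f := ⟨r, hr⟩
  have hph : p.IsHomogeneous p.totalDegree := Pool.Agent.Chud.homog_of_dvd D.hf D.hf0 hpf
  have h1 : D.f ∣ D.h * (r * X) + D.g * (r * Y) := by
    obtain ⟨s, hs⟩ := h
    exact ⟨s, by rw [hr]; linear_combination r * hs⟩
  obtain ⟨κ, h2, h3⟩ := D.hreg _ _ h1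
  have h4 : r ∣ D.g * κ := by
    have h5 : r ∣ r * X + D.g * κ := (Dvd.intro_left _ hr.symm).trans h3
    exact (dvd_add_right (Dvd.intro _ rfl)).1 h5
  have h5 : r ∣ κ := by
    obtain ⟨s, hs⟩ := h4
    have h6 : D.f ∣ D.g * (p * κ) := ⟨s, by rw [hr]; linear_combination p * hs⟩
    have h7 := D.hcg _ h6
    rw [hr] at h7
    exact (mul_dvd_mul_iff_left hp0).1 h7
  obtain ⟨κ', rfl⟩ := h5
  have h6 : p ∣ Y - D.h * κ' := by
    rw [hr] at h2
    have h7 : r * Y - D.h * (r * κ') = r * (Y - D.h * κ') := by ring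
    rw [h7, mul_comm p] at h2
    exact (mul_dvd_mul_iff_left hr0).1 h2
  have h7 : p ∣ X + D.g * κ' := by
    rw [hr] at h3
    have h8 : r * X + D.g * (r * κ') = r * (X + D.g * κ') := by ring
    rw [h8, mul_comm p] at h3
    exact (mul_dvd_mul_iff_left hr0).1 h3
  have hi := D.hi
  have hib := D.hib
  have hic := D.hic
  constructor
  · obtain ⟨q, hq⟩ := h7
    have h8 := congrArg (homogeneousComponent (D.b - D.i)) hq
    rw [map_add, Pool.Agent.TH61.SL.comp_self hX, mul_comm D.g, Pool.Agent.TH61.SL.comp_mul D.hg,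
      Pool.Agent.TH61.SL.hc_zero (by omega), zero_mul, add_zero, mul_comm p,
      Pool.Agent.TH61.SL.comp_mul hph] at h8
    exact ⟨_, by rw [h8, mul_comm]⟩
  · obtain ⟨q, hq⟩ := h6
    have h8 := congrArg (homogeneousComponent (D.c - D.i)) hq
    rw [map_sub, Pool.Agent.TH61.SL.comp_self hY, mul_comm D.h, Pool.Agent.TH61.SL.comp_mul D.hh,
      Pool.Agent.TH61.SL.hc_zero (by omega), zero_mul, sub_zero, mul_comm p,
      Pool.Agent.TH61.SL.comp_mul hph] at h8
    exact ⟨_, by rw [h8, mul_comm]⟩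

/-- the data on the component `p` -/
structure CD (D : Dt K) (S : Sz D) (p : R K) (e : ℕ) where
  (U A B : RT K)
  (θ H : R K)
  (ρ : Fin 3 → R K)
  hUx : XH D.i U
  hUt : U.IsHomogeneous e
  hAx : XH (D.b - D.i) A
  hBx : XH (D.c - D.i) B
  hU0 : ¬ (C p : RT K) ∣ U
  hrel : ∀ x : Fin 3 → K, eval x p = 0 →
    PtRel D.N x (eval x D.w) (eval x D.g) (eval x D.h) (evx x U) (evx x A) (evx x B) θ ρ
  heul : ∑ k, X k * ρ k = -θ
  hθ : S.θ = H ^ 2 * θ
  hρ : ∀ k, S.ρ k = H ^ 2 * ρ k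
  hu : ∀ x : Fin 3 → K, eval x p = 0 → evx x D.u = H * evx x U
  ha : ∀ x : Fin 3 → K, eval x p = 0 → evx x S.A = H * evx x A
  hb : ∀ x : Fin 3 → K, eval x p = 0 → evx x S.B = H * evx x B
  hH : H ≠ 0

/-- the data before the removal of the content -/
noncomputable def CD.start (D : Dt K) (S : Sz D) {p : R K} (hpu : ¬ (C p : RT K) ∣ D.u)
    (hpf : p ∣ D.f) : CD D S p D.d where
  U := D.u
  A := S.A
  B := S.B
  θ := S.θ
  H := 1
  ρ := S.ρ
  hUx := D.hux
  hUt := D.hut
  hAx := S.hAx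
  hBx := S.hBx
  hU0 := hpu
  hrel := by
    intro x hx
    have hxf : eval x D.f = 0 := by
      obtain ⟨r, hr⟩ := hpf
      rw [hr, map_mul, hx, zero_mul]
    obtain ⟨h0, h1, h2⟩ := over_x D S hxf
    exact ⟨h0, h1, h2⟩
  heul := S.heul
  hθ := by rw [one_pow, one_mul]
  hρ := fun k => by rw [one_pow, one_mul]
  hu := fun x _ => by rw [one_mul]
  ha := fun x _ => by rw [one_mul]
  hb := fun x _ => by rw [one_mul]
  hH := one_ne_zero

lemma exists_minor {x y : Fin 3 → K} (hy : y ≠ 0) (h : ∀ s : K, x ≠ s • y) :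
    ∃ j k, x j * y k - x k * y j ≠ 0 := by
  by_contra hcon
  push Not at hcon
  obtain ⟨m, hm⟩ := Function.ne_iff.mp hy
  rw [Pi.zero_apply] at hm
  apply h (x m / y m)
  funext j
  have h1 := hcon j m
  rw [Pi.smul_apply, smul_eq_mul]
  field_simp
  linear_combination h1

/-- a functional vanishing at `y` but not at `x` -/
lemma exists_sep {x y : Fin 3 → K} (hy : y ≠ 0) (h : ∀ s : K, x ≠ s • y) :
    ∃ w : Fin 3 → K, ∑ j, w j * y j = 0 ∧ ∑ j, w j * x j ≠ 0 := by
  classical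
  obtain ⟨j, k, hjk⟩ := exists_minor hy h
  have hne : j ≠ k := by
    rintro rfl
    exact hjk (sub_self _)
  have key : ∀ z : Fin 3 → K, ∑ l, (Pi.single j (y k) - Pi.single k (y j) : Fin 3 → K) l * z l
      = y k * z j - y j * z k := by
    intro z
    simp only [Pi.sub_apply, sub_mul, Finset.sum_sub_distrib]
    rw [Finset.sum_eq_single j, Finset.sum_eq_single k]
    · simp
    · intro l _ hl
      rw [Pi.single_eq_of_ne hl, zero_mul]
    · intro h; exact absurd (Finset.mem_univ _) h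
    · intro l _ hl
      rw [Pi.single_eq_of_ne hl, zero_mul]
    · intro h; exact absurd (Finset.mem_univ _) h
  refine ⟨Pi.single j (y k) - Pi.single k (y j), ?_, ?_⟩
  · rw [key]; ring
  · rw [key]
    intro h
    apply hjk
    linear_combination h

/-- a vector whose products with the vectors orthogonal to two independent points are divisible by
`P` is divisible by `P` -/
lemma dvd_of_two {P : R K} {ρ : Fin 3 → R K} {x y : Fin 3 → K} (hy : y ≠ 0)
    (h : ∀ s : K, x ≠ s • y)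
    (hx1 : ∀ v : Fin 3 → K, ∑ j, v j * x j = 0 → P ∣ ∑ j, C (v j) * ρ j)
    (hy1 : ∀ v : Fin 3 → K, ∑ j, v j * y j = 0 → P ∣ ∑ j, C (v j) * ρ j) (k : Fin 3) :
    P ∣ ρ k := by
  classical
  obtain ⟨w, hwy, hwx⟩ := exists_sep hy h
  obtain ⟨a, ha⟩ : ∃ a : K, a * ∑ j, w j * x j = x k := ⟨x k / ∑ j, w j * x j, div_mul_cancel₀ _ hwx⟩
  have h1 := hx1 (fun j => (Pi.single k 1 : Fin 3 → K) j - a * w j) (by
    simp only [sub_mul, Finset.sum_sub_distrib]
    have e1 : ∑ j, (Pi.single k 1 : Fin 3 → K) j * x j = x k := by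
      rw [Finset.sum_eq_single k]
      · simp
      · intro l _ hl
        rw [Pi.single_eq_of_ne hl, zero_mul]
      · intro h; exact absurd (Finset.mem_univ _) h
    have e2 : ∑ j, a * w j * x j = x k := by
      rw [← ha, Finset.mul_sum]
      exact Finset.sum_congr rfl fun j _ => by ring
    rw [e1, e2, sub_self])
  have h2 := hy1 (fun j => a * w j) (by
    have e2 : ∑ j, a * w j * y j = a * ∑ j, w j * y j := by
      rw [Finset.mul_sum]
      exact Finset.sum_congr rfl fun j _ => by ring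
    rw [e2, hwy, mul_zero])
  have h3 : ρ k = (∑ j, C ((Pi.single k 1 : Fin 3 → K) j - a * w j) * ρ j)
      + ∑ j, C (a * w j) * ρ j := by
    rw [← Finset.sum_add_distrib]
    have : ∀ j, C ((Pi.single k 1 : Fin 3 → K) j - a * w j) * ρ j + C (a * w j) * ρ j
        = C ((Pi.single k 1 : Fin 3 → K) j) * ρ j := by
      intro j
      rw [C_sub]; ring
    rw [Finset.sum_congr rfl fun j _ => this j, Finset.sum_eq_single k]
    · simp
    · intro l _ hl
      rw [Pi.single_eq_of_ne hl, C_0, zero_mul]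
    · intro h; exact absurd (Finset.mem_univ _) h
  rw [h3]
  exact dvd_add h1 h2

end Pool.Agent.H868.TC
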