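import Pool.Agent.H868.TC.Comp

/-!
Along a component of the discriminant `θ = 0` the vector `ρ` is parallel to the gradient; the relations
over the points of the cubic.
-/

namespace Pool.Agent.H868.TC

open MvPolynomial
open Pool.Agent.Helper15K9.IC
open Pool.Agent.W695.SLP (lf Good)

variable {K : Type*} [Field K]

/-- a polynomial vanishing at the lines contained in the cubic -/
lemma exists_E [CharZero K] [IsAlgClosed K] {f c : R K} (hf : f ≠ 0) (hc : Irreducible c) :
    ∃ E : R K, ¬ c ∣ E ∧ ∀ t : Fin 3 → K, t ≠ 0 → lf t ∣ f → eval t E = 0 := by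
  classical
  have h1 : ∀ π : R K, ∃ e : R K, ¬ c ∣ e ∧ ∀ t : Fin 3 → K, t ≠ 0 → Associated (lf t) π →
      eval t e = 0 := by
    intro π
    by_cases h : ∃ t : Fin 3 → K, t ≠ 0 ∧ Associated (lf t) π
    · obtain ⟨t, ht0, ht⟩ := h
      obtain ⟨v, w, hv, hw, hcr⟩ := exists_plane ht0
      have key : ∀ y : Fin 3 → K, ∑ j, t j * y j = 0 → ∀ t' : Fin 3 → K, t' ≠ 0 →
          Associated (lf t') π → eval t' (lf y) = 0 := by
        intro y hy t' ht'0 ht'
        obtain ⟨s, hs⟩ := lf_dvd_lf ht0 (ht.trans ht'.symm).dvd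
        rw [eval_lf, hs]
        have : ∑ j, y j * (s • t) j = s * ∑ j, t j * y j := by
          rw [Finset.mul_sum]
          exact Finset.sum_congr rfl fun j _ => by simp only [Pi.smul_apply, smul_eq_mul]; ring
        rw [this, hy, mul_zero]
      have h2 : ¬ c ∣ lf v ∨ ¬ c ∣ lf w := by
        by_contra hcon
        push Not at hcon
        have hv0 : v ≠ 0 := by
          rintro rfl
          have h3 : w = 0 := hcr w (fun j k => by simp) (fun j k => by ring)
          have h4 : (fun _ => (1 : K)) = (0 : Fin 3 → K) :=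
            hcr _ (fun j k => by simp) (fun j k => by rw [h3]; simp)
          exact one_ne_zero (congrFun h4 0)
        have hw0 : w ≠ 0 := by
          rintro rfl
          exact hv0 (hcr v (fun j k => by ring) (fun j k => by simp))
        have h5 : Associated c (lf v) :=
          (hc.dvd_irreducible_iff_associated (irreducible_lf hv0)).1 hcon.1
        obtain ⟨s, hs⟩ := lf_dvd_lf hv0 (h5.symm.dvd.trans hcon.2)
        apply hw0
        apply hcr
        · intro j k
          rw [hs]
          simp only [Pi.smul_apply, smul_eq_mul]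
          ring
        · intro j k
          ring
      rcases h2 with h2 | h2
      · exact ⟨lf v, h2, key v hv⟩
      · exact ⟨lf w, h2, key w hw⟩
    · push Not at h
      exact ⟨1, fun h1 => hc.not_isUnit (isUnit_of_dvd_one h1), fun t ht h' => absurd h' (h t ht)⟩
  choose e he1 he2 using h1
  refine ⟨((UniqueFactorizationMonoid.factors f).map e).prod, ?_, ?_⟩
  · intro h
    obtain ⟨π, _, h2⟩ := hc.prime.exists_mem_multiset_map_dvd h
    exact he1 π h2
  · intro t ht htf
    have h2 : lf t ∣ (UniqueFactorizationMonoid.factors f).prod :=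
      htf.trans (UniqueFactorizationMonoid.factors_prod hf).symm.dvd
    have hlt := irreducible_lf ht
    obtain ⟨π, hπ, h3⟩ := hlt.prime.exists_mem_multiset_dvd h2
    have h4 := (hlt.dvd_irreducible_iff_associated
      (UniqueFactorizationMonoid.irreducible_of_factor π hπ)).1 h3
    obtain ⟨q, hq⟩ := Multiset.dvd_prod (Multiset.mem_map_of_mem e hπ)
    rw [hq, map_mul, he2 π t ht h4, zero_mul]

/-- along a component of the discriminant, `ρ` is parallel to the gradient -/
lemma cross [CharZero K] [IsAlgClosed K] (D : Dt K) (S : Sz D) {c : R K}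
    (hc : Irreducible c) (hcθ : c ∣ S.θ) (j k : Fin 3) :
    c ∣ S.ρ j * pderiv k c - S.ρ k * pderiv j c := by
  have hN0 : (D.N : K) ≠ 0 := Nat.cast_ne_zero.2 (by have := D.hN; omega)
  obtain ⟨E, hE, hE0⟩ := exists_E D.hf0 hc
  obtain ⟨θ', hθ'⟩ := hcθ
  have h1 : ∀ m : Fin 3, c ∣ X m * (E * (S.ρ j * pderiv k c - S.ρ k * pderiv j c)) := by
    intro m
    apply dvd_of_zeros hc
    intro t ht
    by_cases ht0 : t = 0
    · rw [map_mul, eval_X, ht0, Pi.zero_apply, zero_mul]
    by_cases htf : lf t ∣ D.f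
    · rw [map_mul, map_mul, hE0 t ht0 htf, zero_mul, mul_zero]
    have h2 : ∀ k, eval t (pderiv k S.θ) = eval t (pderiv k c) * eval t θ' := by
      intro k
      rw [hθ', pderiv_mul, map_add, map_mul, map_mul, ht, zero_mul, add_zero]
    have h3 := grad D S t ht0 htf (by rw [hθ', map_mul, ht, zero_mul])
    simp only [h2] at h3
    have h4 : (D.N : K) * eval t (S.ρ j * pderiv k c - S.ρ k * pderiv j c) = 0 := by
      rw [map_sub, map_mul, map_mul]
      rcases h3 with h3 | h3
      · linear_combination (-(eval t (pderiv k c))) * h3 j + (eval t (pderiv j c)) * h3 k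
      · linear_combination (eval t (pderiv k c)) * h3 j - (eval t (pderiv j c)) * h3 k
    rw [map_mul, map_mul, (mul_eq_zero.1 h4).resolve_left hN0, mul_zero, mul_zero]
  by_contra hcon
  refine not_dvd_X hc fun m => ?_
  refine (hc.prime.dvd_or_dvd (h1 m)).resolve_right fun h => ?_
  rcases hc.prime.dvd_or_dvd h with h | h
  · exact hE h
  · exact hcon h

/-- if the discriminant vanishes, so does `ρ` -/
lemma rho_zero [CharZero K] [IsAlgClosed K] (D : Dt K) (S : Sz D) (hθ : S.θ = 0) (k : Fin 3) :
    S.ρ k = 0 := by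
  have hN0 : (D.N : K) ≠ 0 := Nat.cast_ne_zero.2 (by have := D.hN; omega)
  obtain ⟨E, hE, hE0⟩ := exists_E D.hf0 (X_prime (R := K) (i := (0 : Fin 3))).irreducible
  have hEne : E ≠ 0 := by
    rintro rfl
    exact hE (dvd_zero _)
  have h1 : (X 0 : R K) * (E * S.ρ k) = 0 := by
    apply MvPolynomial.funext
    intro t
    rw [map_zero]
    by_cases ht0 : t = 0
    · rw [map_mul, eval_X, ht0, Pi.zero_apply, zero_mul]
    by_cases htf : lf t ∣ D.f
    · rw [map_mul, map_mul, hE0 t ht0 htf, zero_mul, mul_zero]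
    have h2 := grad D S t ht0 htf (by rw [hθ, map_zero])
    rw [hθ] at h2
    simp only [map_zero] at h2
    have h3 : eval t (S.ρ k) = 0 := by
      rcases h2 with h2 | h2
      · exact (mul_eq_zero.1 (h2 k).symm).resolve_left hN0
      · exact (mul_eq_zero.1 (neg_eq_zero.1 (h2 k).symm)).resolve_left hN0
    rw [map_mul, map_mul, h3, mul_zero, mul_zero]
  have h2 := (mul_eq_zero.1 h1).resolve_left (X_ne_zero _)
  exact (mul_eq_zero.1 h2).resolve_left hEne

/-- the values of the relations over a point `x` of the cubic -/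
lemma over_x (D : Dt K) (S : Sz D) {x : Fin 3 → K} (hx : eval x D.f = 0) :
    (C (eval x D.w) * (evx x D.u * lf x ^ D.N) + C (eval x D.h) * evx x S.A
      + C (eval x D.g) * evx x S.B = 0) ∧
    (∀ k, (lf x * pderiv k (evx x D.u) + (D.N : R K) * (C (x k) * evx x D.u)) * evx x S.B
      - evx x D.u * lf x * pderiv k (evx x S.B)
      = C (eval x D.h) * (S.θ * C (x k) + S.ρ k * lf x)) ∧
    (∀ k, (lf x * pderiv k (evx x D.u) + (D.N : R K) * (C (x k) * evx x D.u)) * evx x S.A
      - evx x D.u * lf x * pderiv k (evx x S.A)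
      = - (C (eval x D.g) * (S.θ * C (x k) + S.ρ k * lf x))) := by
  have h0 : ∀ {P : RT K}, (C D.f : RT K) ∣ P → evx x P = 0 := by
    rintro P ⟨Q, rfl⟩
    rw [map_mul, evx_C, hx, C_0, zero_mul]
  refine ⟨?_, fun k => ?_, fun k => ?_⟩
  · have h1 := h0 S.hP0
    simp only [map_add, map_mul, map_pow, evx_C, evx_gl] at h1
    exact h1
  · have h1 := h0 (S.hE1 k)
    simp only [map_sub, map_add, map_mul, evx_C, evx_gl, evx_tt, evx_pderiv, map_natCast,
      eval_X] at h1
    exact sub_eq_zero.1 h1
  · have h1 := h0 (S.hE2 k)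
    simp only [map_sub, map_add, map_mul, evx_C, evx_gl, evx_tt, evx_pderiv, map_natCast,
      eval_X] at h1
    exact eq_neg_of_add_eq_zero_left h1

lemma gh_ne (D : Dt K) {x : Fin 3 → K} (hx0 : x ≠ 0) (hx : eval x D.f = 0) :
    eval x D.g ≠ 0 ∨ eval x D.h ≠ 0 := by
  by_contra hcon
  push Not at hcon
  apply hx0
  funext j
  obtain ⟨a, b, c, h⟩ := Submodule.mem_span_triple.1 (D.hM j)
  have h1 := congrArg (eval x) h
  simp only [smul_eq_mul, map_add, map_mul, map_pow, eval_X, hx, hcon.1, hcon.2, mul_zero,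
    add_zero] at h1
  exact eq_zero_of_pow_eq_zero h1.symm

end Pool.Agent.H868.TC
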