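import Pool.Agent.H868.TC.Par

/-!
The parallelism for the square of an irreducible form.
-/

namespace Pool.Agent.H868.TC

open MvPolynomial
open Pool.Agent.Helper15K9.IC
open Pool.Agent.W695.SLP (lf Good)

variable {K : Type*} [Field K]

/-- the Wronskian modulo `q` -/
lemma wr_mod {q g h w : R K} (hcg : ∀ P : RT K, (C q : RT K) ∣ C g * P → (C q : RT K) ∣ P)
    {u A B T : RT K} {N : ℕ} (hN : 1 ≤ N) (k : Fin 3)
    (h0 : (C q : RT K) ∣ C w * (u * gl K ^ N) + C h * A + C g * B)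
    (h2 : (C q : RT K) ∣ (gl K * pderiv k u + (N : RT K) * (C (X k) * u)) * A
      - u * gl K * pderiv k A + C g * T) :
    (C q : RT K) ∣ A * pderiv k B - B * pderiv k A - C w * (gl K ^ (N - 1) * T) := by
  obtain ⟨n, rfl⟩ : ∃ n, N = n + 1 := ⟨N - 1, by omega⟩
  have h3 := pderiv_dvd k h0
  apply hcg
  have e : C g * (A * pderiv k B - B * pderiv k A - C w * (gl K ^ (n + 1 - 1) * T))
      = A * pderiv k (C w * (u * gl K ^ (n + 1)) + C h * A + C g * B)
        - pderiv k A * (C w * (u * gl K ^ (n + 1)) + C h * A + C g * B)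
        - C w * gl K ^ n * ((gl K * pderiv k u + ((n + 1 : ℕ) : RT K) * (C (X k) * u)) * A
          - u * gl K * pderiv k A + C g * T) := by
    simp only [map_add, pderiv_mul, pderiv_C, pderiv_pow, pderiv_gl, Nat.add_sub_cancel]
    push_cast
    ring
  rw [e]
  exact dvd_sub (dvd_sub (h3.mul_left _) (h0.mul_left _)) (h2.mul_left _)

/-- the computation along a component dividing the content -/
lemma dbl_alg [CharZero K] [IsAlgClosed K] {c H H₁ A' B' A₁ B₁ : R K} {e : Fin 3 → R K} {s : ℕ}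
    (hc : Irreducible c) (hH : H = c ^ (s + 1) * H₁) (hH₁ : ¬ c ∣ H₁)
    (h : ∀ k, H ^ 2 * e k + H * (A' * pderiv k B₁ - B' * pderiv k A₁ + A₁ * pderiv k B'
      - B₁ * pderiv k A') + pderiv k H * (A₁ * B' - B₁ * A') = 0) (j k : Fin 3) :
    c ∣ A₁ * ((A' * pderiv j B' - B' * pderiv j A') * pderiv k c
      - (A' * pderiv k B' - B' * pderiv k A') * pderiv j c) ∧
    c ∣ B₁ * ((A' * pderiv j B' - B' * pderiv j A') * pderiv k c
      - (A' * pderiv k B' - B' * pderiv k A') * pderiv j c) := by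
  have hp := hc.prime
  have hc0 := hc.ne_zero
  obtain ⟨δ, hδ⟩ : ∃ δ, δ = A' * B₁ - B' * A₁ := ⟨_, rfl⟩
  have hdH : ∀ k, pderiv k H = c ^ s * (((s : R K) + 1) * pderiv k c * H₁ + c * pderiv k H₁) := by
    intro k
    rw [hH, pderiv_mul, pderiv_pow]
    simp only [Nat.add_sub_cancel]
    push_cast
    ring
  have h1 : ∀ k, c ^ (s + 2) * H₁ ^ 2 * e k + c * H₁ * (A' * pderiv k B₁ - B' * pderiv k A₁
      + A₁ * pderiv k B' - B₁ * pderiv k A')
      - (((s : R K) + 1) * pderiv k c * H₁ + c * pderiv k H₁) * δ = 0 := by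
    intro k
    have h2 := h k
    rw [hdH k, hH] at h2
    apply mul_left_cancel₀ (pow_ne_zero s hc0)
    rw [mul_zero, ← h2, hδ]
    ring
  have hs1 : IsUnit ((s : R K) + 1) := by
    have : ((s : R K) + 1) = C ((s : K) + 1) := by
      rw [C_add, C_1, map_natCast]
    rw [this]
    exact IsUnit.map _ (isUnit_iff_ne_zero.mpr (Nat.cast_add_one_ne_zero s))
  have h2u : IsUnit (2 : R K) := by
    have : (2 : R K) = C (2 : K) := by
      rw [map_ofNat]
    rw [this]
    exact IsUnit.map _ (isUnit_iff_ne_zero.mpr two_ne_zero)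
  have hδc : c ∣ δ := by
    obtain ⟨k, hk⟩ := CR.exists_pderiv hc
    have h3 : c ∣ ((s : R K) + 1) * (pderiv k c * (H₁ * δ)) := by
      refine ⟨c ^ (s + 1) * H₁ ^ 2 * e k + H₁ * (A' * pderiv k B₁ - B' * pderiv k A₁
        + A₁ * pderiv k B' - B₁ * pderiv k A') - pderiv k H₁ * δ, ?_⟩
      linear_combination (-1 : R K) * h1 k
    rcases hp.dvd_or_dvd h3 with h4 | h4
    · exact absurd (isUnit_of_dvd_unit h4 hs1) hp.not_isUnit
    · rcases hp.dvd_or_dvd h4 with h5 | h5
      · exact absurd h5 hk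
      · rcases hp.dvd_or_dvd h5 with h6 | h6
        · exact absurd h6 hH₁
        · exact h6
  obtain ⟨δ', hδ'⟩ := hδc
  have hP : ∀ k, c ∣ 2 * (A₁ * pderiv k B' - B₁ * pderiv k A') - (s : R K) * δ' * pderiv k c := by
    intro k
    have h3 : c * (c ^ (s + 1) * H₁ ^ 2 * e k + H₁ * (A' * pderiv k B₁ - B' * pderiv k A₁
        + A₁ * pderiv k B' - B₁ * pderiv k A')
        - (((s : R K) + 1) * pderiv k c * H₁ + c * pderiv k H₁) * δ') = 0 := by
      rw [← h1 k, hδ']
      ring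
    have h4 := (mul_eq_zero.1 h3).resolve_left hc0
    have h5 : pderiv k δ = pderiv k c * δ' + c * pderiv k δ' := by
      rw [hδ', pderiv_mul]
    have h6 : A' * pderiv k B₁ - B' * pderiv k A₁ + A₁ * pderiv k B' - B₁ * pderiv k A'
        = pderiv k δ + 2 * (A₁ * pderiv k B' - B₁ * pderiv k A') := by
      rw [hδ, map_sub, pderiv_mul, pderiv_mul]
      ring
    rw [h6, h5] at h4
    have h7 : c ∣ H₁ * (2 * (A₁ * pderiv k B' - B₁ * pderiv k A')
        - (s : R K) * δ' * pderiv k c) := by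
      refine ⟨pderiv k H₁ * δ' - c ^ s * H₁ ^ 2 * e k - H₁ * pderiv k δ', ?_⟩
      linear_combination h4
    exact (hp.dvd_or_dvd h7).resolve_left hH₁
  have hPP : c ∣ (A₁ * pderiv j B' - B₁ * pderiv j A') * pderiv k c
      - (A₁ * pderiv k B' - B₁ * pderiv k A') * pderiv j c := by
    rw [← h2u.dvd_mul_left]
    have h3 := dvd_sub ((hP j).mul_right (pderiv k c)) ((hP k).mul_right (pderiv j c))
    refine h3.trans (dvd_of_eq ?_)
    ring
  constructor
  · have e1 : A₁ * ((A' * pderiv j B' - B' * pderiv j A') * pderiv k c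
        - (A' * pderiv k B' - B' * pderiv k A') * pderiv j c)
        = A' * ((A₁ * pderiv j B' - B₁ * pderiv j A') * pderiv k c
          - (A₁ * pderiv k B' - B₁ * pderiv k A') * pderiv j c)
          + δ * (pderiv j A' * pderiv k c - pderiv k A' * pderiv j c) := by
      rw [hδ]; ring
    rw [e1, hδ']
    exact dvd_add (hPP.mul_left _) ⟨δ' * (pderiv j A' * pderiv k c - pderiv k A' * pderiv j c),
      by ring⟩
  · have e1 : B₁ * ((A' * pderiv j B' - B' * pderiv j A') * pderiv k c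
        - (A' * pderiv k B' - B' * pderiv k A') * pderiv j c)
        = B' * ((A₁ * pderiv j B' - B₁ * pderiv j A') * pderiv k c
          - (A₁ * pderiv k B' - B₁ * pderiv k A') * pderiv j c)
          + δ * (pderiv j B' * pderiv k c - pderiv k B' * pderiv j c) := by
      rw [hδ]; ring
    rw [e1, hδ']
    exact dvd_add (hPP.mul_left _) ⟨δ' * (pderiv j B' * pderiv k c - pderiv k B' * pderiv j c),
      by ring⟩

lemma evt_zero_of [Infinite K] {P : RT K} {d : ℕ} (hP : P.IsHomogeneous d) (hd : 0 < d) :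
    evt (0 : Fin 3 → K) P = 0 := by
  have h2 : ∀ x : Fin 3 → K, eval x (evt (0 : Fin 3 → K) P) = 0 := by
    intro x
    rw [← eval_evx]
    have h3 : (evx x P).IsHomogeneous d := hP.map _
    have h4 := eval_smul_hom h3 0 (0 : Fin 3 → K)
    rw [zero_smul, zero_pow (by omega), zero_mul] at h4
    exact h4
  apply MvPolynomial.funext
  intro x
  rw [h2, map_zero]

/-- parallelism for the square of an irreducible form -/
lemma CD.star_dbl [CharZero K] [IsAlgClosed K] {D : Dt K} {S : Sz D} {p : R K}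
    (hp : Irreducible p) (hpp : D.f = p * p) (hp2 : ∀ y : Fin 3 → K, y ≠ 0 → ¬ p ∣ lf y)
    (hwp : ¬ p ∣ D.w) {e : ℕ} (F : CD D S p e)
    {c : R K} (hc : Irreducible c) (hcθ : c ∣ F.θ) (hcH : c ∣ F.H) (j k : Fin 3) :
    c ∣ F.ρ j * pderiv k c - F.ρ k * pderiv j c := by
  classical
  by_contra hcross
  have hp0 := hp.ne_zero
  have hN := D.hN
  have hCp0 : (C p : RT K) ≠ 0 := C_ne_zero.2 hp0
  have hgp : ∀ P : RT K, (C p : RT K) ∣ C D.g * P → (C p : RT K) ∣ P := by
    intro P hP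
    have h1 : (C D.f : RT K) ∣ C D.g * (C p * P) := by
      obtain ⟨q, hq⟩ := hP
      refine ⟨q, ?_⟩
      rw [hpp, C_mul]
      linear_combination (C p) * hq
    have h2 := D.g_cancel h1
    rw [hpp, C_mul] at h2
    exact (mul_dvd_mul_iff_left hCp0).1 h2
  obtain ⟨A₁, hA₁⟩ : ∃ A₁, S.A = tt F.H * F.A + C p * A₁ := by
    have h1 : (C p : RT K) ∣ S.A - tt F.H * F.A := by
      apply C_dvd_of_evx hp
      intro x hx
      rw [map_sub, map_mul, evx_tt, F.ha x hx, sub_self]
    obtain ⟨q, hq⟩ := h1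
    exact ⟨q, by linear_combination hq⟩
  obtain ⟨B₁, hB₁⟩ : ∃ B₁, S.B = tt F.H * F.B + C p * B₁ := by
    have h1 : (C p : RT K) ∣ S.B - tt F.H * F.B := by
      apply C_dvd_of_evx hp
      intro x hx
      rw [map_sub, map_mul, evx_tt, F.hb x hx, sub_self]
    obtain ⟨q, hq⟩ := h1
    exact ⟨q, by linear_combination hq⟩
  -- the two Wronskians
  have hW : ∀ k, (C D.f : RT K) ∣ S.A * pderiv k S.B - S.B * pderiv k S.A
      - C D.w * (gl K ^ (D.N - 1) * (tt S.θ * C (X k) + tt (S.ρ k) * gl K)) := fun k =>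
    wr_mod (fun P => D.g_cancel) hN k S.hP0 (S.hE2 k)
  have hW' : ∀ k, (C p : RT K) ∣ F.A * pderiv k F.B - F.B * pderiv k F.A
      - C D.w * (gl K ^ (D.N - 1) * (tt F.θ * C (X k) + tt (F.ρ k) * gl K)) := by
    intro k
    refine wr_mod hgp (u := F.U) (h := D.h) hN k ?_ ?_
    · apply C_dvd_of_evx hp
      intro x hx
      simp only [map_add, map_mul, map_pow, evx_C, evx_gl]
      exact (F.hrel x hx).e0
    · apply C_dvd_of_evx hp
      intro x hx
      simp only [map_sub, map_add, map_mul, evx_C, evx_gl, evx_tt, evx_pderiv, map_natCast,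
        eval_X]
      rw [(F.hrel x hx).e2 k]
      ring
  choose E hE using hW'
  have hkey : ∀ k, (C p : RT K) ∣ tt F.H ^ 2 * E k + tt F.H * (F.A * pderiv k B₁
      - F.B * pderiv k A₁ + A₁ * pderiv k F.B - B₁ * pderiv k F.A)
      + tt (pderiv k F.H) * (A₁ * F.B - B₁ * F.A) := by
    intro k
    obtain ⟨q, hq⟩ := hW k
    have h1 : C p * (tt F.H ^ 2 * E k + tt F.H * (F.A * pderiv k B₁
      - F.B * pderiv k A₁ + A₁ * pderiv k F.B - B₁ * pderiv k F.A)
      + tt (pderiv k F.H) * (A₁ * F.B - B₁ * F.A))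
      = C p * (C p * (q - (A₁ * pderiv k B₁ - B₁ * pderiv k A₁))) := by
      have h2 := hE k
      rw [hA₁, hB₁, F.hθ, F.hρ k, hpp] at hq
      simp only [map_add, pderiv_mul, pderiv_C, zero_mul, zero_add, tt_pderiv, map_mul,
        map_pow] at hq h2
      linear_combination hq - (tt F.H ^ 2) * h2
    have h3 := mul_left_cancel₀ hCp0 h1
    exact ⟨_, h3⟩
  -- over the points
  obtain ⟨n, H₁, hH₁, hn⟩ := WfDvdMonoid.max_power_factor F.hH hc
  obtain ⟨s, rfl⟩ : ∃ s, n = s + 1 := by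
    refine ⟨n - 1, ?_⟩
    have : n ≠ 0 := by
      rintro rfl
      rw [pow_zero, one_mul] at hn
      rw [hn] at hcH
      exact hH₁ hcH
    omega
  obtain ⟨t2, ht2c, ht2⟩ := D.hmin c hc
  have ht20 : t2 ≠ 0 := by
    rintro rfl
    apply ht2
    rw [evt_zero_of D.hut D.hd, mul_zero]
    exact Ideal.zero_mem _
  have hpt : ∀ x : Fin 3 → K, eval x p = 0 → eval x D.w ≠ 0 → eval x (lf t2) ≠ 0 →
      c ∣ evx x A₁ ∧ c ∣ evx x B₁ := by
    intro x hx hw hl
    have hcl : ¬ c ∣ lf x := by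
      rintro ⟨q, hq⟩
      have h1 := congrArg (eval t2) hq
      rw [map_mul, ht2c, zero_mul, lf_symm] at h1
      exact hl h1
    have h1 : ∀ k, F.H ^ 2 * evx x (E k) + F.H * (evx x F.A * pderiv k (evx x B₁)
        - evx x F.B * pderiv k (evx x A₁) + evx x A₁ * pderiv k (evx x F.B)
        - evx x B₁ * pderiv k (evx x F.A))
        + pderiv k F.H * (evx x A₁ * evx x F.B - evx x B₁ * evx x F.A) = 0 := by
      intro k
      have h2 := evx_zero (hkey k) hx
      simp only [map_add, map_sub, map_mul, map_pow, evx_tt, evx_pderiv] at h2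
      exact h2
    have h2 := dbl_alg (A' := evx x F.A) (B' := evx x F.B) (A₁ := evx x A₁) (B₁ := evx x B₁)
      (e := fun k => evx x (E k)) hc hn hH₁ h1 j k
    have hwr : ∀ k, evx x F.A * pderiv k (evx x F.B) - evx x F.B * pderiv k (evx x F.A)
        = C (eval x D.w) * (lf x ^ (D.N - 1) * (F.θ * C (x k) + F.ρ k * lf x)) := by
      intro k
      have h3 := evx_zero ⟨_, hE k⟩ hx
      simp only [map_add, map_sub, map_mul, map_pow, evx_tt, evx_pderiv, evx_C, evx_gl,
        eval_X] at h3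
      exact sub_eq_zero.1 h3
    rw [hwr j, hwr k] at h2
    have h3 : ∀ {Q : R K}, c ∣ Q * (C (eval x D.w) * (lf x ^ (D.N - 1) * (F.θ * C (x j)
        + F.ρ j * lf x)) * pderiv k c - C (eval x D.w) * (lf x ^ (D.N - 1) * (F.θ * C (x k)
        + F.ρ k * lf x)) * pderiv j c) → c ∣ Q := by
      intro Q hQ
      obtain ⟨θ', hθ'⟩ := hcθ
      have h4 : c ∣ Q * (C (eval x D.w) * (lf x ^ (D.N - 1) * (lf x
          * (F.ρ j * pderiv k c - F.ρ k * pderiv j c)))) := by
        have h5 : Q * (C (eval x D.w) * (lf x ^ (D.N - 1) * (lf x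
            * (F.ρ j * pderiv k c - F.ρ k * pderiv j c))))
            = Q * (C (eval x D.w) * (lf x ^ (D.N - 1) * (F.θ * C (x j)
          + F.ρ j * lf x)) * pderiv k c - C (eval x D.w) * (lf x ^ (D.N - 1) * (F.θ * C (x k)
          + F.ρ k * lf x)) * pderiv j c) - c * (θ' * Q * C (eval x D.w) * lf x ^ (D.N - 1)
          * (C (x j) * pderiv k c - C (x k) * pderiv j c)) := by
          rw [hθ']; ring
        rw [h5]
        exact dvd_sub hQ (Dvd.intro _ rfl)
      have hpc := hc.prime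
      rcases hpc.dvd_or_dvd h4 with h5 | h5
      · exact h5
      · exfalso
        have h6 := C_dvd_mul hw h5
        rcases hpc.dvd_or_dvd h6 with h7 | h7
        · exact hcl (hpc.dvd_of_dvd_pow h7)
        · rcases hpc.dvd_or_dvd h7 with h8 | h8
          · exact hcl h8
          · exact hcross h8
    exact ⟨h3 h2.1, h3 h2.2⟩
  -- at `t2`
  have hdiv : ∀ {P : RT K}, (∀ x : Fin 3 → K, eval x p = 0 → eval x D.w ≠ 0 →
      eval x (lf t2) ≠ 0 → c ∣ evx x P) → p ∣ evt t2 P := by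
    intro P hP
    have h1 : p ∣ D.w * (lf t2 * evt t2 P) := by
      apply dvd_of_zeros hp
      intro x hx
      rw [map_mul, map_mul]
      by_cases hw : eval x D.w = 0
      · rw [hw, zero_mul]
      by_cases hl : eval x (lf t2) = 0
      · rw [hl, zero_mul, mul_zero]
      obtain ⟨q, hq⟩ := hP x hx hw hl
      have h2 : eval x (evt t2 P) = 0 := by
        rw [← eval_evx, hq, map_mul, ht2c, zero_mul]
      rw [h2, mul_zero, mul_zero]
    rcases hp.prime.dvd_or_dvd h1 with h2 | h2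
    · exact absurd h2 hwp
    · rcases hp.prime.dvd_or_dvd h2 with h3 | h3
      · exact absurd h3 (hp2 _ ht20)
      · exact h3
  have hH0 : eval t2 F.H = 0 := by
    obtain ⟨q, hq⟩ := hcH
    rw [hq, map_mul, ht2c, zero_mul]
  have hA : D.f ∣ evt t2 S.A := by
    obtain ⟨q, hq⟩ := hdiv (fun x hx hw hl => (hpt x hx hw hl).1)
    rw [hA₁, map_add, map_mul, map_mul, evt_tt, hH0, C_0, zero_mul, zero_add, evt_C, hq, hpp]
    exact ⟨q, by ring⟩
  have hB : D.f ∣ evt t2 S.B := by
    obtain ⟨q, hq⟩ := hdiv (fun x hx hw hl => (hpt x hx hw hl).2)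
    rw [hB₁, map_add, map_mul, map_mul, evt_tt, hH0, C_0, zero_mul, zero_add, evt_C, hq, hpp]
    exact ⟨q, by ring⟩
  have h1 : D.f ∣ D.w * (evt t2 D.u * lf t2 ^ D.N) := by
    obtain ⟨q, hq⟩ := S.hP0
    have h2 := congrArg (evt t2) hq
    simp only [map_add, map_mul, map_pow, evt_C, evt_gl] at h2
    have h3 : D.w * (evt t2 D.u * lf t2 ^ D.N)
        = D.f * evt t2 q - D.h * evt t2 S.A - D.g * evt t2 S.B := by
      linear_combination h2
    rw [h3]
    exact dvd_sub (dvd_sub (Dvd.intro _ rfl) (hA.mul_left _)) (hB.mul_left _)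
  apply ht2
  apply Ideal.mem_of_dvd _ _ D.f_mem
  have hpr := hp.prime
  rw [hpp, ← pow_two] at h1 ⊢
  have h2 := hpr.pow_dvd_of_dvd_mul_left 2 hwp h1
  have h3 := hpr.pow_dvd_of_dvd_mul_right 2 (fun h => hp2 _ ht20 (hpr.dvd_of_dvd_pow h)) h2
  exact h3.mul_left _

end Pool.Agent.H868.TC
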