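import Pool.Graph.R_pool_sql_team_seeded_1e53cb71.Helper15K9.IC.Core

/-!
Ternary complete intersections `(f, g, h)` with a form `f` of degree at least three and a multiplier
`w`: the data of a generic kernel vector, and the syzygies obtained by differentiation.

This follows the files `Helper15K9.IC.Defs` and `Helper15K9.IC.Syz` of the library (there `f` is an
irreducible cubic), from which the notation `R`, `RT`, `evt`, `evx`, `tt`, `gl` is taken.
-/

namespace Pool.Agent.H868.TC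

open MvPolynomial
open Pool.Agent.Helper15K9.IC
open Pool.Agent.W695.SLP (lf Good)
open Pool.Agent.TH61.SL (hc comp_mul hc_zero hc_hom comp_self comp_ne)

/-- the data: the form `f` of degree `a`, the complete intersection `(f, g, h)`, the multiplier `w`,
and the generic kernel vector `u` of `ℓ ^ N` in degree `i` -/
structure Dt (K : Type*) [Field K] where
  (f g h w : R K)
  (a b c e i N d M : ℕ)
  (u : RT K)
  hf : f.IsHomogeneous a
  ha : 3 ≤ a
  hf0 : f ≠ 0
  hg : g.IsHomogeneous b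
  hh : h.IsHomogeneous c
  hw : w.IsHomogeneous e
  hreg : ∀ X Y : R K, f ∣ h * X + g * Y → ∃ κ, f ∣ Y - h * κ ∧ f ∣ X + g * κ
  hcg : ∀ X : R K, f ∣ g * X → f ∣ X
  hch : ∀ X : R K, f ∣ h * X → f ∣ X
  hM : ∀ j, (X j : R K) ^ M ∈ Ideal.span {f, g, h}
  hN : 1 ≤ N
  hdeg : e + 2 * i + N = b + c
  hi : 1 ≤ i
  hib : i < b
  hic : i < c
  hd : 0 < d
  hut : u.IsHomogeneous d
  hux : ∀ m, (coeff m u).IsHomogeneous i
  hP : ∀ m, coeff m (C w * (u * gl K ^ N)) ∈ Ideal.span {f, g, h}
  hmin : ∀ c' : R K, Irreducible c' → ∃ t : Fin 3 → K, eval t c' = 0 ∧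
    w * evt t u ∉ Ideal.span {f, g, h}

/-- the syzygy data -/
structure Sz {K : Type*} [Field K] (D : Dt K) where
  (A B : RT K)
  θ : R K
  ρ : Fin 3 → R K
  hA : A.IsHomogeneous (D.d + D.N)
  hB : B.IsHomogeneous (D.d + D.N)
  hAx : XH (D.b - D.i) A
  hBx : XH (D.c - D.i) B
  hP0 : C D.f ∣ C D.w * (D.u * gl K ^ D.N) + C D.h * A + C D.g * B
  hθ : θ.IsHomogeneous (2 * D.d + D.N)
  hρ : ∀ k, (ρ k).IsHomogeneous (2 * D.d + D.N - 1)
  heul : ∑ k, X k * ρ k = -θ
  hE1 : ∀ k, C D.f ∣ (gl K * pderiv k D.u + (D.N : RT K) * (C (X k) * D.u)) * B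
    - D.u * gl K * pderiv k B - C D.h * (tt θ * C (X k) + tt (ρ k) * gl K)
  hE2 : ∀ k, C D.f ∣ (gl K * pderiv k D.u + (D.N : RT K) * (C (X k) * D.u)) * A
    - D.u * gl K * pderiv k A + C D.g * (tt θ * C (X k) + tt (ρ k) * gl K)

variable {K : Type*} [Field K]

/-- the variables are nonzerodivisors modulo a nonzero polynomial, jointly -/
lemma sat_one {f s : R K} (hf : f ≠ 0) (h : ∀ j, X j * s ∈ Ideal.span {f}) : s ∈ Ideal.span {f} := by
  have h0 := Ideal.mem_span_singleton.1 (h 0)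
  have h1 := Ideal.mem_span_singleton.1 (h 1)
  obtain ⟨a, ha⟩ := h0
  obtain ⟨b, hb⟩ := h1
  have h2 : (X 1 : R K) * a = X 0 * b := by
    apply mul_left_cancel₀ hf
    linear_combination (X 0) * hb - (X 1) * ha
  have h3 : (X 0 : R K) ∣ X 1 * a := ⟨b, h2⟩
  have hp : Prime (X 0 : R K) := X_prime
  have h4 : (X 0 : R K) ∣ a := by
    rcases hp.dvd_or_dvd h3 with h | h
    · rw [X_dvd_X] at h
      exact absurd h (by decide)
    · exact h
  obtain ⟨a', rfl⟩ := h4
  rw [Ideal.mem_span_singleton]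
  refine ⟨a', ?_⟩
  apply mul_left_cancel₀ (X_ne_zero (R := K) (0 : Fin 3))
  rw [ha]; ring

lemma gl_cancel {f : R K} (hf : f ≠ 0) {P : RT K} (h : (C f : RT K) ∣ gl K * P) :
    (C f : RT K) ∣ P := by
  rw [C_dvd_iff_dvd_coeff]
  intro m
  rw [← Ideal.mem_span_singleton]
  refine mc K (Ideal.span {f}) (fun s hs => sat_one hf hs) P (fun m => ?_) m
  rw [Ideal.mem_span_singleton]
  exact (C_dvd_iff_dvd_coeff _ _).1 h m

namespace Dt

variable (D : Dt K)

lemma f_mem : D.f ∈ Ideal.span {D.f, D.g, D.h} := Ideal.subset_span (by simp)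

lemma g_mem : D.g ∈ Ideal.span {D.f, D.g, D.h} := Ideal.subset_span (by simp)

lemma h_mem : D.h ∈ Ideal.span {D.f, D.g, D.h} := Ideal.subset_span (by simp)

lemma h_cancel {P : RT K} (h : (C D.f : RT K) ∣ C D.h * P) : (C D.f : RT K) ∣ P := by
  rw [C_dvd_iff_dvd_coeff] at h ⊢
  intro m
  apply D.hch
  have := h m
  rwa [coeff_C_mul] at this

lemma g_cancel {P : RT K} (h : (C D.f : RT K) ∣ C D.g * P) : (C D.f : RT K) ∣ P := by
  rw [C_dvd_iff_dvd_coeff] at h ⊢
  intro m
  apply D.hcg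
  have := h m
  rwa [coeff_C_mul] at this

/-- the coefficient `s_k` -/
noncomputable def s (k : Fin 3) : RT K :=
  gl K * pderiv k D.u + (D.N : RT K) * (C (X k) * D.u)

lemma s_hom (k : Fin 3) : (D.s k).IsHomogeneous D.d := by
  have h1 : (gl K * pderiv k D.u).IsHomogeneous D.d := by
    have := gl_hom.mul (D.hut.pderiv (i := k))
    have e : 1 + (D.d - 1) = D.d := by have := D.hd; omega
    rwa [e] at this
  have h2 : ((D.N : RT K) * (C (X k) * D.u)).IsHomogeneous D.d := by
    have e : (D.N : RT K) = C (D.N : R K) := by simp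
    rw [e]
    exact (D.hut.C_mul _).C_mul _
  exact h1.add h2

lemma s_XH (k : Fin 3) : XH (D.i + 1) (D.s k) := by
  have h1 : XH (D.i + 1) (gl K * pderiv k D.u) :=
    (XH.gl.mul (XH.pderiv D.hux k)).cast (add_comm _ _)
  have h2 : XH (D.i + 1) ((D.N : RT K) * (C (X k) * D.u)) :=
    ((XH.natCast _).mul ((XH.C (isHomogeneous_X K k)).mul D.hux)).cast (by omega)
  exact h1.add h2

/-- relations in `K[x][t]` modulo `f` -/
lemma reg_lift {X Y : RT K} {n e : ℕ} (hX : XH (D.b + n) X) (hY : XH (D.c + n) Y)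
    (hXt : X.IsHomogeneous e) (hYt : Y.IsHomogeneous e)
    (h : (C D.f : RT K) ∣ C D.h * X + C D.g * Y) :
    ∃ κ : RT K, κ.IsHomogeneous e ∧ XH n κ ∧ (C D.f : RT K) ∣ Y - C D.h * κ ∧
      (C D.f : RT K) ∣ X + C D.g * κ := by
  classical
  obtain ⟨κ, h1, h2, h3⟩ := exists_lift (S := X.support ∪ Y.support) (n := n) (e := e)
    (Pr := fun m κ => D.f ∣ coeff m Y - D.h * κ ∧ D.f ∣ coeff m X + D.g * κ) (by
      intro m hm
      rcases Finset.mem_union.1 hm with h | h
      · exact degree_of_mem_support hXt h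
      · exact degree_of_mem_support hYt h) (by
      intro m _
      have h1 := (C_dvd_iff_dvd_coeff _ _).1 h m
      rw [coeff_add, coeff_C_mul, coeff_C_mul] at h1
      obtain ⟨κ, ⟨q1, h2⟩, ⟨q2, h3⟩⟩ := D.hreg _ _ h1
      refine ⟨homogeneousComponent n κ, homogeneousComponent_isHomogeneous _ _, ?_, ?_⟩
      · have h4 := congrArg (homogeneousComponent (D.c + n)) h2
        rw [map_sub, comp_self (hY m), mul_comm D.h, comp_mul D.hh, mul_comm D.f, comp_mul D.hf,
          hc, if_pos (by omega), Nat.add_sub_cancel_left] at h4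
        rw [mul_comm D.h, h4]
        exact Dvd.intro_left _ rfl
      · have h4 := congrArg (homogeneousComponent (D.b + n)) h3
        rw [map_add, comp_self (hX m), mul_comm D.g, comp_mul D.hg, mul_comm D.f, comp_mul D.hf,
          hc, if_pos (by omega), Nat.add_sub_cancel_left] at h4
        rw [mul_comm D.g, h4]
        exact Dvd.intro_left _ rfl) (by
      intro m hm
      rw [Finset.notMem_union, notMem_support_iff, notMem_support_iff] at hm
      rw [hm.1, hm.2]
      simp)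
  refine ⟨κ, h1, h2, ?_, ?_⟩
  · rw [C_dvd_iff_dvd_coeff]
    intro m
    rw [coeff_sub, coeff_C_mul]
    exact (h3 m).1
  · rw [C_dvd_iff_dvd_coeff]
    intro m
    rw [coeff_add, coeff_C_mul]
    exact (h3 m).2

/-- the cofactors -/
lemma exists_AB : ∃ A B : RT K, A.IsHomogeneous (D.d + D.N) ∧ B.IsHomogeneous (D.d + D.N) ∧
    XH (D.b - D.i) A ∧ XH (D.c - D.i) B ∧
    (C D.f : RT K) ∣ C D.w * (D.u * gl K ^ D.N) + C D.h * A + C D.g * B := by
  classical
  set P : RT K := C D.w * (D.u * gl K ^ D.N) with hPdef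
  have hPx : XH (D.e + (D.i + D.N)) P := by
    have h1 : XH D.N (gl K ^ D.N) := by
      have : ∀ n, XH n (gl K ^ n) := by
        intro n
        induction n with
        | zero =>
          have h2 : XH 0 (C (1 : R K) : RT K) := XH.C (isHomogeneous_one _ _)
          simpa using h2
        | succ n ih => rw [pow_succ]; exact ih.mul XH.gl
      exact this _
    exact (XH.C D.hw).mul ((show XH D.i D.u from D.hux).mul h1)
  have hPt : P.IsHomogeneous (D.d + D.N) := by
    have h1 := gl_hom (K := K).pow D.N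
    rw [one_mul] at h1
    exact (D.hut.mul h1).C_mul _
  have h1 : ∀ m, ∃ x y : R K, x.IsHomogeneous (D.e + (D.i + D.N) - D.c) ∧
      (D.e + (D.i + D.N) < D.c → x = 0) ∧ y.IsHomogeneous (D.e + (D.i + D.N) - D.b) ∧
      (D.e + (D.i + D.N) < D.b → y = 0) ∧ D.f ∣ coeff m P + D.h * x + D.g * y := fun m =>
    mem_three D.hf D.hg D.hh (hPx m) (D.hP m)
  choose x y hx hx0 hy hy0 hxy using h1
  obtain ⟨A, hA⟩ := exists_coeff P.support x
  obtain ⟨B, hB⟩ := exists_coeff P.support y
  have hdeg := D.hdeg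
  have hN := D.hN
  have hib := D.hib
  have hic := D.hic
  refine ⟨A, B, ?_, ?_, ?_, ?_, ?_⟩
  · intro m hm
    rw [hA] at hm
    split_ifs at hm with h1
    · exact hPt (mem_support_iff.1 h1)
    · exact absurd rfl hm
  · intro m hm
    rw [hB] at hm
    split_ifs at hm with h1
    · exact hPt (mem_support_iff.1 h1)
    · exact absurd rfl hm
  · intro m
    rw [hA]
    split_ifs
    · have := hx m
      rwa [show D.e + (D.i + D.N) - D.c = D.b - D.i by omega] at this
    · exact isHomogeneous_zero _ _ _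
  · intro m
    rw [hB]
    split_ifs
    · have := hy m
      rwa [show D.e + (D.i + D.N) - D.b = D.c - D.i by omega] at this
    · exact isHomogeneous_zero _ _ _
  · rw [C_dvd_iff_dvd_coeff]
    intro m
    have e1 : coeff m (C D.h * A) = D.h * coeff m A := coeff_C_mul _ _ _
    have e2 : coeff m (C D.g * B) = D.g * coeff m B := coeff_C_mul _ _ _
    rw [coeff_add, coeff_add, e1, e2, hA, hB]
    split_ifs with h3
    · exact hxy m
    · rw [notMem_support_iff.1 h3]; simp

/-- the derivative of the relation -/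
lemma rel {A B : RT K}
    (h : (C D.f : RT K) ∣ C D.w * (D.u * gl K ^ D.N) + C D.h * A + C D.g * B) (k : Fin 3) :
    (C D.f : RT K) ∣ C D.h * (D.s k * A - D.u * gl K * pderiv k A)
      + C D.g * (D.s k * B - D.u * gl K * pderiv k B) := by
  obtain ⟨N', hN'⟩ : ∃ N', D.N = N' + 1 := ⟨D.N - 1, by have := D.hN; omega⟩
  have h1 := pderiv_dvd k h
  have h2 : C D.h * (D.s k * A - D.u * gl K * pderiv k A)
      + C D.g * (D.s k * B - D.u * gl K * pderiv k B)
      = D.s k * (C D.w * (D.u * gl K ^ D.N) + C D.h * A + C D.g * B)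
        - D.u * gl K * pderiv k (C D.w * (D.u * gl K ^ D.N) + C D.h * A + C D.g * B) := by
    simp only [map_add, pderiv_mul, pderiv_C, pderiv_pow, pderiv_gl, s, hN', Nat.add_sub_cancel]
    push_cast
    ring
  rw [h2]
  exact dvd_sub (Dvd.dvd.mul_left h _) (Dvd.dvd.mul_left h1 _)

/-- a relation `x_j κ_k - x_k κ_j = ℓ Z` -/
lemma exists_Z {A B : RT K} (hA : A.IsHomogeneous (D.d + D.N)) (hB : B.IsHomogeneous (D.d + D.N))
    (hAx : XH (D.b - D.i) A) (hBx : XH (D.c - D.i) B) {κ : Fin 3 → RT K} (hκ : ∀ k, XH 1 (κ k))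
    (h1 : ∀ k, (C D.f : RT K) ∣ (D.s k * B - D.u * gl K * pderiv k B) - C D.h * κ k)
    (h2 : ∀ k, (C D.f : RT K) ∣ (D.s k * A - D.u * gl K * pderiv k A) + C D.g * κ k) (j k : Fin 3) :
    ∃ Z : RT K, Z.IsHomogeneous (2 * D.d + D.N - 1) ∧ XH 1 Z ∧
      C (X j) * κ k - C (X k) * κ j = gl K * Z := by
  have hN := D.hN
  have hd := D.hd
  have hib := D.hib
  have hic := D.hic
  set X' : RT K := B * (C (X j) * pderiv k D.u - C (X k) * pderiv j D.u)
    - D.u * (C (X j) * pderiv k B - C (X k) * pderiv j B) with hX'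
  set Y' : RT K := A * (C (X j) * pderiv k D.u - C (X k) * pderiv j D.u)
    - D.u * (C (X j) * pderiv k A - C (X k) * pderiv j A) with hY'
  set M : RT K := C (X j) * κ k - C (X k) * κ j with hM
  have e1 : (C D.f : RT K) ∣ gl K * X' - C D.h * M := by
    have : gl K * X' - C D.h * M
        = C (X j) * ((D.s k * B - D.u * gl K * pderiv k B) - C D.h * κ k)
          - C (X k) * ((D.s j * B - D.u * gl K * pderiv j B) - C D.h * κ j) := by
      rw [hX', hM, s, s]; ring
    rw [this]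
    exact dvd_sub (Dvd.dvd.mul_left (h1 k) _) (Dvd.dvd.mul_left (h1 j) _)
  have e2 : (C D.f : RT K) ∣ gl K * Y' + C D.g * M := by
    have : gl K * Y' + C D.g * M
        = C (X j) * ((D.s k * A - D.u * gl K * pderiv k A) + C D.g * κ k)
          - C (X k) * ((D.s j * A - D.u * gl K * pderiv j A) + C D.g * κ j) := by
      rw [hY', hM, s, s]; ring
    rw [this]
    exact dvd_sub (Dvd.dvd.mul_left (h2 k) _) (Dvd.dvd.mul_left (h2 j) _)
  have e3 : (C D.f : RT K) ∣ C D.h * Y' + C D.g * X' := by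
    apply gl_cancel D.hf0
    have : gl K * (C D.h * Y' + C D.g * X')
        = C D.h * (gl K * Y' + C D.g * M) + C D.g * (gl K * X' - C D.h * M) := by ring
    rw [this]
    exact dvd_add (Dvd.dvd.mul_left e2 _) (Dvd.dvd.mul_left e1 _)
  have hux : XH D.i D.u := D.hux
  have hCx : ∀ k : Fin 3, XH 1 (C (X k) : RT K) := fun k => XH.C (isHomogeneous_X K k)
  have hq : XH (D.i + 1) (C (X j) * pderiv k D.u - C (X k) * pderiv j D.u) :=
    (((hCx j).mul (hux.pderiv k)).sub ((hCx k).mul (hux.pderiv j))).cast (by omega)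
  have hqt : (C (X j) * pderiv k D.u - C (X k) * pderiv j D.u : RT K).IsHomogeneous (D.d - 1) :=
    (D.hut.pderiv.C_mul _).sub (D.hut.pderiv.C_mul _)
  have hpt : ∀ {B : RT K}, B.IsHomogeneous (D.d + D.N) →
      (C (X j) * pderiv k B - C (X k) * pderiv j B : RT K).IsHomogeneous (D.d + D.N - 1) :=
    fun hB => (hB.pderiv.C_mul _).sub (hB.pderiv.C_mul _)
  have hXY : ∀ {b : ℕ} {B : RT K}, D.i < b → B.IsHomogeneous (D.d + D.N) → XH (b - D.i) B →
      XH (b + 1) (B * (C (X j) * pderiv k D.u - C (X k) * pderiv j D.u)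
        - D.u * (C (X j) * pderiv k B - C (X k) * pderiv j B)) ∧
      (B * (C (X j) * pderiv k D.u - C (X k) * pderiv j D.u)
        - D.u * (C (X j) * pderiv k B - C (X k) * pderiv j B)).IsHomogeneous
          (2 * D.d + D.N - 1) := by
    intro b B hb hB hBx
    constructor
    · refine XH.sub ?_ ?_
      · exact (hBx.mul hq).cast (by omega)
      · have e : D.u * (C (X j) * pderiv k B - C (X k) * pderiv j B)
            = (D.u * C (X j)) * pderiv k B - (D.u * C (X k)) * pderiv j B := by ring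
        rw [e]
        exact (((hux.mul (hCx j)).mul (hBx.pderiv k)).sub
          ((hux.mul (hCx k)).mul (hBx.pderiv j))).cast (by omega)
    · have h4 := hB.mul hqt
      have h5 := D.hut.mul (hpt hB)
      rw [show D.d + D.N + (D.d - 1) = 2 * D.d + D.N - 1 by omega] at h4
      rw [show D.d + (D.d + D.N - 1) = 2 * D.d + D.N - 1 by omega] at h5
      exact h4.sub h5
  obtain ⟨Z, hZt, hZ, h3, h4⟩ := D.reg_lift (hXY hib hA hAx).1 (hXY hic hB hBx).1 (hXY hib hA hAx).2
    (hXY hic hB hBx).2 e3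
  refine ⟨Z, hZt, hZ, ?_⟩
  rw [← sub_eq_zero]
  have e5 : (C D.f : RT K) ∣ C D.h * (M - gl K * Z) := by
    have : C D.h * (M - gl K * Z) = gl K * (X' - C D.h * Z) - (gl K * X' - C D.h * M) := by ring
    rw [this]
    exact dvd_sub (Dvd.dvd.mul_left h3 _) e1
  have e6 : (C D.f : RT K) ∣ M - gl K * Z := D.h_cancel e5
  refine eq_zero_of_C_dvd D.hf (n := 2) ?_ (by have := D.ha; omega) e6
  exact (((hCx j).mul (hκ k)).sub ((hCx k).mul (hκ j))).sub (XH.gl.mul hZ)

end Dt

end Pool.Agent.H868.TC
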