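import Pool.Agent.H868.TC.Theta

/-!
The generic behaviour along the components of the reduced discriminant.
-/

namespace Pool.Agent.H868.TC

open MvPolynomial
open Pool.Agent.Helper15K9.IC
open Pool.Agent.W695.SLP (lf Good)

variable {K : Type*} [Field K]

/-- the generic behaviour along a component of the reduced discriminant (following the library's
`comp_generic`) -/
lemma CD.comp_generic [CharZero K] [IsAlgClosed K] {D : Dt K} {S : Sz D} {p : R K}
    (hp : Irreducible p) (hpf : p ∣ D.f) (hp2 : ∀ y : Fin 3 → K, y ≠ 0 → ¬ p ∣ lf y)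
    (hwp : ¬ p ∣ D.w) {e : ℕ} (F : CD D S p e) (he : 0 < e) (hred : ∀ c : R K, Irreducible c →
      ∃ t : Fin 3 → K, eval t c = 0 ∧ ¬ p ∣ evt t F.U) (hθ0 : S.θ ≠ 0)
    {c : R K} (hc : Irreducible c) (hcθ : c ∣ F.θ)
    (hcross : ∀ j k, c ∣ F.ρ j * pderiv k c - F.ρ k * pderiv j c) :
    ∃ r : R K, ¬ p ∣ r ∧ ∀ x : Fin 3 → K, eval x p = 0 → eval x r ≠ 0 →
      ¬ c ∣ lf x ∧ (¬ lf x ∣ F.θ → ∀ t : Fin 3 → K, t ≠ 0 → eval t c = 0 →
        eval t (evx x F.U) = 0 → ∑ j, x j * t j ≠ 0) := by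
  classical
  have hxf : ∀ x : Fin 3 → K, eval x p = 0 → eval x D.f = 0 := by
    intro x hx
    obtain ⟨r, hr⟩ := hpf
    rw [hr, map_mul, hx, zero_mul]
  have hFθ0 : F.θ ≠ 0 := by
    intro h
    apply hθ0
    rw [F.hθ, h, mul_zero]
  -- the point where `u` does not vanish
  obtain ⟨t1, ht1c, ht1⟩ := hred c hc
  have ht10 : t1 ≠ 0 := by
    rintro rfl
    apply ht1
    have h1 : evt (0 : Fin 3 → K) F.U = 0 := by
      have h2 : ∀ x : Fin 3 → K, eval x (evt (0 : Fin 3 → K) F.U) = 0 := by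
        intro x
        rw [← eval_evx]
        have h3 : (evx x F.U).IsHomogeneous e := F.hUt.map _
        have h4 := eval_smul_hom h3 0 (0 : Fin 3 → K)
        rw [zero_smul, zero_pow (by omega), zero_mul] at h4
        exact h4
      apply MvPolynomial.funext
      intro x
      rw [h2, map_zero]
    rw [h1]
    exact dvd_zero _
  -- the reduced vector
  have hρ0 : ∃ k, F.ρ k ≠ 0 := by
    by_contra hcon
    push Not at hcon
    apply hFθ0
    have h1 := F.heul
    simp only [hcon, mul_zero, Finset.sum_const_zero] at h1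
    exact neg_eq_zero.1 h1.symm
  obtain ⟨m, ρ', hρ', k0, hk0⟩ := exists_pow hc hρ0
  -- first genericity condition
  obtain ⟨V, hV⟩ : ∃ V : Fin 3 → R K, V = ![ρ' 1 * pderiv 2 c - ρ' 2 * pderiv 1 c,
    ρ' 2 * pderiv 0 c - ρ' 0 * pderiv 2 c, ρ' 0 * pderiv 1 c - ρ' 1 * pderiv 0 c] := ⟨_, rfl⟩
  have hr2 : ∃ y : Fin 3 → K, y ≠ 0 ∧ ((∃ j k, ¬ c ∣ ρ' j * pderiv k c - ρ' k * pderiv j c) →
      ∀ x : Fin 3 → K, eval x (lf y) ≠ 0 → ¬ c ∣ C (x 0) * V 0 + C (x 1) * V 1 + C (x 2) * V 2) := by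
    by_cases h : ∃ i, ¬ c ∣ V i
    · obtain ⟨i, hi⟩ := h
      obtain ⟨t, htc, htV⟩ := exists_zero_ne hc hi
      refine ⟨fun i => eval t (V i), fun h0 => htV (congrFun h0 i), fun _ x hx hcon => ?_⟩
      apply hx
      obtain ⟨q, hq⟩ := hcon
      have h1 := congrArg (eval t) hq
      simp only [map_add, map_mul, eval_C, htc, zero_mul] at h1
      rw [eval_lf, Fin.sum_univ_three]
      linear_combination h1
    · push Not at h
      refine ⟨fun _ => 1, fun h0 => one_ne_zero (congrFun h0 0), ?_⟩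
      rintro ⟨j, k, hjk⟩
      exfalso
      apply hjk
      have h0 := h 0
      have h1 := h 1
      have h2 := h 2
      rw [hV] at h0 h1 h2
      simp only [Matrix.cons_val_zero, Matrix.cons_val_one, Matrix.cons_val] at h0 h1 h2
      have hneg : ∀ {a b : R K}, c ∣ a - b → c ∣ b - a := fun h => by
        have := (dvd_neg (α := R K)).2 h
        rwa [neg_sub] at this
      fin_cases j <;> fin_cases k
      · simp
      · exact h2
      · exact hneg h1
      · exact hneg h2
      · simp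
      · exact h0
      · exact h1
      · exact hneg h0
      · simp
  obtain ⟨y2, hy2, hr2⟩ := hr2
  -- second genericity condition
  have hr3 : ∃ y : Fin 3 → K, y ≠ 0 ∧ ∀ x : Fin 3 → K, eval x (lf y) ≠ 0 →
      ∃ j k, ¬ c ∣ C (x j) * pderiv k c - C (x k) * pderiv j c := by
    obtain ⟨j, hj⟩ := CR.exists_pderiv hc
    obtain ⟨t, htc, htj⟩ := exists_zero_ne hc hj
    obtain ⟨j', hj'⟩ : ∃ j' : Fin 3, j' ≠ j := exists_ne j
    refine ⟨fun i => if i = j' then eval t (pderiv j c) else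
      if i = j then - eval t (pderiv j' c) else 0, fun h0 => ?_, fun x hx => ⟨j', j, fun hcon => ?_⟩⟩
    · have := congrFun h0 j'
      simp only [if_true, Pi.zero_apply] at this
      exact htj this
    · apply hx
      obtain ⟨q, hq⟩ := hcon
      have h1 := congrArg (eval t) hq
      simp only [map_sub, map_mul, eval_C, htc, zero_mul] at h1
      rw [eval_lf]
      rw [← Finset.sum_subset (Finset.subset_univ ({j', j} : Finset (Fin 3)))]
      · rw [Finset.sum_pair hj']
        simp only [if_true, if_neg hj'.symm]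
        linear_combination h1
      · intro i _ hi
        simp only [Finset.mem_insert, Finset.mem_singleton, not_or] at hi
        rw [if_neg hi.1, if_neg hi.2, zero_mul]
  obtain ⟨y3, hy3, hr3⟩ := hr3
  -- the common zeros
  have hcSθ : c ∣ S.θ := by
    rw [F.hθ]
    exact hcθ.mul_left _
  have hch : c.IsHomogeneous c.totalDegree := Pool.Agent.Chud.homog_of_dvd S.hθ hθ0 hcSθ
  have hρh : (ρ' k0).IsHomogeneous (ρ' k0).totalDegree := by
    have hρk : S.ρ k0 ≠ 0 := by
      intro h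
      rw [F.hρ k0, hρ' k0] at h
      rcases mul_eq_zero.1 h with h1 | h1
      · exact pow_ne_zero _ F.hH h1
      · rcases mul_eq_zero.1 h1 with h1 | h1
        · exact pow_ne_zero _ hc.ne_zero h1
        · apply hk0; rw [h1]; exact dvd_zero _
    exact Pool.Agent.Chud.homog_of_dvd (S.hρ k0) hρk
      (by rw [F.hρ k0, hρ' k0]; exact ⟨F.H ^ 2 * c ^ m, by ring⟩)
  obtain ⟨Z, hZ0, hZ⟩ := T1 K c (ρ' k0) _ _ hch hρh hc hk0
  -- the product
  have hpp := hp.prime
  refine ⟨D.w * evt t1 F.U * lf t1 * lf y2 * lf y3 * ∏ z ∈ Z, lf z, ?_, ?_⟩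
  · intro h
    rcases hpp.dvd_or_dvd h with h | h
    · rcases hpp.dvd_or_dvd h with h | h
      · rcases hpp.dvd_or_dvd h with h | h
        · rcases hpp.dvd_or_dvd h with h | h
          · rcases hpp.dvd_or_dvd h with h | h
            · exact hwp h
            · exact ht1 h
          · exact hp2 _ ht10 h
        · exact hp2 _ hy2 h
      · exact hp2 _ hy3 h
    · obtain ⟨z, hz, h⟩ := (Prime.dvd_finsetProd_iff hpp _).1 h
      exact hp2 _ (hZ0 z hz) h
  · intro x hx hr
    simp only [map_mul, mul_ne_zero_iff, map_prod, Finset.prod_ne_zero_iff] at hr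
    obtain ⟨⟨⟨⟨⟨hw, hu⟩, hl1⟩, h2⟩, h3⟩, h4⟩ := hr
    have hcl : ¬ c ∣ lf x := by
      rintro ⟨q, hq⟩
      have h1 := congrArg (eval t1) hq
      rw [map_mul, ht1c, zero_mul, eval_lf] at h1
      apply hl1
      rw [eval_lf, ← h1]
      exact Finset.sum_congr rfl fun j _ => mul_comm _ _
    refine ⟨hcl, fun hlθ t ht0 htc htu => ?_⟩
    have hcu : ¬ c ∣ evx x F.U := by
      rintro ⟨q, hq⟩
      have h1 := congrArg (eval t1) hq
      rw [map_mul, ht1c, zero_mul, eval_evx] at h1
      exact hu h1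
    have hx0 : x ≠ 0 := by
      rintro rfl
      apply hl1
      rw [eval_lf]
      simp
    obtain ⟨e0, e1, e2⟩ := F.hrel x hx
    have hgen := hr2
    rw [hV] at hgen
    simp only [Matrix.cons_val_zero, Matrix.cons_val_one, Matrix.cons_val] at hgen
    have h5 := alongComponent K (constRatio K) D.N m (evx x F.U) (evx x F.A) (evx x F.B) F.θ c F.ρ
      ρ' x (eval x D.w) (eval x D.g) (eval x D.h) D.hN hw (gh_ne D hx0 (hxf x hx))
      (by rw [mul_assoc]; exact e0) e1 e2 hc hcθ hFθ0 F.heul hcross hρ' ⟨k0, hk0⟩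
      hcu hcl hlθ (fun h => hgen h x h2) (hr3 x h3) t htc htu k0
    obtain ⟨z, hz, s, hs⟩ := hZ t ht0 htc h5
    have hs0 : s ≠ 0 := by
      rintro rfl
      rw [zero_smul] at hs
      exact ht0 hs
    have h6 := h4 z hz
    rw [eval_lf] at h6
    intro h7
    apply h6
    have h8 : ∑ j, x j * t j = s * ∑ j, z j * x j := by
      rw [hs, Finset.mul_sum]
      exact Finset.sum_congr rfl fun j _ => by simp only [Pi.smul_apply, smul_eq_mul]; ring
    rw [h8] at h7
    exact (mul_eq_zero.1 h7).resolve_left hs0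

/-- after the removal of the content the kernel vector has degree zero in `t` -/
theorem CD.degree_zero [CharZero K] [IsAlgClosed K] {D : Dt K} {S : Sz D} {p : R K}
    (hp : Irreducible p) (hpf : p ∣ D.f) (hp2 : ∀ y : Fin 3 → K, y ≠ 0 → ¬ p ∣ lf y)
    (hwp : ¬ p ∣ D.w) {e : ℕ} (F : CD D S p e)
    (hstar : ∀ c : R K, Irreducible c → c ∣ F.θ → ∀ j k, c ∣ F.ρ j * pderiv k c - F.ρ k * pderiv j c)
    (hred : ∀ c : R K, Irreducible c →
      ∃ t : Fin 3 → K, eval t c = 0 ∧ ¬ p ∣ evt t F.U) (hθ0 : S.θ ≠ 0) : e = 0 := by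
  classical
  by_contra he0
  have he : 0 < e := Nat.pos_of_ne_zero he0
  have hN := D.hN
  have hxf : ∀ x : Fin 3 → K, eval x p = 0 → eval x D.f = 0 := by
    intro x hx
    obtain ⟨r, hr⟩ := hpf
    rw [hr, map_mul, hx, zero_mul]
  have hFθ0 : F.θ ≠ 0 := by
    intro h
    apply hθ0
    rw [F.hθ, h, mul_zero]
  have hchoose : ∀ c : R K, ∃ r : R K, c ∈ UniqueFactorizationMonoid.factors F.θ →
      (¬ p ∣ r ∧ ∀ x : Fin 3 → K, eval x p = 0 → eval x r ≠ 0 →
      ¬ c ∣ lf x ∧ (¬ lf x ∣ F.θ → ∀ t : Fin 3 → K, t ≠ 0 → eval t c = 0 →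
        eval t (evx x F.U) = 0 → ∑ j, x j * t j ≠ 0)) := by
    intro c
    by_cases hc : c ∈ UniqueFactorizationMonoid.factors F.θ
    · have hci := UniqueFactorizationMonoid.irreducible_of_factor c hc
      have hcd := UniqueFactorizationMonoid.dvd_of_mem_factors hc
      obtain ⟨r, hr⟩ := F.comp_generic hp hpf hp2 hwp he hred hθ0 hci hcd (hstar c hci hcd)
      exact ⟨r, fun _ => hr⟩
    · exact ⟨0, fun h => absurd h hc⟩
  choose r hr using hchoose
  have hpp := hp.prime
  have hP : ¬ p ∣ lf (Pi.single 0 1) * ((UniqueFactorizationMonoid.factors F.θ).map r).prod := by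
    intro h
    rcases hpp.dvd_or_dvd h with h | h
    · refine hp2 _ ?_ h
      intro h
      have := congrFun h 0
      simp at this
    · obtain ⟨c, hc, h⟩ := hpp.exists_mem_multiset_map_dvd h
      exact (hr c hc).1 h
  obtain ⟨x, hx, hxP⟩ := exists_zero_ne hp hP
  rw [map_mul, mul_ne_zero_iff] at hxP
  have hx0 : x ≠ 0 := by
    rintro rfl
    apply hxP.1
    rw [eval_lf]; simp
  have hrx : ∀ c ∈ UniqueFactorizationMonoid.factors F.θ, eval x (r c) ≠ 0 := by
    intro c hc h
    apply hxP.2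
    obtain ⟨q, hq⟩ := Multiset.dvd_prod (Multiset.mem_map_of_mem r hc)
    rw [hq, map_mul, h, zero_mul]
  have hassoc := UniqueFactorizationMonoid.factors_prod hFθ0
  have hlx : Irreducible (lf x) := irreducible_lf hx0
  have hlθ : ¬ lf x ∣ F.θ := by
    intro h
    have h1 : lf x ∣ (UniqueFactorizationMonoid.factors F.θ).prod := h.trans hassoc.symm.dvd
    obtain ⟨c, hc, h2⟩ := hlx.prime.exists_mem_multiset_dvd h1
    have hci := UniqueFactorizationMonoid.irreducible_of_factor c hc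
    have h3 := (hlx.dvd_irreducible_iff_associated hci).1 h2
    exact ((hr c hc).2 x hx (hrx c hc)).1 h3.symm.dvd
  -- the bad point
  have hu0 : (evx x F.U).IsHomogeneous e := F.hUt.map _
  obtain ⟨t, ht0, hxt, hut⟩ := exists_zero_on_plane hu0 he hx0
  have hlt : eval t (lf x) = 0 := by rw [eval_lf]; exact hxt
  obtain ⟨e0, e1, e2⟩ := F.hrel x hx
  have hθt : eval t F.θ = 0 := by
    obtain ⟨k, hk⟩ := Function.ne_iff.mp hx0
    rw [Pi.zero_apply] at hk
    have f1 := congrArg (eval t) (e1 k)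
    have f2 := congrArg (eval t) (e2 k)
    simp only [map_sub, map_add, map_mul, map_neg, hlt, hut, mul_zero, zero_mul, add_zero, sub_zero,
      eval_C] at f1 f2
    rcases gh_ne D hx0 (hxf x hx) with hg | hh
    · have f3 : eval x D.g * (eval t F.θ * x k) = 0 := neg_eq_zero.1 f2.symm
      have f4 := (mul_eq_zero.1 f3).resolve_left hg
      exact (mul_eq_zero.1 f4).resolve_right hk
    · have f4 := (mul_eq_zero.1 f1.symm).resolve_left hh
      exact (mul_eq_zero.1 f4).resolve_right hk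
  obtain ⟨v, hv⟩ := hassoc
  have h1 : eval t ((UniqueFactorizationMonoid.factors F.θ).prod) = 0 := by
    have h2 := congrArg (eval t) hv
    rw [map_mul, hθt] at h2
    rcases mul_eq_zero.1 h2 with h3 | h3
    · exact h3
    · exact absurd h3 ((v.isUnit.map (eval t)).ne_zero)
  rw [map_multiset_prod, Multiset.prod_eq_zero_iff, Multiset.mem_map] at h1
  obtain ⟨c, hc, hct⟩ := h1
  exact ((hr c hc).2 x hx (hrx c hc)).2 hlθ t ht0 hct hut hxt

end Pool.Agent.H868.TC
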