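import Pool.Agent.H868.TC.Syz
import Pool.Graph.R_pool_sql_team_seeded_1e53cb71.Helper15K9.IC.Final

/-!
The gradient of the discriminant `θ` at its zeros `t` whose line `ℓ_t` is not contained in the cubic
(following `Helper15K9.IC.Grad`), and the first consequence along the components of `θ = 0`.
-/

namespace Pool.Agent.H868.TC

open MvPolynomial
open Pool.Agent.Helper15K9.IC
open Pool.Agent.W695.SLP (lf Good)
open Pool.Agent.TH61.SL (hc comp_mul hc_zero hc_hom comp_self comp_ne)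

variable {K : Type*} [Field K]

/-- forms of degree two in `(f, ℓ)` vanish on the line -/
lemma eval_zero_of_mem {f Q : R K} {a : ℕ} (hf : f.IsHomogeneous a) (ha : 3 ≤ a) {t : Fin 3 → K}
    (hQ : Q.IsHomogeneous 2) (h : Q ∈ Ideal.span {f, lf t}) {x : Fin 3 → K}
    (hx : ∑ j, t j * x j = 0) : eval x Q = 0 := by
  obtain ⟨a, b, h1⟩ := Ideal.mem_span_pair.1 h
  have h3 := congrArg (homogeneousComponent 2) h1
  rw [map_add, comp_mul hf, comp_mul (Pool.Agent.W695.SLP.lf_hom t), comp_self hQ,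
    hc_zero (by omega), zero_mul, zero_add] at h3
  rw [← h3, map_mul, eval_lf, hx, mul_zero]

lemma mem_of_squares (D : Dt K) {J : Ideal (R K)}
    (hJ : ∀ s : R K, (∀ j, X j * s ∈ J) → s ∈ J) (hfJ : D.f ∈ J) {Q : R K}
    (h1 : D.g ^ 2 * Q ∈ J) (h2 : D.h ^ 2 * Q ∈ J) : Q ∈ J := by
  have hf : D.f ∈ (col J Q).radical := Ideal.le_radical (mem_col.2 (Ideal.mul_mem_right _ _ hfJ))
  have hg : D.g ∈ (col J Q).radical := Ideal.mem_radical_iff.2 ⟨2, mem_col.2 h1⟩
  have hh : D.h ∈ (col J Q).radical := Ideal.mem_radical_iff.2 ⟨2, mem_col.2 h2⟩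
  have hX : ∀ j, (X j : R K) ∈ (col J Q).radical := by
    intro j
    have h3 := span_le_radical hf hg hh (D.hM j)
    have h4 : (X j : R K) ∈ (col J Q).radical.radical := Ideal.mem_radical_iff.2 ⟨D.M, h3⟩
    rwa [Ideal.radical_idem] at h4
  have h3 := one_mem_of_radical (top K) (sat_col hJ Q) hX
  rwa [mem_col, one_mul] at h3

/-- the hypothesis on one of the two relations -/
def Rel (D : Dt K) (θ : R K) (ρ : Fin 3 → R K) (P : RT K) (q : R K) : Prop :=
  ∀ k, (C D.f : RT K) ∣ (gl K * pderiv k D.u + (D.N : RT K) * (C (X k) * D.u)) * P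
    - D.u * gl K * pderiv k P - C q * (tt θ * C (X k) + tt (ρ k) * gl K)

lemma rel_a [CharZero K] (D : Dt K) {θ : R K} {ρ : Fin 3 → R K} {t : Fin 3 → K}
    (hθ : eval t θ = 0) {J : Ideal (R K)} (hJsat : ∀ s : R K, (∀ j, X j * s ∈ J) → s ∈ J)
    (hfJ : D.f ∈ J) (hℓJ : lf t ∈ J) (P : RT K) (q : R K) (h : Rel D θ ρ P q) :
    evt t D.u * evt t P ∈ J := by
  have hN0 : (D.N : K) ≠ 0 := by
    have := D.hN
    exact Nat.cast_ne_zero.2 (by omega)
  have hθ0 : evt t (tt θ) = 0 := by rw [evt_tt, hθ, C_0]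
  apply hJsat
  intro k
  obtain ⟨Z, hZ⟩ := h k
  have h1 := congrArg (evt t) hZ
  simp only [map_sub, map_add, map_mul, evt_gl, evt_C, map_natCast, hθ0, zero_mul, zero_add] at h1
  have h2 : X k * (evt t D.u * evt t P)
      = C ((D.N : K)⁻¹) * ((D.N : R K) * (X k * (evt t D.u * evt t P))) := by
    have h3 : (D.N : R K) = C (D.N : K) := (map_natCast C _).symm
    have h4 : (C ((D.N : K)⁻¹) : R K) * C (D.N : K) = 1 := by
      rw [← C_mul, inv_mul_cancel₀ hN0, C_1]
    rw [h3]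
    linear_combination (-(X k * (evt t D.u * evt t P))) * h4
  rw [h2]
  apply Ideal.mul_mem_left
  have h3 : (D.N : R K) * (X k * (evt t D.u * evt t P)) = D.f * evt t Z
      - lf t * (evt t (pderiv k D.u) * evt t P - evt t D.u * evt t (pderiv k P)
        - q * evt t (tt (ρ k))) := by
    rw [← h1]
    ring
  rw [h3]
  exact Ideal.sub_mem _ (Ideal.mul_mem_right _ _ hfJ) (Ideal.mul_mem_right _ _ hℓJ)

lemma rel_b0 (D : Dt K) {θ : R K} {ρ : Fin 3 → R K} {t : Fin 3 → K} {J : Ideal (R K)}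
    (hfJ : D.f ∈ J) (hℓJ : lf t ∈ J) (P : RT K) (q : R K) (h : Rel D θ ρ P q) (j m : Fin 3) :
    X m * ((D.N : R K) * (evt t (pderiv j D.u) * evt t P
        + evt t D.u * evt t (pderiv j P)) - q * C (eval t (pderiv j θ)))
        + X j * (evt t (pderiv m D.u) * evt t P - evt t D.u * evt t (pderiv m P)
          - q * C (eval t (ρ m))) ∈ J := by
  obtain ⟨Z, hZ⟩ := pderiv_dvd j (h m)
  simp only [map_sub, map_add, pderiv_mul, pderiv_C, pderiv_gl, zero_mul, zero_add,
    Derivation.map_natCast, tt_pderiv, mul_zero, add_zero] at hZ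
  have h1 := congrArg (evt t) hZ
  simp only [map_sub, map_add, map_mul, evt_gl, evt_C, map_natCast, evt_tt] at h1
  have h3 : X m * ((D.N : R K) * (evt t (pderiv j D.u) * evt t P
    + evt t D.u * evt t (pderiv j P)) - q * C (eval t (pderiv j θ)))
    + X j * (evt t (pderiv m D.u) * evt t P - evt t D.u * evt t (pderiv m P)
      - q * C (eval t (ρ m)))
    = D.f * evt t Z - lf t * (evt t (pderiv j (pderiv m D.u)) * evt t P
      + evt t (pderiv m D.u) * evt t (pderiv j P) - evt t (pderiv j D.u) * evt t (pderiv m P)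
      - evt t D.u * evt t (pderiv j (pderiv m P)) - q * C (eval t (pderiv j (ρ m)))) := by
    rw [← h1]
    ring
  rw [h3]
  exact Ideal.sub_mem _ (Ideal.mul_mem_right _ _ hfJ) (Ideal.mul_mem_right _ _ hℓJ)

lemma rel_b (D : Dt K) {θ : R K} {ρ : Fin 3 → R K} {t : Fin 3 → K} {J : Ideal (R K)}
    (hJsat : ∀ s : R K, (∀ j, X j * s ∈ J) → s ∈ J)
    (hfJ : D.f ∈ J) (hℓJ : lf t ∈ J) (P : RT K) (q : R K) (h : Rel D θ ρ P q) (j k : Fin 3) :
    q * (X j * C (eval t (pderiv k θ)) - X k * C (eval t (pderiv j θ))) - (D.N : R K) *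
        (evt t P * (X j * evt t (pderiv k D.u) - X k * evt t (pderiv j D.u))
          + evt t D.u * (X j * evt t (pderiv k P) - X k * evt t (pderiv j P))) ∈ J := by
  apply hJsat
  intro m
  have h3 := Ideal.sub_mem _ (Ideal.mul_mem_left J (X k) (rel_b0 D hfJ hℓJ P q h j m))
    (Ideal.mul_mem_left J (X j) (rel_b0 D hfJ hℓJ P q h k m))
  have h4 : X m * (q * (X j * C (eval t (pderiv k θ)) - X k * C (eval t (pderiv j θ)))
      - (D.N : R K) * (evt t P * (X j * evt t (pderiv k D.u) - X k * evt t (pderiv j D.u))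
        + evt t D.u * (X j * evt t (pderiv k P) - X k * evt t (pderiv j P))))
      = X k * (X m * ((D.N : R K) * (evt t (pderiv j D.u) * evt t P
      + evt t D.u * evt t (pderiv j P)) - q * C (eval t (pderiv j θ)))
      + X j * (evt t (pderiv m D.u) * evt t P - evt t D.u * evt t (pderiv m P)
        - q * C (eval t (ρ m))))
      - X j * (X m * ((D.N : R K) * (evt t (pderiv k D.u) * evt t P
      + evt t D.u * evt t (pderiv k P)) - q * C (eval t (pderiv k θ)))
      + X k * (evt t (pderiv m D.u) * evt t P - evt t D.u * evt t (pderiv m P)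
        - q * C (eval t (ρ m)))) := by ring
  rw [h4]
  exact h3

lemma rel_c (D : Dt K) {θ : R K} {ρ : Fin 3 → R K} {t : Fin 3 → K}
    {J : Ideal (R K)} (hfJ : D.f ∈ J) (P : RT K) (q : R K) (h : Rel D θ ρ P q) (j k : Fin 3) :
    q * (X j * C (eval t (ρ k)) - X k * C (eval t (ρ j))) -
        (evt t P * (X j * evt t (pderiv k D.u) - X k * evt t (pderiv j D.u))
          - evt t D.u * (X j * evt t (pderiv k P) - X k * evt t (pderiv j P))) ∈ J := by
  have h1 : (C D.f : RT K) ∣ gl K * ((C (X j) * (pderiv k D.u * P - D.u * pderiv k P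
      - C q * tt (ρ k))) - (C (X k) * (pderiv j D.u * P - D.u * pderiv j P
      - C q * tt (ρ j)))) := by
    have h2 := dvd_sub (Dvd.dvd.mul_left (h k) (C (X j))) (Dvd.dvd.mul_left (h j) (C (X k)))
    have h3 : gl K * ((C (X j) * (pderiv k D.u * P - D.u * pderiv k P
      - C q * tt (ρ k))) - (C (X k) * (pderiv j D.u * P - D.u * pderiv j P
      - C q * tt (ρ j)))) = C (X j) * ((gl K * pderiv k D.u
    + (D.N : RT K) * (C (X k) * D.u)) * P - D.u * gl K * pderiv k P
    - C q * (tt θ * C (X k) + tt (ρ k) * gl K)) - C (X k) * ((gl K * pderiv j D.u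
    + (D.N : RT K) * (C (X j) * D.u)) * P - D.u * gl K * pderiv j P
    - C q * (tt θ * C (X j) + tt (ρ j) * gl K)) := by ring
    rw [h3]
    exact h2
  obtain ⟨Z, hZ⟩ := gl_cancel D.hf0 h1
  have h2 := congrArg (evt t) hZ
  simp only [map_sub, map_mul, evt_C, evt_tt] at h2
  have h3 : q * (X j * C (eval t (ρ k)) - X k * C (eval t (ρ j))) -
      (evt t P * (X j * evt t (pderiv k D.u) - X k * evt t (pderiv j D.u))
      - evt t D.u * (X j * evt t (pderiv k P) - X k * evt t (pderiv j P)))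
      = - (D.f * evt t Z) := by
    rw [← h2]
    ring
  rw [h3]
  exact J.neg_mem (Ideal.mul_mem_right _ _ hfJ)

/-- both squares -/
lemma square_mem {J : Ideal (R K)} {u P q N : R K} {U W T S : R K} {U' W' T' S' : R K}
    (ha : u * P ∈ J) (h1 : q * T - N * (P * U + u * W) ∈ J) (h1' : q * T' - N * (P * U' + u * W') ∈ J)
    (h2 : q * S - (P * U - u * W) ∈ J) (h2' : q * S' - (P * U' - u * W') ∈ J) :
    q ^ 2 * (T * T' - N ^ 2 * (S * S')) ∈ J := by
  have e : q ^ 2 * (T * T' - N ^ 2 * (S * S'))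
      = (q * T') * (q * T - N * (P * U + u * W))
        + (N * (P * U + u * W)) * (q * T' - N * (P * U' + u * W'))
        - (N ^ 2 * (q * S')) * (q * S - (P * U - u * W))
        - (N ^ 2 * (P * U - u * W)) * (q * S' - (P * U' - u * W'))
        + (N ^ 2 * 2 * (U * W' + W * U')) * (u * P) := by ring
  rw [e]
  exact J.add_mem (J.sub_mem (J.sub_mem (J.add_mem (J.mul_mem_left _ h1) (J.mul_mem_left _ h1'))
    (J.mul_mem_left _ h2)) (J.mul_mem_left _ h2')) (J.mul_mem_left _ ha)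

theorem grad [CharZero K] [IsAlgClosed K] (D : Dt K) (S : Sz D) (t : Fin 3 → K) (ht : t ≠ 0)
    (hℓf : ¬ lf t ∣ D.f) (hθ : eval t S.θ = 0) :
    (∀ k, eval t (pderiv k S.θ) = (D.N : K) * eval t (S.ρ k)) ∨
    (∀ k, eval t (pderiv k S.θ) = -((D.N : K) * eval t (S.ρ k))) := by
  have hℓh : (lf t).IsHomogeneous 1 := Pool.Agent.W695.SLP.lf_hom t
  obtain ⟨J, hJ⟩ : ∃ J : Ideal (R K), J = Ideal.span {D.f, lf t} := ⟨_, rfl⟩
  have hfJ : D.f ∈ J := by rw [hJ]; exact Ideal.subset_span (by simp)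
  have hℓJ : lf t ∈ J := by rw [hJ]; exact Ideal.subset_span (by simp)
  have hJsat : ∀ s : R K, (∀ j, X j * s ∈ J) → s ∈ J := by
    intro s hs
    rw [hJ, Set.pair_comm] at hs ⊢
    exact sat K (lf t) D.f s 1 D.a hℓh D.hf (by norm_num) (by have := D.ha; omega) (irreducible_lf ht) hℓf hs
  have hrB : Rel D S.θ S.ρ S.B D.h := S.hE1
  have hrA : Rel D S.θ S.ρ S.A (-D.g) := by
    intro k
    have h1 := S.hE2 k
    have e : (gl K * pderiv k D.u + (D.N : RT K) * (C (X k) * D.u)) * S.A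
        - D.u * gl K * pderiv k S.A - C (-D.g) * (tt S.θ * C (X k) + tt (S.ρ k) * gl K)
        = (gl K * pderiv k D.u + (D.N : RT K) * (C (X k) * D.u)) * S.A
        - D.u * gl K * pderiv k S.A + C D.g * (tt S.θ * C (X k) + tt (S.ρ k) * gl K) := by
      rw [C_neg]; ring
    rw [e]
    exact h1
  have aB := rel_a D hθ hJsat hfJ hℓJ _ _ hrB
  have aA := rel_a D hθ hJsat hfJ hℓJ _ _ hrA
  have bB := rel_b D hJsat hfJ hℓJ _ _ hrB
  have bA := rel_b D hJsat hfJ hℓJ _ _ hrA
  have cB := rel_c D (t := t) hfJ _ _ hrB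
  have cA := rel_c D (t := t) hfJ _ _ hrA
  have hQ : ∀ j k j' k' : Fin 3,
      (X j * C (eval t (pderiv k S.θ)) - X k * C (eval t (pderiv j S.θ))) *
        (X j' * C (eval t (pderiv k' S.θ)) - X k' * C (eval t (pderiv j' S.θ)))
      - (D.N : R K) ^ 2 * ((X j * C (eval t (S.ρ k)) - X k * C (eval t (S.ρ j))) *
        (X j' * C (eval t (S.ρ k')) - X k' * C (eval t (S.ρ j')))) ∈ J := by
    intro j k j' k'
    refine mem_of_squares D hJsat hfJ ?_ ?_
    · have h1 := square_mem aA (bA j k) (bA j' k') (cA j k) (cA j' k')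
      rwa [neg_sq] at h1
    · exact square_mem aB (bB j k) (bB j' k') (cB j k) (cB j' k')
  refine pm_of_cross ht (a := fun k => eval t (pderiv k S.θ))
    (b := fun k => (D.N : K) * eval t (S.ρ k)) (fun x hx j k j' k' => ?_)
  have h1 := hQ j k j' k'
  rw [hJ] at h1
  have hX : ∀ (j : Fin 3) (a : K), (X j * C a : R K).IsHomogeneous 1 := by
    intro j a
    rw [mul_comm]
    exact (isHomogeneous_X K j).C_mul a
  have h2 := eval_zero_of_mem D.hf D.ha (by
    have h3 : ∀ (j k j' k' : Fin 3) (a b a' b' : K),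
        ((X j * C a - X k * C b) * (X j' * C a' - X k' * C b') : R K).IsHomogeneous 2 :=
      fun j k j' k' a b a' b' => ((hX j a).sub (hX k b)).mul ((hX j' a').sub (hX k' b'))
    refine (h3 _ _ _ _ _ _ _ _).sub ?_
    have e : (D.N : R K) ^ 2 = C ((D.N : K) ^ 2) := by rw [C_pow, ← map_natCast (C : K →+* R K)]
    rw [e]
    exact (h3 _ _ _ _ _ _ _ _).C_mul _) h1 hx
  simp only [map_sub, map_mul, map_pow, map_natCast, eval_X, eval_C] at h2
  linear_combination h2

end Pool.Agent.H868.TC
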