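import Pool.Agent.H868.TC.Gen

/-!
An irreducible form `f` of degree at least three: there is no generic kernel vector.
-/

namespace Pool.Agent.H868.TC

open MvPolynomial
open Pool.Agent.Helper15K9.IC
open Pool.Agent.W695.SLP (lf Good)

variable {K : Type*} [Field K]

lemma not_dvd_lf_of_deg {p : R K} {n : ℕ} (hp : p.IsHomogeneous n) (hn : 2 ≤ n) (y : Fin 3 → K)
    (hy : y ≠ 0) : ¬ p ∣ lf y := fun h =>
  lf_ne hy (eq_zero_of_dvd hp (Pool.Agent.W695.SLP.lf_hom y) (by omega) h)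

lemma Dt.not_dvd (D : Dt K) : ¬ D.f ∣ D.w ∧ ¬ (C D.f : RT K) ∣ D.u := by
  obtain ⟨t, -, ht⟩ := D.hmin (X 0) X_prime.irreducible
  refine ⟨fun h => ht ?_, fun h => ht ?_⟩
  · exact Ideal.mem_of_dvd _ (h.mul_right _) D.f_mem
  · obtain ⟨q, hq⟩ := h
    rw [hq, map_mul, evt_C]
    exact Ideal.mem_of_dvd _ ⟨D.w * evt t q, by ring⟩ D.f_mem

theorem irr [CharZero K] [IsAlgClosed K] (D : Dt K) (hirr : Irreducible D.f) : False := by
  classical
  obtain ⟨S⟩ := syz D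
  obtain ⟨hwp, hpu⟩ := D.not_dvd
  have hp2 := not_dvd_lf_of_deg D.hf (by have := D.ha; omega)
  by_cases hθ : S.θ = 0
  · obtain ⟨t, -, ht⟩ := D.hmin (X 0) X_prime.irreducible
    exact ht (theta_zero D S hirr dvd_rfl hp2 hwp hpu hθ t)
  · have h0 := (CD.start D S hpu dvd_rfl).degree_zero hirr dvd_rfl hp2 hwp
      (fun c hc hcθ j k => cross D S hc hcθ j k) (fun c hc => by
        obtain ⟨t, ht, h⟩ := D.hmin c hc
        refine ⟨t, ht, fun h1 => h ?_⟩
        exact Ideal.mem_of_dvd _ (Dvd.dvd.mul_left h1 _) D.f_mem) hθ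
    have := D.hd
    omega

end Pool.Agent.H868.TC
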