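import Pool.Agent.H868.TC.Dbl

/-!
A product of two irreducible forms of degree at least two: the generic kernel vector lies in the
ideals of the factors.
-/

namespace Pool.Agent.H868.TC

open MvPolynomial
open Pool.Agent.Helper15K9.IC
open Pool.Agent.W695.SLP (lf Good)

variable {K : Type*} [Field K]

/-- the reduced data, when the parallelism is known -/
theorem concl_of_star [CharZero K] [IsAlgClosed K] (D : Dt K) {p : R K} (hp : Irreducible p)
    (hpf : p ∣ D.f) (hp2 : ∀ y : Fin 3 → K, y ≠ 0 → ¬ p ∣ lf y) (hwp : ¬ p ∣ D.w)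
    (hstar : ∀ (S : Sz D) (e : ℕ) (F : CD D S p e), S.θ ≠ 0 → ∀ c : R K, Irreducible c → c ∣ F.θ →
      ∀ j k, c ∣ F.ρ j * pderiv k c - F.ρ k * pderiv j c)
    (hsoc : ∀ s : R K, s.IsHomogeneous (D.e + D.i) →
      (∀ m, coeff m (gl K ^ D.N) * s ∈ Ideal.span {p, D.g, D.h}) →
      s ∈ Ideal.span {p, D.g, D.h}) (t : Fin 3 → K) :
    D.w * evt t D.u ∈ Ideal.span {p, D.g, D.h} := by
  classical
  have hpm : p ∈ Ideal.span {p, D.g, D.h} := Ideal.subset_span (by simp)
  have hgm : D.g ∈ Ideal.span {p, D.g, D.h} := Ideal.subset_span (by simp)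
  have hhm : D.h ∈ Ideal.span {p, D.g, D.h} := Ideal.subset_span (by simp)
  by_cases hpu : (C p : RT K) ∣ D.u
  · obtain ⟨q, hq⟩ := hpu
    rw [hq, map_mul, evt_C]
    exact Ideal.mem_of_dvd _ ⟨D.w * evt t q, by ring⟩ hpm
  obtain ⟨S⟩ := syz D
  by_cases hθ : S.θ = 0
  · exact theta_zero D S hp hpf hp2 hwp hpu hθ t
  obtain ⟨e, F, hred⟩ := exists_CD D S hp hpf hpu
  obtain rfl := F.degree_zero hp hpf hp2 hwp (hstar S e F hθ) hred hθ
  obtain ⟨U, hU⟩ : ∃ U : R K, F.U = C U := by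
    refine ⟨coeff 0 F.U, ?_⟩
    have h1 := F.hUt
    rw [← totalDegree_zero_iff_isHomogeneous, totalDegree_eq_zero_iff_eq_C] at h1
    exact h1
  have hUi : U.IsHomogeneous D.i := by
    have h1 := F.hUx 0
    rw [hU, coeff_C, if_pos rfl] at h1
    exact h1
  have hd : (C p : RT K) ∣ C D.w * (F.U * gl K ^ D.N) + C D.h * F.A + C D.g * F.B := by
    apply C_dvd_of_evx hp
    intro x hx
    have h1 := (F.hrel x hx).e0
    simp only [map_add, map_mul, map_pow, evx_C, evx_gl]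
    exact h1
  have hmem : ∀ m, coeff m (gl K ^ D.N) * (D.w * U) ∈ Ideal.span {p, D.g, D.h} := by
    intro m
    obtain ⟨q, hq⟩ := (C_dvd_iff_dvd_coeff _ _).1 hd m
    rw [hU, coeff_add, coeff_add, coeff_C_mul, coeff_C_mul, coeff_C_mul, coeff_C_mul] at hq
    rw [show coeff m (gl K ^ D.N) * (D.w * U) = q * p + (-(coeff m F.B)) * D.g
      + (-(coeff m F.A)) * D.h by linear_combination hq]
    exact Ideal.add_mem _ (Ideal.add_mem _ (Ideal.mul_mem_left _ _ hpm)
      (Ideal.mul_mem_left _ _ hgm)) (Ideal.mul_mem_left _ _ hhm)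
  have h1 := hsoc _ (D.hw.mul hUi) hmem
  have h2 : p ∣ evt t D.u - C (eval t F.H) * U := by
    apply dvd_of_zeros hp
    intro x hx
    rw [map_sub, ← eval_evx, F.hu x hx, hU, evx_C, map_mul, map_mul, eval_C, eval_C, sub_self]
  have h3 : D.w * evt t D.u = D.w * (evt t D.u - C (eval t F.H) * U)
      + C (eval t F.H) * (D.w * U) := by ring
  rw [h3]
  exact Ideal.add_mem _ (Ideal.mem_of_dvd _ (h2.mul_left _) hpm) (Ideal.mul_mem_left _ _ h1)

/-- a product of two irreducible forms -/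
theorem concl [CharZero K] [IsAlgClosed K] (D : Dt K) {p r : R K} (hp : Irreducible p)
    (hr : Irreducible r) (hpr : D.f = p * r) (has : ¬ Associated p r ∨ p = r)
    (hp2 : ∀ y : Fin 3 → K, y ≠ 0 → ¬ p ∣ lf y) (hr2 : ∀ y : Fin 3 → K, y ≠ 0 → ¬ r ∣ lf y)
    (hwp : ¬ p ∣ D.w) (hwr : ¬ r ∣ D.w)
    (hsoc : ∀ s : R K, s.IsHomogeneous (D.e + D.i) →
      (∀ m, coeff m (gl K ^ D.N) * s ∈ Ideal.span {p, D.g, D.h}) →
      s ∈ Ideal.span {p, D.g, D.h}) (t : Fin 3 → K) :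
    D.w * evt t D.u ∈ Ideal.span {p, D.g, D.h} := by
  refine concl_of_star D hp ⟨r, hpr⟩ hp2 hwp (fun S e F hθ c hc hcθ j k => ?_) hsoc t
  by_cases hcH : c ∣ F.H
  · rcases has with has | has
    · obtain ⟨t1, ht1c, ht1⟩ := D.hmin c hc
      have hH0 : eval t1 F.H = 0 := by
        obtain ⟨q, hq⟩ := hcH
        rw [hq, map_mul, ht1c, zero_mul]
      have h1 := (F.dvd_of_H hp hH0).1
      refine F.star_other hr (by rw [hpr]; exact Dvd.intro_left _ rfl) hr2 hwr hθ hc hcθ ht1c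
        (fun h2 => ht1 ?_) j k
      apply Ideal.mem_of_dvd _ _ D.f_mem
      obtain ⟨q, hq⟩ := h1
      have h3 : r ∣ q := by
        rw [hq] at h2
        refine (hr.prime.dvd_or_dvd h2).resolve_left fun h4 => has ?_
        exact ((hr.dvd_irreducible_iff_associated hp).1 h4).symm
      obtain ⟨q', rfl⟩ := h3
      rw [hq, hpr]
      exact ⟨D.w * q', by ring⟩
    · subst has
      exact F.star_dbl hp hpr hp2 hwp hc hcθ hcH j k
  · exact F.star_easy hc hcθ hcH j k

end Pool.Agent.H868.TC
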