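import Pool.Agent.H868.Q5.Kern
import Pool.Agent.H868.NR.Main
import Pool.Agent.H868.TC.Two

/-!
Injectivity of the powers of a linear form between arbitrary degrees of a Gorenstein quotient:
genericity, descent, and the generic kernel vector of minimal degree.
-/

namespace Pool.Agent.H868.TC

set_option maxHeartbeats 400000

open MvPolynomial
open Pool.Agent.Helper15K9.IC
open Pool.Agent.W695.SLP (lf Bp H exists_complement lf_hom ex ex_base ex_map hom_induction mo map_mo
  mo_hom hom_sum_smul map_lf)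
open Pool.Agent.W515.SLP (AnnP Deg annP_of_homog annP_of_gt)
open TH130CI (gor mem_gor)
open Pool.Agent.H868.Q5 (kernel_or)

section

variable {K : Type*} [Field K]

/-- `ℓ_t ^ N` is injective on the degree `i` part -/
def Inj (I : Ideal (R K)) (i N : ℕ) (t : Fin 3 → K) : Prop :=
  ∀ x : R K, x.IsHomogeneous i → lf t ^ N * x ∈ I → x ∈ I

lemma Inj.mono {I : Ideal (R K)} {i N N' : ℕ} {t : Fin 3 → K} (h : Inj I i N t) (hN : N' ≤ N) :
    Inj I i N' t := by
  intro x hx hm
  apply h x hx
  have e : lf t ^ N * x = lf t ^ (N - N') * (lf t ^ N' * x) := by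
    rw [← mul_assoc, ← pow_add]
    congr 2
    omega
  rw [e]
  exact I.mul_mem_left _ hm

/-- a basis of the degree `i` part of the quotient, with dual vectors -/
lemma coordsA {φ : R K →ₗ[K] K} {D : ℕ} (hφ : Deg φ D) {i : ℕ} (hi : i ≤ D) :
    ∃ (r : ℕ) (e wd : Fin r → R K), (∀ p, (e p).IsHomogeneous i) ∧
      (∀ p, (wd p).IsHomogeneous (D - i)) ∧ (∀ p q, φ (e q * wd p) = if q = p then 1 else 0) ∧
      (∀ u : R K, u.IsHomogeneous i → ∃ m : R K, m.IsHomogeneous i ∧ AnnP φ m ∧
        ∃ c : Fin r → K, u = m + ∑ p, c p • e p) := by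
  obtain ⟨r, e', hdec', hdual'⟩ := exists_complement (Bp φ i (D - i))
  have hdual : ∀ p, ∃ w : R K, w.IsHomogeneous (D - i) ∧
      ∀ q, φ ((e' q : H K i) * w) = if q = p then 1 else 0 := by
    intro p
    obtain ⟨w, hw⟩ := hdual' p
    exact ⟨w, w.2, hw⟩
  choose wd hwd hwd' using hdual
  refine ⟨r, fun p => (e' p : H K i), wd, fun p => (e' p).2, hwd, hwd', fun u hu => ?_⟩
  obtain ⟨m, hm, c, hc⟩ := hdec' ⟨u, hu⟩
  refine ⟨m, m.2, ?_, c, ?_⟩
  · apply annP_of_homog hφ hi m.2
    intro v hv
    have := congrArg (fun f => f ⟨v, hv⟩) (LinearMap.mem_ker.mp hm)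
    simpa using this
  · have h5 := congrArg (fun z : H K i => (z : R K)) hc
    simpa using h5

/-- a basis of the forms of degree `n` -/
lemma basisH (n : ℕ) : ∃ (s : ℕ) (v : Fin s → R K), (∀ p, (v p).IsHomogeneous n) ∧
    ∀ x : R K, x.IsHomogeneous n → ∃ c : Fin s → K, x = ∑ p, c p • v p := by
  let bb := Module.finBasis K (H K n)
  refine ⟨_, fun p => (bb p : H K n), fun p => (bb p).2, fun x hx => ?_⟩
  refine ⟨fun p => bb.repr ⟨x, hx⟩ p, ?_⟩
  have h4 := bb.sum_repr ⟨x, hx⟩
  have h5 := congrArg (fun z : H K n => (z : R K)) h4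
  simp only [AddSubmonoidClass.coe_finsetSum, Submodule.coe_smul] at h5
  exact h5.symm

/-- the matrix of `ℓ ^ N` -/
noncomputable def Mx (φ : R K →ₗ[K] K) (N : ℕ) {r s : ℕ} (e : Fin r → R K) (v : Fin s → R K) :
    Matrix (Fin s) (Fin r) (R K) :=
  fun j p => Ph φ (gl K ^ N * C (e p * v j))

lemma Mx_hom (φ : R K →ₗ[K] K) (N : ℕ) {r s : ℕ} (e : Fin r → R K) (v : Fin s → R K)
    (j : Fin s) (p : Fin r) : (Mx φ N e v j p).IsHomogeneous N := by
  apply Ph_hom
  have := (gl_hom (K := K).pow N).mul (isHomogeneous_C _ (e p * v j))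
  rwa [one_mul, add_zero] at this

lemma Mx_eval (φ : R K →ₗ[K] K) (N : ℕ) {r s : ℕ} (e : Fin r → R K) (v : Fin s → R K)
    (t : Fin 3 → K) (c : Fin r → K) (j : Fin s) :
    ((Mx φ N e v).map (eval t)).mulVec c j = φ (lf t ^ N * (∑ p, c p • e p) * v j) := by
  rw [Matrix.mulVec, dotProduct, Finset.mul_sum, Finset.sum_mul, map_sum]
  refine Finset.sum_congr rfl fun p _ => ?_
  rw [mul_smul_comm, smul_mul_assoc, map_smul, smul_eq_mul, Matrix.map_apply, Mx, eval_Ph, map_mul,
    map_pow, evt_gl, evt_C, mul_comm]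
  congr 2
  ring

lemma Mx_mulVec (φ : R K →ₗ[K] K) (N : ℕ) {r s : ℕ} (e : Fin r → R K) (v : Fin s → R K)
    (c : Fin r → R K) (j : Fin s) :
    (Mx φ N e v).mulVec c j = Ph φ ((∑ p, tt (c p) * C (e p)) * gl K ^ N * C (v j)) := by
  rw [Finset.sum_mul, Finset.sum_mul, Ph_sum, Matrix.mulVec, dotProduct]
  refine Finset.sum_congr rfl fun p _ => ?_
  have : tt (c p) * C (e p) * gl K ^ N * C (v j) = tt (c p) * (gl K ^ N * C (e p * v j)) := by
    rw [C_mul]
    ring
  rw [this, Ph_tt_mul, Mx, mul_comm]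

end

section

variable {K : Type*} [Field K] {L : Type*} [Field L] [Algebra K L]

/-- a matrix which is injective at a point has no kernel -/
lemma no_ker {r s : ℕ} (M : Matrix (Fin s) (Fin r) (R K)) (pL : Fin 3 → L)
    (hinj : ∀ c0 : Fin r → L, (M.map (aeval (R := K) pL)).mulVec c0 = 0 → c0 = 0)
    {c : Fin r → R K} (hc : M.mulVec c = 0) : c = 0 := by
  classical
  by_contra hc0
  obtain ⟨g, hg⟩ := (Matrix.toLin' (M.map (aeval (R := K) pL))).exists_leftInverse_of_injective
    (by
      rw [LinearMap.ker_eq_bot']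
      intro c0 h0
      rw [Matrix.toLin'_apply] at h0
      exact hinj c0 h0)
  have hGM : LinearMap.toMatrix' g * M.map (aeval (R := K) pL) = 1 := by
    have h2 := congrArg LinearMap.toMatrix' hg
    rw [LinearMap.toMatrix'_comp, LinearMap.toMatrix'_toLin', LinearMap.toMatrix'_id] at h2
    exact h2
  obtain ⟨ι, hι⟩ : ∃ ι : R K →+* R L, ι = map (algebraMap K L) := ⟨_, rfl⟩
  have hιinj : Function.Injective ι := by
    rw [hι]
    exact map_injective _ (algebraMap K L).injective
  obtain ⟨G, hG⟩ : ∃ G : Fin r → Fin s → L, G = fun p j => LinearMap.toMatrix' g p j := ⟨_, rfl⟩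
  obtain ⟨Q, hQ⟩ : ∃ Q : Matrix (Fin r) (Fin r) (R L),
      Q = fun p q => ∑ j, C (G p j) * ι (M j q) := ⟨_, rfl⟩
  have h1 : Q.mulVec (fun p => ι (c p)) = 0 := by
    funext p
    rw [Matrix.mulVec, dotProduct, Pi.zero_apply]
    have e1 : ∀ q, Q p q * ι (c q) = ∑ j, C (G p j) * ι (M j q * c q) := by
      intro q
      rw [hQ, Finset.sum_mul]
      exact Finset.sum_congr rfl fun j _ => by rw [map_mul, mul_assoc]
    rw [Finset.sum_congr rfl fun q _ => e1 q, Finset.sum_comm]
    refine Finset.sum_eq_zero fun j _ => ?_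
    rw [← Finset.mul_sum]
    have h3 := congrArg ι (congrFun hc j)
    rw [Matrix.mulVec, dotProduct, map_sum, Pi.zero_apply, map_zero] at h3
    rw [h3, mul_zero]
  have h2 : Q.det = 0 := by
    apply Matrix.exists_mulVec_eq_zero_iff.mp
    refine ⟨_, ?_, h1⟩
    intro h0
    apply hc0
    funext p
    apply hιinj
    rw [Pi.zero_apply, map_zero]
    exact congrFun h0 p
  have h3 : eval pL Q.det = 1 := by
    rw [RingHom.map_det]
    have h4 : (eval pL : R L →+* L).mapMatrix Q = 1 := by
      rw [← hGM]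
      ext p q
      rw [RingHom.mapMatrix_apply, Matrix.map_apply, Matrix.mul_apply, hQ, map_sum]
      refine Finset.sum_congr rfl fun j _ => ?_
      rw [map_mul, eval_C, hι, eval_map, Matrix.map_apply, aeval_def, hG]
    rw [h4, Matrix.det_one]
  rw [h2, map_zero] at h3
  exact zero_ne_one h3

/-- the value at a point of an extension -/
noncomputable def evL (pL : Fin 3 → L) : RT K →+* R L :=
  eval₂Hom (map (algebraMap K L)) (fun k => C (pL k))

lemma evL_C (pL : Fin 3 → L) (a : R K) : evL pL (C a : RT K) = map (algebraMap K L) a :=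
  eval₂Hom_C _ _ _

lemma evL_X (pL : Fin 3 → L) (k : Fin 3) : evL pL (X k : RT K) = C (pL k) :=
  eval₂Hom_X' _ _ _

lemma evL_gl (pL : Fin 3 → L) : evL pL (gl K) = lf pL := by
  rw [gl, lf, map_sum]
  exact Finset.sum_congr rfl fun k _ => by rw [map_mul, evL_X, evL_C, map_X]

lemma aeval_Ph (φ : R K →ₗ[K] K) (pL : Fin 3 → L) (P : RT K) :
    aeval (R := K) pL (Ph φ P) = ex φ L (evL pL P) := by
  induction P using MvPolynomial.induction_on' with
  | monomial m a =>
    rw [Ph_monomial, aeval_monomial, evL, coe_eval₂Hom, eval₂_monomial]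
    have h : (m.prod fun (n : Fin 3) (e : ℕ) => (C (pL n) : R L) ^ e)
        = C (m.prod fun (n : Fin 3) (e : ℕ) => (pL n) ^ e) := by
      rw [Finsupp.prod, Finsupp.prod, map_prod]
      simp only [map_pow]
    rw [h, mul_comm (map (algebraMap K L) a), ← smul_eq_C_mul, map_smul, smul_eq_mul, ex_base,
      mul_comm]
  | add p q hp hq => rw [Ph_add, map_add, hp, hq, map_add, map_add]

/-- the forms over the base span the forms over the extension -/
lemma span_ext {n s : ℕ} {v : Fin s → R K}
    (hspan : ∀ x : R K, x.IsHomogeneous n → ∃ c : Fin s → K, x = ∑ p, c p • v p)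
    {ψ : R L →ₗ[L] L} (h : ∀ j, ψ (map (algebraMap K L) (v j)) = 0) {y : R L}
    (hy : y.IsHomogeneous n) : ψ y = 0 := by
  apply hom_induction hy (P := fun y => ψ y = 0)
  · simp
  · intro p q hp hq
    rw [map_add, hp, hq, add_zero]
  · intro c p hp
    rw [map_smul, hp, smul_zero]
  · intro a b e hab
    obtain ⟨c, hc⟩ := hspan (mo K a b e) (by rw [← hab]; exact mo_hom a b e)
    rw [← map_mo (K := K), hc, map_sum, map_sum]
    refine Finset.sum_eq_zero fun p _ => ?_
    rw [smul_eq_C_mul, map_mul, map_C, ← smul_eq_C_mul, map_smul, h p, smul_zero]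

end

/-- **Genericity and descent.** -/
theorem descend {K : Type*} [Field K] {L : Type*} [Field L] [Algebra K L] {φ : R K →ₗ[K] K}
    {D i N : ℕ} (hφ : Deg φ D) (hD : i + N ≤ D) (hφL : Deg (ex φ L) D) {pL : Fin 3 → L}
    (hL : Inj (gor (ex φ L)) i N pL) :
    ∃ P : R K, P ≠ 0 ∧ ∀ t : Fin 3 → K, eval t P ≠ 0 → Inj (gor φ) i N t := by
  classical
  obtain ⟨r, e, wd, he, hwd, hdual, hdec⟩ := coordsA hφ (show i ≤ D by omega)
  obtain ⟨s, v, hv, hspan⟩ := basisH (K := K) (D - i - N)
  rcases kernel_or (Mx φ N e v) with ⟨c, hc0, hc⟩ | ⟨b, G, hb0, hG⟩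
  · -- a generic kernel vector contradicts the injectivity over the extension
    exfalso
    apply hc0
    refine no_ker (Mx φ N e v) pL (fun c0 h0 => ?_) hc
    obtain ⟨x, hx⟩ : ∃ x : R L, x = ∑ p, c0 p • map (algebraMap K L) (e p) := ⟨_, rfl⟩
    have hxh : x.IsHomogeneous i := by
      rw [hx]
      exact hom_sum_smul _ _ _ (fun p _ => (he p).map _)
    have h1 : ∀ j, ex φ L (lf pL ^ N * x * map (algebraMap K L) (v j)) = 0 := by
      intro j
      have h2 := congrFun h0 j
      rw [Matrix.mulVec, dotProduct, Pi.zero_apply] at h2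
      rw [← h2, hx, Finset.mul_sum, Finset.sum_mul, map_sum]
      refine Finset.sum_congr rfl fun p _ => ?_
      have h3 : evL pL (gl K ^ N * C (e p * v j))
          = lf pL ^ N * map (algebraMap K L) (e p) * map (algebraMap K L) (v j) := by
        rw [(evL pL).map_mul, (evL pL).map_pow, evL_gl, evL_C, (map (algebraMap K L)).map_mul,
          mul_assoc]
      rw [Matrix.map_apply, Mx, aeval_Ph, h3, mul_smul_comm, smul_mul_assoc, map_smul,
        smul_eq_mul, mul_comm]
    have h2 : AnnP (ex φ L) (lf pL ^ N * x) := by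
      have h3 : (lf pL ^ N * x).IsHomogeneous (N + i) := by
        have := ((lf_hom pL).pow N).mul hxh
        rwa [one_mul] at this
      apply annP_of_homog hφL (by omega) h3
      intro y hy
      rw [show D - (N + i) = D - i - N by omega] at hy
      exact span_ext hspan (ψ := (ex φ L) ∘ₗ LinearMap.mulLeft L (lf pL ^ N * x)) h1 hy
    have h3 := hL x hxh h2
    funext p
    have h4 := mem_gor.1 h3 (map (algebraMap K L) (wd p))
    rw [hx, Finset.sum_mul, map_sum, Finset.sum_eq_single p] at h4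
    · rw [smul_mul_assoc, map_smul, ← map_mul, ex_base, hdual p p, if_pos rfl, map_one,
        smul_eq_mul, mul_one] at h4
      exact h4
    · intro q _ hq
      rw [smul_mul_assoc, map_smul, ← map_mul, ex_base, hdual p q, if_neg hq, map_zero, smul_zero]
    · intro h
      exact absurd (Finset.mem_univ p) h
  · refine ⟨b, hb0, fun t ht x hx hm => ?_⟩
    obtain ⟨m, hm1, hm2, c, hc⟩ := hdec x hx
    have h1 : ((Mx φ N e v).map (eval t)).mulVec c = 0 := by
      funext j
      rw [Mx_eval, Pi.zero_apply]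
      have h2 : lf t ^ N * (∑ p, c p • e p) * v j = (lf t ^ N * x) * v j
          - m * (lf t ^ N * v j) := by
        rw [hc]; ring
      rw [h2, map_sub, mem_gor.1 hm, hm2, sub_self]
    have h2 : c = 0 := by
      funext p
      have h3 : ∑ q, eval t (∑ j, G (p, j) * Mx φ N e v j q) * c q = 0 := by
        have h4 : ∀ q, eval t (∑ j, G (p, j) * Mx φ N e v j q) * c q
            = ∑ j, eval t (G (p, j)) * (eval t (Mx φ N e v j q) * c q) := by
          intro q
          rw [map_sum, Finset.sum_mul]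
          refine Finset.sum_congr rfl fun j _ => ?_
          rw [map_mul, mul_assoc]
        simp only [h4]
        rw [Finset.sum_comm]
        refine Finset.sum_eq_zero fun j _ => ?_
        rw [← Finset.mul_sum]
        have h5 := congrFun h1 j
        rw [Matrix.mulVec, dotProduct, Pi.zero_apply] at h5
        simp only [Matrix.map_apply] at h5
        rw [h5, mul_zero]
      simp only [hG] at h3
      rw [Finset.sum_eq_single p] at h3
      · rw [if_pos rfl] at h3
        exact (mul_eq_zero.1 h3).resolve_left ht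
      · intro q _ hq
        rw [if_neg (Ne.symm hq), map_zero, zero_mul]
      · intro h5
        exact absurd (Finset.mem_univ p) h5
    rw [hc, h2, mem_gor]
    simpa using hm2

/-- **The generic kernel vector of minimal degree.** -/
theorem exists_kv {K : Type*} [Field K] [CharZero K] [IsAlgClosed K] {φ : R K →ₗ[K] K}
    {D i N : ℕ} (hφ : Deg φ D) (hD : i + N ≤ D) (hbad : ∀ t : Fin 3 → K, ¬ Inj (gor φ) i N t) :
    ∃ (d : ℕ) (u : RT K), 0 < d ∧ u.IsHomogeneous d ∧ (∀ m, (coeff m u).IsHomogeneous i) ∧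
      (∀ m, coeff m (u * gl K ^ N) ∈ gor φ) ∧ (∃ t : Fin 3 → K, evt t u ∉ gor φ) ∧
      (∀ c : R K, Irreducible c → ∃ t : Fin 3 → K, eval t c = 0 ∧ evt t u ∉ gor φ) := by
  classical
  have hinf : Infinite K := inferInstance
  obtain ⟨r, e, wd, he, hwd, hdual, hdec⟩ := coordsA hφ (show i ≤ D by omega)
  obtain ⟨s, v, hv, hspan⟩ := basisH (K := K) (D - i - N)
  obtain ⟨M, hM⟩ : ∃ M, M = Mx φ N e v := ⟨_, rfl⟩
  have hMh : ∀ j p, (M j p).IsHomogeneous N := by
    rw [hM]
    exact Mx_hom φ N e v
  have hpt : ∀ t : Fin 3 → K, ∃ c : Fin r → K, c ≠ 0 ∧ (M.map (eval t)).mulVec c = 0 := by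
    intro t
    have hb := hbad t
    rw [Inj] at hb
    push Not at hb
    obtain ⟨x, hx, hm, hn⟩ := hb
    obtain ⟨m, hm1, hm2, c, hc⟩ := hdec x hx
    refine ⟨c, ?_, ?_⟩
    · intro h
      apply hn
      rw [hc, h, mem_gor]
      simpa using hm2
    · funext j
      rw [hM, Mx_eval, Pi.zero_apply]
      have h2 : lf t ^ N * (∑ p, c p • e p) * v j = (lf t ^ N * x) * v j
          - m * (lf t ^ N * v j) := by
        rw [hc]; ring
      rw [h2, map_sub, mem_gor.1 hm, hm2, sub_self]
  -- a homogeneous kernel vector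
  have hex : ∃ d, ∃ c : Fin r → R K, c ≠ 0 ∧ (∀ p, (c p).IsHomogeneous d) ∧ M.mulVec c = 0 := by
    obtain ⟨c, hc0, hc⟩ := Pool.Agent.H868.Q5.exists_kernel M hpt
    obtain ⟨p, hp⟩ := Function.ne_iff.mp hc0
    have h1 : ∃ j, homogeneousComponent j (c p) ≠ 0 := by
      by_contra hcon
      push Not at hcon
      apply hp
      rw [Pi.zero_apply, ← sum_homogeneousComponent (c p)]
      exact Finset.sum_eq_zero fun j _ => hcon j
    obtain ⟨j, hj⟩ := h1
    refine ⟨j, fun q => homogeneousComponent j (c q), ?_, fun q =>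
      homogeneousComponent_isHomogeneous j _, ?_⟩
    · intro h
      exact hj (congrFun h p)
    · ext1 p
      have h := congrFun hc p
      rw [Matrix.mulVec, dotProduct, Pi.zero_apply] at h ⊢
      have h1 : homogeneousComponent (N + j) (∑ q, M p q * c q)
          = ∑ q, M p q * homogeneousComponent j (c q) := by
        rw [map_sum]
        exact Finset.sum_congr rfl fun q _ => Pool.Agent.Helper15K9.IC.comp_mul (hMh p q) _ _
      rw [← h1, h, map_zero]
  obtain ⟨d, hd⟩ : ∃ d, d = Nat.find hex := ⟨_, rfl⟩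
  obtain ⟨c, hc0, hch, hc⟩ := Nat.find_spec hex
  have hdmin : ∀ d' < d, ¬ ∃ c : Fin r → R K, c ≠ 0 ∧ (∀ p, (c p).IsHomogeneous d') ∧
      M.mulVec c = 0 := fun d' h => Nat.find_min hex (by rwa [← hd])
  rw [← hd] at hch
  obtain ⟨p0, hp0⟩ := Function.ne_iff.mp hc0
  rw [Pi.zero_apply] at hp0
  obtain ⟨u, hu⟩ : ∃ u : RT K, u = ∑ q, tt (c q) * C (e q) := ⟨_, rfl⟩
  have huh : u.IsHomogeneous d := by
    rw [hu]
    refine IsHomogeneous.sum _ _ _ fun q _ => ?_
    have := ((hch q).map (C : K →+* R K)).mul (isHomogeneous_C (Fin 3) (e q))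
    rwa [add_zero] at this
  have hux : BH u i := by
    rw [hu]
    refine BH.sum _ _ fun q _ => ?_
    have := (BH_tt (c q)).mul (BH_C (he q))
    rwa [zero_add] at this
  have hevt : ∀ (t : Fin 3 → K) (p : Fin r), φ (evt t u * wd p) = eval t (c p) := by
    intro t p
    rw [hu, map_sum, Finset.sum_mul, map_sum, Finset.sum_eq_single p]
    · rw [(evt t).map_mul, evt_tt, evt_C, mul_assoc, ← smul_eq_C_mul, map_smul, hdual p p,
        if_pos rfl, smul_eq_mul, mul_one]
    · intro q _ hq
      rw [(evt t).map_mul, evt_tt, evt_C, mul_assoc, ← smul_eq_C_mul, map_smul, hdual p q,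
        if_neg hq, smul_zero]
    · intro h
      exact absurd (Finset.mem_univ p) h
  have hrad : ∀ m, coeff m (u * gl K ^ N) ∈ gor φ := by
    intro m
    have h1 : (coeff m (u * gl K ^ N)).IsHomogeneous (i + N) := by
      have := (hux.mul (BH_gl.pow N)) m
      rwa [one_mul] at this
    rw [mem_gor]
    apply annP_of_homog hφ hD h1
    intro y hy
    rw [show D - (i + N) = D - i - N by omega] at hy
    obtain ⟨a, ha⟩ := hspan y hy
    rw [ha, Finset.mul_sum, map_sum]
    refine Finset.sum_eq_zero fun j _ => ?_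
    rw [mul_smul_comm, map_smul]
    have h2 := congrFun hc j
    rw [hM, Mx_mulVec, ← hu, Pi.zero_apply] at h2
    have h3 := congrArg (coeff m) h2
    rw [coeff_Ph, coeff_zero, mul_comm _ (C (v j)), coeff_C_mul, mul_comm] at h3
    rw [h3, smul_zero]
  have hne : ∃ t : Fin 3 → K, evt t u ∉ gor φ := by
    have h1 : ∃ t, eval t (c p0) ≠ 0 := by
      by_contra hcon
      push Not at hcon
      apply hp0
      apply MvPolynomial.funext
      intro t
      rw [hcon t, map_zero]
    obtain ⟨t, ht⟩ := h1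
    exact ⟨t, fun h => ht (by rw [← hevt]; exact mem_gor.1 h _)⟩
  refine ⟨d, u, ?_, huh, hux, hrad, hne, ?_⟩
  · -- positivity
    rcases Nat.eq_zero_or_pos d with h0 | h0
    · exfalso
      obtain ⟨t, hne⟩ := hne
      apply hne
      rw [h0, ← totalDegree_zero_iff_isHomogeneous, totalDegree_eq_zero_iff_eq_C] at huh
      have hci : (coeff 0 u).IsHomogeneous i := hux 0
      rw [huh, evt_C, mem_gor]
      apply annP_of_homog hφ (by omega) hci
      intro y hy
      refine kill_of_gl φ N (D - i - N) _ ?_ y (by rwa [show D - i - N + N = D - i by omega])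
      intro z _ m
      have h1 := mem_gor.1 (hrad m) z
      rw [huh, coeff_C_mul] at h1
      rw [← h1]
      congr 1
      ring
    · exact h0
  · -- minimality
    intro c' hc'
    by_contra hcon
    push Not at hcon
    have h1 : ∀ p, c' ∣ c p := by
      intro p
      apply dvd_of_zeros hc'
      intro t ht
      rw [← hevt]
      exact mem_gor.1 (hcon t ht) _
    choose c'' hc'' using h1
    have h2 : M.mulVec c'' = 0 := by
      ext1 p
      have h3 := congrFun hc p
      rw [Matrix.mulVec, dotProduct, Pi.zero_apply] at h3 ⊢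
      have h4 : c' * ∑ q, M p q * c'' q = 0 := by
        rw [← h3, Finset.mul_sum]
        refine Finset.sum_congr rfl fun q _ => ?_
        rw [hc'' q]
        ring
      rcases mul_eq_zero.mp h4 with h5 | h5
      · exact absurd h5 hc'.ne_zero
      · exact h5
    have h3 : c'' p0 ≠ 0 := by
      intro h
      apply hp0
      rw [hc'' p0, h, mul_zero]
    have h4 : ∃ j, homogeneousComponent j (c'' p0) ≠ 0 := by
      by_contra hcon
      push Not at hcon
      apply h3
      rw [← sum_homogeneousComponent (c'' p0)]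
      exact Finset.sum_eq_zero fun j _ => hcon j
    obtain ⟨j, hj⟩ := h4
    have h5 : j < d := by
      have h6 : j ≤ (c'' p0).totalDegree := by
        by_contra hlt
        exact hj (homogeneousComponent_eq_zero _ _ (by omega))
      have h7 : (c p0).totalDegree = d := (hch p0).totalDegree hp0
      rw [hc'' p0, totalDegree_mul_of_isDomain hc'.ne_zero h3] at h7
      have h8 : 0 < c'.totalDegree := totalDegree_pos hc'
      omega
    apply hdmin j h5
    refine ⟨fun q => homogeneousComponent j (c'' q), ?_, fun q =>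
      homogeneousComponent_isHomogeneous j _, ?_⟩
    · intro h
      exact hj (congrFun h p0)
    · ext1 p
      have h := congrFun h2 p
      rw [Matrix.mulVec, dotProduct, Pi.zero_apply] at h ⊢
      have h1 : homogeneousComponent (N + j) (∑ q, M p q * c'' q)
          = ∑ q, M p q * homogeneousComponent j (c'' q) := by
        rw [map_sum]
        exact Finset.sum_congr rfl fun q _ => Pool.Agent.Helper15K9.IC.comp_mul (hMh p q) _ _
      rw [← h1, h, map_zero]

end Pool.Agent.H868.TC
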