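import Pool.Agent.H868.TC.Irr

/-!
The analysis along a component of the discriminant at a point of another component of the curve, and
the parallelism for a form with several factors.
-/

namespace Pool.Agent.H868.TC

open MvPolynomial
open Pool.Agent.Helper15K9.IC
open Pool.Agent.W695.SLP (lf Good)

variable {K : Type*} [Field K]

/-- the first part of the library's `alongComponent` -/
lemma par_of [CharZero K] [IsAlgClosed K] (N m : ℕ) (u A B θ c : R K) (ρ ρ' : Fin 3 → R K) (x : Fin 3 → K)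
    (w g h : K) (hN : 1 ≤ N) (hw : w ≠ 0) (hgh : g ≠ 0 ∨ h ≠ 0)
    (hP : C w * u * lf x ^ N + C h * A + C g * B = 0)
    (hE1 : ∀ k, (lf x * pderiv k u + (N : R K) * (C (x k) * u)) * B - u * lf x * pderiv k B
      = C h * (θ * C (x k) + ρ k * lf x))
    (hE2 : ∀ k, (lf x * pderiv k u + (N : R K) * (C (x k) * u)) * A - u * lf x * pderiv k A
      = - (C g * (θ * C (x k) + ρ k * lf x)))
    (hc : Irreducible c) (hcθ : c ∣ θ) (heul : ∑ k, X k * ρ k = -θ)
    (hpar : ∀ j k, c ∣ ρ j * pderiv k c - ρ k * pderiv j c)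
    (hρ : ∀ k, ρ k = c ^ m * ρ' k)
    (hcu : ¬ c ∣ u) (hcl : ¬ c ∣ lf x) (hlθ : ¬ lf x ∣ θ)
    (hgen : (∃ j k, ¬ c ∣ ρ' j * pderiv k c - ρ' k * pderiv j c) →
      ¬ c ∣ C (x 0) * (ρ' 1 * pderiv 2 c - ρ' 2 * pderiv 1 c)
        + C (x 1) * (ρ' 2 * pderiv 0 c - ρ' 0 * pderiv 2 c)
        + C (x 2) * (ρ' 0 * pderiv 1 c - ρ' 1 * pderiv 0 c))
    (hgen2 : ∃ j k, ¬ c ∣ C (x j) * pderiv k c - C (x k) * pderiv j c) :
    ∀ j k, c ∣ ρ' j * pderiv k c - ρ' k * pderiv j c := by
  classical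
  have hp : Prime c := hc.prime
  obtain ⟨l, hl⟩ : ∃ l : R K, l = lf x := ⟨_, rfl⟩
  rw [← hl] at hP hcl hlθ
  simp only [← hl] at hE1 hE2
  have hl0 : l ≠ 0 := fun h0 => hcl (h0 ▸ dvd_zero c)
  have hu0 : u ≠ 0 := fun h0 => hcu (h0 ▸ dvd_zero c)
  -- the Wronskian
  have hlN : l ^ N = l ^ (N - 1) * l := by rw [← pow_succ, Nat.sub_add_cancel hN]
  have hW : ∀ k, A * pderiv k B - B * pderiv k A
      = C w * l ^ (N - 1) * (θ * C (x k) + ρ k * l) := by
    intro k
    apply mul_left_cancel₀ (mul_ne_zero hu0 hl0)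
    rw [hlN] at hP
    linear_combination (-A) * hE1 k + B * hE2 k - (θ * C (x k) + ρ k * l) * hP
  obtain ⟨α, β, hab, hdvd⟩ := constRatio K c A B hc (by
    intro i j
    rw [hW i, hW j]
    have e1 : C w * l ^ (N - 1) * (θ * C (x i) + ρ i * l) * pderiv j c
        - C w * l ^ (N - 1) * (θ * C (x j) + ρ j * l) * pderiv i c
        = θ * (C w * l ^ (N - 1) * (C (x i) * pderiv j c - C (x j) * pderiv i c))
          + (ρ i * pderiv j c - ρ j * pderiv i c) * (C w * l ^ (N - 1) * l) := by ring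
    rw [e1]
    exact dvd_add (Dvd.dvd.mul_right hcθ _) (Dvd.dvd.mul_right (hpar i j) _))
  obtain ⟨ψ, hψ⟩ : ∃ ψ : R K, ψ = C β * A - C α * B := ⟨_, rfl⟩
  rw [← hψ] at hdvd
  -- the constant
  have hm0 : α * h + β * g ≠ 0 := by
    intro h0
    obtain ⟨s, hs, hsα, hsβ⟩ : ∃ s : K, s ≠ 0 ∧ α = s * g ∧ β = -(s * h) := by
      by_cases hg : g = 0
      · have hh : h ≠ 0 := by
          rcases hgh with h1 | h1
          · exact absurd hg h1
          · exact h1
        rw [hg, mul_zero, add_zero] at h0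
        have hα : α = 0 := by
          rcases mul_eq_zero.mp h0 with h1 | h1
          · exact h1
          · exact absurd h1 hh
        have hβ : β ≠ 0 := by
          rcases hab with h1 | h1
          · exact absurd hα h1
          · exact h1
        refine ⟨-(β / h), neg_ne_zero.mpr (div_ne_zero hβ hh), ?_, ?_⟩
        · rw [hα, hg, mul_zero]
        · field_simp
      · have hα : α ≠ 0 := by
          intro hα
          rw [hα, zero_mul, zero_add] at h0
          rcases mul_eq_zero.mp h0 with h1 | h1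
          · rcases hab with h2 | h2
            · exact h2 hα
            · exact h2 h1
          · exact hg h1
        refine ⟨α / g, div_ne_zero hα hg, ?_, ?_⟩
        · field_simp
        · field_simp
          linear_combination h0
    have h1 : ψ = C (s * w) * u * l ^ N := by
      rw [hψ, hsα, hsβ]
      simp only [C_mul, C_neg]
      linear_combination (-C s) * hP
    rw [h1] at hdvd
    rcases hp.dvd_or_dvd hdvd with h2 | h2
    · rcases hp.dvd_or_dvd h2 with h3 | h3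
      · apply hp.not_isUnit
        exact isUnit_of_dvd_unit h3 (IsUnit.map _ (isUnit_iff_ne_zero.mpr (mul_ne_zero hs hw)))
      · exact hcu h3
    · exact hcl (hp.dvd_of_dvd_pow h2)
  obtain ⟨m0, hm0'⟩ : ∃ m0 : K, m0 = α * h + β * g := ⟨_, rfl⟩
  rw [← hm0'] at hm0
  have hCm0 : (C m0 : R K) = C α * C h + C β * C g := by rw [hm0', C_add, C_mul, C_mul]
  have hid : ∀ k, u * l * pderiv k ψ - (l * pderiv k u + (N : R K) * (C (x k) * u)) * ψ
      = C m0 * (θ * C (x k) + ρ k * l) := by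
    intro k
    rw [hψ, map_sub, Derivation.leibniz, Derivation.leibniz, pderiv_C, pderiv_C, hCm0]
    simp only [smul_eq_mul, mul_zero, add_zero]
    linear_combination (C α) * hE1 k - (C β) * hE2 k
  have hx : ∃ k, x k ≠ 0 := by
    by_contra hcon
    push Not at hcon
    apply hl0
    rw [hl, lf]
    exact Finset.sum_eq_zero fun k _ => by rw [hcon k, C_0, zero_mul]
  have hψ0 : ψ ≠ 0 := by
    intro h0
    obtain ⟨k, hk⟩ := hx
    have h1 := hid k
    rw [h0, map_zero, mul_zero, mul_zero, sub_zero, eq_comm, mul_eq_zero] at h1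
    rcases h1 with h1 | h1
    · exact hm0 (by simpa using h1)
    · apply hlθ
      have h2 : l ∣ θ * C (x k) := ⟨-ρ k, by linear_combination h1⟩
      have h3 : IsUnit (C (x k) : R K) := IsUnit.map _ (isUnit_iff_ne_zero.mpr hk)
      exact (h3.dvd_mul_right).mp h2
  -- the orders
  have hfin : FiniteMultiplicity c ψ := FiniteMultiplicity.of_not_isUnit hp.not_isUnit hψ0
  obtain ⟨ψ', hψ', hcψ'⟩ := hfin.exists_eq_pow_mul_and_not_dvd
  obtain ⟨ν, hν⟩ : ∃ ν, ν = multiplicity c ψ := ⟨_, rfl⟩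
  rw [← hν] at hψ'
  have hν1 : 1 ≤ ν := by
    rw [Nat.one_le_iff_ne_zero]
    intro h0
    rw [h0, pow_zero, one_mul] at hψ'
    rw [hψ'] at hdvd
    exact hcψ' hdvd
  have hder : ∀ k, pderiv k ψ = (ν : R K) * c ^ (ν - 1) * pderiv k c * ψ' + c ^ ν * pderiv k ψ' := by
    intro k
    rw [hψ', Derivation.leibniz, Derivation.leibniz_pow]
    simp only [smul_eq_mul, nsmul_eq_mul]
    ring
  have hνc : c ^ ν = c ^ (ν - 1) * c := by rw [← pow_succ, Nat.sub_add_cancel hν1]
  obtain ⟨θ', hθ'⟩ : ∃ θ' : R K, θ' = -∑ k, X k * ρ' k := ⟨_, rfl⟩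
  have hθc : θ = c ^ m * θ' := by
    have h1 : ∑ k, X k * ρ k = c ^ m * ∑ k, X k * ρ' k := by
      rw [Finset.mul_sum]
      exact Finset.sum_congr rfl fun k _ => by rw [hρ k]; ring
    rw [hθ', mul_neg, ← h1, heul, neg_neg]
  have hmain : ∀ k, C m0 * (c ^ m * (θ' * C (x k) + ρ' k * l))
      = c ^ (ν - 1) * ((ν : R K) * (u * l * ψ') * pderiv k c + c * (u * l * pderiv k ψ'
        - (l * pderiv k u + (N : R K) * (C (x k) * u)) * ψ')) := by
    intro k
    have h1 := hid k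
    rw [hder k, hθc, hρ k] at h1
    rw [show C m0 * (c ^ m * (θ' * C (x k) + ρ' k * l))
      = C m0 * (c ^ m * θ' * C (x k) + c ^ m * ρ' k * l) by ring, ← h1, hνc]
    rw [show (l * pderiv k u + (N : R K) * (C (x k) * u)) * ψ
      = (l * pderiv k u + (N : R K) * (C (x k) * u)) * (c ^ (ν - 1) * c * ψ') by
        rw [← hνc, ← hψ']]
    ring
  have hν0 : (ν : R K) ≠ 0 := by
    rw [Nat.cast_ne_zero]
    omega
  have hunitν : IsUnit (ν : R K) := by
    have : (ν : R K) = C (ν : K) := (map_natCast C ν).symm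
    rw [this]
    exact IsUnit.map _ (isUnit_iff_ne_zero.mpr (by rw [Nat.cast_ne_zero]; omega))
  have hgrad : ∃ k, ¬ c ∣ pderiv k c := by
    by_contra hcon
    push Not at hcon
    obtain ⟨i, j, hij⟩ := hgen2
    exact hij (dvd_sub (Dvd.dvd.mul_left (hcon j) _) (Dvd.dvd.mul_left (hcon i) _))
  have hulψ : ¬ c ∣ u * l * ψ' := by
    intro h1
    rcases hp.dvd_or_dvd h1 with h2 | h2
    · rcases hp.dvd_or_dvd h2 with h3 | h3
      · exact hcu h3
      · exact hcl h3
    · exact hcψ' h2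
  have hmν : m ≤ ν - 1 := by
    by_contra hlt
    push Not at hlt
    obtain ⟨k, hk⟩ := hgrad
    have h1 := hmain k
    have h2 : c ^ m = c ^ (ν - 1) * (c * c ^ (m - ν)) := by
      rw [← mul_assoc, ← hνc, ← pow_add]
      congr 1
      omega
    rw [h2, mul_left_comm, mul_assoc] at h1
    have h3 := mul_left_cancel₀ (pow_ne_zero (ν - 1) hc.ne_zero) (by
      rw [← h1]; ring : c ^ (ν - 1) * (c * (C m0 * (c ^ (m - ν) * (θ' * C (x k) + ρ' k * l))))
        = c ^ (ν - 1) * ((ν : R K) * (u * l * ψ') * pderiv k c + c * (u * l * pderiv k ψ'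
        - (l * pderiv k u + (N : R K) * (C (x k) * u)) * ψ')))
    have h4 : c ∣ (ν : R K) * (u * l * ψ') * pderiv k c := by
      rw [← dvd_add_left (dvd_mul_right c (u * l * pderiv k ψ'
        - (l * pderiv k u + (N : R K) * (C (x k) * u)) * ψ')), ← h3]
      exact dvd_mul_right _ _
    rcases hp.dvd_or_dvd h4 with h5 | h5
    · rcases hp.dvd_or_dvd h5 with h6 | h6
      · exact hp.not_isUnit (isUnit_of_dvd_unit h6 hunitν)
      · exact hulψ h6
    · exact hk h5
  have hmain2 : ∀ k, c ∣ C m0 * (θ' * C (x k) + ρ' k * l)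
      - (ν : R K) * c ^ (ν - 1 - m) * (u * l * ψ') * pderiv k c := by
    intro k
    have h1 := hmain k
    have h2 : c ^ (ν - 1) = c ^ m * c ^ (ν - 1 - m) := by
      rw [← pow_add]
      congr 1
      omega
    rw [h2, mul_left_comm, mul_assoc] at h1
    have h3 := mul_left_cancel₀ (pow_ne_zero m hc.ne_zero) h1
    rw [h3]
    refine ⟨c ^ (ν - 1 - m) * (u * l * pderiv k ψ'
        - (l * pderiv k u + (N : R K) * (C (x k) * u)) * ψ'), by ring⟩
  have hunit0 : IsUnit (C m0 : R K) := IsUnit.map _ (isUnit_iff_ne_zero.mpr hm0)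
  obtain ⟨σ, hσ⟩ : ∃ σ : R K, σ = (ν : R K) * c ^ (ν - 1 - m) * (u * l * ψ') := ⟨_, rfl⟩
  simp only [← hσ] at hmain2
  have hcross : ∀ i j, c ∣ θ' * (C (x i) * pderiv j c - C (x j) * pderiv i c)
      + l * (ρ' i * pderiv j c - ρ' j * pderiv i c) := by
    intro i j
    have h1 : c ∣ C m0 * (θ' * (C (x i) * pderiv j c - C (x j) * pderiv i c)
      + l * (ρ' i * pderiv j c - ρ' j * pderiv i c)) := by
      have h2 := dvd_sub (Dvd.dvd.mul_right (hmain2 i) (pderiv j c))
        (Dvd.dvd.mul_right (hmain2 j) (pderiv i c))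
      refine h2.trans (dvd_of_eq ?_)
      ring
    rwa [hunit0.dvd_mul_left] at h1
  have hpar' : ∀ j k, c ∣ ρ' j * pderiv k c - ρ' k * pderiv j c := by
    by_contra hcon
    push Not at hcon
    apply hgen hcon
    have h1 := dvd_add (dvd_add (Dvd.dvd.mul_left (hcross 1 2) (C (x 0)))
      (Dvd.dvd.mul_left (hcross 2 0) (C (x 1)))) (Dvd.dvd.mul_left (hcross 0 1) (C (x 2)))
    have h2 : c ∣ l * (C (x 0) * (ρ' 1 * pderiv 2 c - ρ' 2 * pderiv 1 c)
        + C (x 1) * (ρ' 2 * pderiv 0 c - ρ' 0 * pderiv 2 c)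
        + C (x 2) * (ρ' 0 * pderiv 1 c - ρ' 1 * pderiv 0 c)) := by
      refine h1.trans (dvd_of_eq ?_)
      ring
    rcases hp.dvd_or_dvd h2 with h3 | h3
    · exact absurd h3 hcl
    · exact h3
  exact hpar'

/-- at a point where `u` does not vanish the reduced vector is parallel to the gradient -/
lemma par_at [CharZero K] [IsAlgClosed K] (D : Dt K) (S : Sz D) {r : R K} (hr : Irreducible r)
    (hrf : r ∣ D.f) (hr2' : ∀ y : Fin 3 → K, y ≠ 0 → ¬ r ∣ lf y) (hwr : ¬ r ∣ D.w)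
    (hθ0 : S.θ ≠ 0) {c : R K} (hc : Irreducible c) (hcθ : c ∣ S.θ) {t1 : Fin 3 → K}
    (ht1c : eval t1 c = 0) (ht1 : ¬ r ∣ evt t1 D.u) {m : ℕ} {ρ' : Fin 3 → R K}
    (hρ' : ∀ k, S.ρ k = c ^ m * ρ' k) :
    ∀ j k, c ∣ ρ' j * pderiv k c - ρ' k * pderiv j c := by
  classical
  have ht10 : t1 ≠ 0 := by
    rintro rfl
    apply ht1
    have h1 : evt (0 : Fin 3 → K) D.u = 0 := by
      have h2 : ∀ x : Fin 3 → K, eval x (evt (0 : Fin 3 → K) D.u) = 0 := by
        intro x
        rw [← eval_evx]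
        have h3 : (evx x D.u).IsHomogeneous D.d := D.hut.map _
        have h4 := eval_smul_hom h3 0 (0 : Fin 3 → K)
        rw [zero_smul, zero_pow (by have := D.hd; omega), zero_mul] at h4
        exact h4
      apply MvPolynomial.funext
      intro x
      rw [h2, map_zero]
    rw [h1]
    exact dvd_zero _
  -- first genericity condition
  obtain ⟨V, hV⟩ : ∃ V : Fin 3 → R K, V = ![ρ' 1 * pderiv 2 c - ρ' 2 * pderiv 1 c,
    ρ' 2 * pderiv 0 c - ρ' 0 * pderiv 2 c, ρ' 0 * pderiv 1 c - ρ' 1 * pderiv 0 c] := ⟨_, rfl⟩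
  have hr2 : ∃ y : Fin 3 → K, y ≠ 0 ∧ ((∃ j k, ¬ c ∣ ρ' j * pderiv k c - ρ' k * pderiv j c) →
      ∀ x : Fin 3 → K, eval x (lf y) ≠ 0 → ¬ c ∣ C (x 0) * V 0 + C (x 1) * V 1 + C (x 2) * V 2) := by
    by_cases h : ∃ i, ¬ c ∣ V i
    · obtain ⟨i, hi⟩ := h
      obtain ⟨t, htc, htV⟩ := exists_zero_ne hc hi
      refine ⟨fun i => eval t (V i), fun h0 => htV (congrFun h0 i), fun _ x hx hcon => ?_⟩
      apply hx
      obtain ⟨q, hq⟩ := hcon
      have h1 := congrArg (eval t) hq
      simp only [map_add, map_mul, eval_C, htc, zero_mul] at h1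
      rw [eval_lf, Fin.sum_univ_three]
      linear_combination h1
    · push Not at h
      refine ⟨fun _ => 1, fun h0 => one_ne_zero (congrFun h0 0), ?_⟩
      rintro ⟨j, k, hjk⟩
      exfalso
      apply hjk
      have h0 := h 0
      have h1 := h 1
      have h2 := h 2
      rw [hV] at h0 h1 h2
      simp only [Matrix.cons_val_zero, Matrix.cons_val_one, Matrix.cons_val] at h0 h1 h2
      have hneg : ∀ {a b : R K}, c ∣ a - b → c ∣ b - a := fun h => by
        have := (dvd_neg (α := R K)).2 h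
        rwa [neg_sub] at this
      fin_cases j <;> fin_cases k
      · simp
      · exact h2
      · exact hneg h1
      · exact hneg h2
      · simp
      · exact h0
      · exact h1
      · exact hneg h0
      · simp
  obtain ⟨y2, hy2, hr2⟩ := hr2
  -- second genericity condition
  have hr3 : ∃ y : Fin 3 → K, y ≠ 0 ∧ ∀ x : Fin 3 → K, eval x (lf y) ≠ 0 →
      ∃ j k, ¬ c ∣ C (x j) * pderiv k c - C (x k) * pderiv j c := by
    obtain ⟨j, hj⟩ := CR.exists_pderiv hc
    obtain ⟨t, htc, htj⟩ := exists_zero_ne hc hj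
    obtain ⟨j', hj'⟩ : ∃ j' : Fin 3, j' ≠ j := exists_ne j
    refine ⟨fun i => if i = j' then eval t (pderiv j c) else
      if i = j then - eval t (pderiv j' c) else 0, fun h0 => ?_, fun x hx => ⟨j', j, fun hcon => ?_⟩⟩
    · have := congrFun h0 j'
      simp only [if_true, Pi.zero_apply] at this
      exact htj this
    · apply hx
      obtain ⟨q, hq⟩ := hcon
      have h1 := congrArg (eval t) hq
      simp only [map_sub, map_mul, eval_C, htc, zero_mul] at h1
      rw [eval_lf]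
      rw [← Finset.sum_subset (Finset.subset_univ ({j', j} : Finset (Fin 3)))]
      · rw [Finset.sum_pair hj']
        simp only [if_true, if_neg hj'.symm]
        linear_combination h1
      · intro i _ hi
        simp only [Finset.mem_insert, Finset.mem_singleton, not_or] at hi
        rw [if_neg hi.1, if_neg hi.2, zero_mul]
  obtain ⟨y3, hy3, hr3⟩ := hr3
  obtain ⟨E, hE, hE0⟩ := exists_E hθ0 hr
  have hpp := hr.prime
  have hgood : ¬ r ∣ D.w * evt t1 D.u * lf t1 * lf y2 * lf y3 * E := by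
    intro h
    rcases hpp.dvd_or_dvd h with h | h
    · rcases hpp.dvd_or_dvd h with h | h
      · rcases hpp.dvd_or_dvd h with h | h
        · rcases hpp.dvd_or_dvd h with h | h
          · rcases hpp.dvd_or_dvd h with h | h
            · exact hwr h
            · exact ht1 h
          · exact hr2' _ ht10 h
        · exact hr2' _ hy2 h
      · exact hr2' _ hy3 h
    · exact hE h
  obtain ⟨x, hx, hr⟩ := exists_zero_ne hr hgood
  simp only [map_mul, mul_ne_zero_iff] at hr
  obtain ⟨⟨⟨⟨⟨hw, hu⟩, hl1⟩, h2⟩, h3⟩, h4⟩ := hr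
  have hxf : eval x D.f = 0 := by
    obtain ⟨q, hq⟩ := hrf
    rw [hq, map_mul, hx, zero_mul]
  have hcl : ¬ c ∣ lf x := by
    rintro ⟨q, hq⟩
    have h1 := congrArg (eval t1) hq
    rw [map_mul, ht1c, zero_mul, eval_lf] at h1
    apply hl1
    rw [eval_lf, ← h1]
    exact Finset.sum_congr rfl fun j _ => mul_comm _ _
  have hcu : ¬ c ∣ evx x D.u := by
    rintro ⟨q, hq⟩
    have h1 := congrArg (eval t1) hq
    rw [map_mul, ht1c, zero_mul, eval_evx] at h1
    exact hu h1
  have hx0 : x ≠ 0 := by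
    rintro rfl
    apply hl1
    rw [eval_lf]
    simp
  have hlθ : ¬ lf x ∣ S.θ := fun h => h4 (hE0 x hx0 h)
  obtain ⟨e0, e1, e2⟩ := over_x D S hxf
  have hgen := hr2
  rw [hV] at hgen
  simp only [Matrix.cons_val_zero, Matrix.cons_val_one, Matrix.cons_val] at hgen
  exact par_of D.N m (evx x D.u) (evx x S.A) (evx x S.B) S.θ c S.ρ ρ' x (eval x D.w) (eval x D.g)
    (eval x D.h) D.hN hw (gh_ne D hx0 hxf) (by rw [mul_assoc]; exact e0) e1 e2 hc hcθ S.heul
    (fun j k => cross D S hc hcθ j k) hρ' hcu hcl hlθ (fun h => hgen h x h2) (hr3 x h3)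

/-- the content of the reduced data divides the kernel vector -/
lemma CD.dvd_of_H [IsAlgClosed K] {D : Dt K} {S : Sz D} {p : R K} (hp : Irreducible p) {e : ℕ}
    (F : CD D S p e) {t : Fin 3 → K} (ht : eval t F.H = 0) :
    p ∣ evt t D.u ∧ p ∣ evt t S.A ∧ p ∣ evt t S.B := by
  refine ⟨?_, ?_, ?_⟩
  · apply dvd_of_zeros hp
    intro x hx
    rw [← eval_evx, F.hu x hx, map_mul, ht, zero_mul]
  · apply dvd_of_zeros hp
    intro x hx
    rw [← eval_evx, F.ha x hx, map_mul, ht, zero_mul]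
  · apply dvd_of_zeros hp
    intro x hx
    rw [← eval_evx, F.hb x hx, map_mul, ht, zero_mul]

/-- parallelism when the component of the discriminant does not divide the content -/
lemma CD.star_easy [CharZero K] [IsAlgClosed K] {D : Dt K} {S : Sz D} {p : R K} {e : ℕ}
    (F : CD D S p e) {c : R K} (hc : Irreducible c) (hcθ : c ∣ F.θ) (hcH : ¬ c ∣ F.H) (j k : Fin 3) :
    c ∣ F.ρ j * pderiv k c - F.ρ k * pderiv j c := by
  have h1 := cross D S hc (by rw [F.hθ]; exact hcθ.mul_left _) j k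
  rw [F.hρ j, F.hρ k] at h1
  have h2 : F.H ^ 2 * F.ρ j * pderiv k c - F.H ^ 2 * F.ρ k * pderiv j c
      = F.H ^ 2 * (F.ρ j * pderiv k c - F.ρ k * pderiv j c) := by ring
  rw [h2] at h1
  rcases hc.prime.dvd_or_dvd h1 with h3 | h3
  · exact absurd (hc.prime.dvd_of_dvd_pow h3) hcH
  · exact h3

/-- parallelism when another component of the curve sees `u` -/
lemma CD.star_other [CharZero K] [IsAlgClosed K] {D : Dt K} {S : Sz D} {p : R K} {e : ℕ}
    (F : CD D S p e) {r : R K} (hr : Irreducible r)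
    (hrf : r ∣ D.f) (hr2' : ∀ y : Fin 3 → K, y ≠ 0 → ¬ r ∣ lf y) (hwr : ¬ r ∣ D.w)
    (hθ0 : S.θ ≠ 0) {c : R K} (hc : Irreducible c) (hcθ : c ∣ F.θ) {t1 : Fin 3 → K}
    (ht1c : eval t1 c = 0) (ht1 : ¬ r ∣ evt t1 D.u) (j k : Fin 3) :
    c ∣ F.ρ j * pderiv k c - F.ρ k * pderiv j c := by
  classical
  have hcSθ : c ∣ S.θ := by rw [F.hθ]; exact hcθ.mul_left _
  have hρ0 : ∃ k, F.ρ k ≠ 0 := by
    by_contra hcon
    push Not at hcon
    apply hθ0
    have h1 := F.heul
    simp only [hcon, mul_zero, Finset.sum_const_zero] at h1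
    rw [F.hθ, neg_eq_zero.1 h1.symm, mul_zero]
  obtain ⟨m, ρ', hρ', k0, hk0⟩ := exists_pow hc hρ0
  obtain ⟨n, H', hH', hn⟩ := WfDvdMonoid.max_power_factor F.hH hc
  have h1 := par_at D S hr hrf hr2' hwr hθ0 hc hcSθ ht1c ht1 (m := 2 * n + m)
    (ρ' := fun k => H' ^ 2 * ρ' k) (fun k => by
      rw [F.hρ k, hρ' k, hn]
      ring)
  have h2 : c ∣ ρ' j * pderiv k c - ρ' k * pderiv j c := by
    have h3 := h1 j k
    have h4 : H' ^ 2 * ρ' j * pderiv k c - H' ^ 2 * ρ' k * pderiv j c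
        = H' ^ 2 * (ρ' j * pderiv k c - ρ' k * pderiv j c) := by ring
    rw [h4] at h3
    rcases hc.prime.dvd_or_dvd h3 with h5 | h5
    · exact absurd (hc.prime.dvd_of_dvd_pow h5) hH'
    · exact h5
  rw [hρ' j, hρ' k]
  have h3 : c ^ m * ρ' j * pderiv k c - c ^ m * ρ' k * pderiv j c
      = c ^ m * (ρ' j * pderiv k c - ρ' k * pderiv j c) := by ring
  rw [h3]
  exact h2.mul_left _

end Pool.Agent.H868.TC
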