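import Pool.Agent.H868.TC.Content

/-!
The removal of the content on a component.
-/

namespace Pool.Agent.H868.TC

open MvPolynomial
open Pool.Agent.Helper15K9.IC
open Pool.Agent.W695.SLP (lf Good)

variable {K : Type*} [Field K]

lemma lf_symm (x t : Fin 3 → K) : eval t (lf x) = eval x (lf t) := by
  rw [eval_lf, eval_lf]
  exact Finset.sum_congr rfl fun j _ => mul_comm _ _

lemma totalDegree_pos {c : R K} (hc : Irreducible c) : 0 < c.totalDegree := by
  rw [Nat.pos_iff_ne_zero]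
  intro h0
  rw [totalDegree_eq_zero_iff_eq_C] at h0
  apply hc.not_isUnit
  rw [h0]
  apply IsUnit.map
  rw [isUnit_iff_ne_zero]
  intro h9
  rw [h9, C_0] at h0
  exact hc.ne_zero h0

lemma evx_zero {p : R K} {P : RT K} (h : (C p : RT K) ∣ P) {x : Fin 3 → K} (hx : eval x p = 0) :
    evx x P = 0 := by
  obtain ⟨Q, rfl⟩ := h
  rw [map_mul, evx_C, hx, C_0, zero_mul]

lemma C_dvd_mul {P Q : R K} {a : K} (ha : a ≠ 0) (h : P ∣ C a * Q) : P ∣ Q := by
  have : Q = C a⁻¹ * (C a * Q) := by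
    rw [← mul_assoc, ← C_mul, inv_mul_cancel₀ ha, C_1, one_mul]
  rw [this]
  exact h.mul_left _

/-- from `θ x + ρ ℓ_x` to `ρ` -/
lemma dvd_rho {c θ : R K} {ρ : Fin 3 → R K} (hc : Irreducible c) (n : ℕ) {x : Fin 3 → K}
    (h : ∀ k, c ^ n ∣ θ * C (x k) + ρ k * lf x) (hcl : ¬ c ∣ lf x) (v : Fin 3 → K)
    (hv : ∑ j, v j * x j = 0) : c ^ n ∣ ∑ j, C (v j) * ρ j := by
  have h1 : c ^ n ∣ (∑ j, C (v j) * ρ j) * lf x := by
    have h2 : (∑ j, C (v j) * ρ j) * lf x = ∑ j, C (v j) * (θ * C (x j) + ρ j * lf x) := by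
      have h3 : ∑ j, C (v j) * (θ * C (x j) + ρ j * lf x)
          = θ * C (∑ j, v j * x j) + (∑ j, C (v j) * ρ j) * lf x := by
        rw [map_sum, Finset.mul_sum, Finset.sum_mul, ← Finset.sum_add_distrib]
        refine Finset.sum_congr rfl fun j _ => ?_
        rw [C_mul]; ring
      rw [h3, hv, C_0, mul_zero, zero_add]
    rw [h2]
    exact Finset.dvd_sum fun j _ => (h j).mul_left _
  exact hc.prime.pow_dvd_of_dvd_mul_right n hcl h1

theorem CD.step [CharZero K] [IsAlgClosed K] {D : Dt K} {S : Sz D} {p : R K} (hp : Irreducible p)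
    (hpf : p ∣ D.f) {e : ℕ} (F : CD D S p e) {c : R K} (hc : Irreducible c)
    (hv : ∀ t, eval t c = 0 → p ∣ evt t F.U) : ∃ e' < e, Nonempty (CD D S p e') := by
  classical
  have hph : p.IsHomogeneous p.totalDegree := Pool.Agent.Chud.homog_of_dvd D.hf D.hf0 hpf
  have hpd := totalDegree_pos hp
  have hxf : ∀ x : Fin 3 → K, eval x p = 0 → eval x D.f = 0 := by
    intro x hx
    obtain ⟨r, hr⟩ := hpf
    rw [hr, map_mul, hx, zero_mul]
  have hAB : ∀ t, eval t c = 0 → p ∣ evt t F.A ∧ p ∣ evt t F.B := by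
    intro t ht
    apply D.regp hpf (XH.evt F.hAx t) (XH.evt F.hBx t)
    have h1 : p ∣ D.w * (evt t F.U * lf t ^ D.N) + D.h * evt t F.A + D.g * evt t F.B := by
      apply dvd_of_zeros hp
      intro x hx
      have h2 := congrArg (eval t) (F.hrel x hx).e0
      simp only [map_add, map_mul, map_pow, eval_C, map_zero, eval_evx, lf_symm x t] at h2 ⊢
      exact h2
    have h2 : p ∣ D.w * (evt t F.U * lf t ^ D.N) := ((hv t ht).mul_right _).mul_left _
    have h3 := dvd_sub h1 h2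
    have h4 : D.w * (evt t F.U * lf t ^ D.N) + D.h * evt t F.A + D.g * evt t F.B
        - D.w * (evt t F.U * lf t ^ D.N) = D.h * evt t F.A + D.g * evt t F.B := by ring
    rwa [h4] at h3
  obtain ⟨U', hU'x, hU'd, hU'h⟩ := div_c hc F.hUx hv
  obtain ⟨hU't, hle, hch⟩ := hU'h e F.hUt F.hU0
  obtain ⟨A', hA'x, hA'd, -⟩ := div_c hc F.hAx (fun t ht => (hAB t ht).1)
  obtain ⟨B', hB'x, hB'd, -⟩ := div_c hc F.hBx (fun t ht => (hAB t ht).2)
  have hcd := totalDegree_pos hc
  have hUc : ∀ x : Fin 3 → K, eval x p = 0 → evx x F.U = c * evx x U' := by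
    intro x hx
    have := evx_zero hU'd hx
    rw [map_sub, map_mul, evx_tt, sub_eq_zero] at this
    exact this
  have hAc : ∀ x : Fin 3 → K, eval x p = 0 → evx x F.A = c * evx x A' := by
    intro x hx
    have := evx_zero hA'd hx
    rw [map_sub, map_mul, evx_tt, sub_eq_zero] at this
    exact this
  have hBc : ∀ x : Fin 3 → K, eval x p = 0 → evx x F.B = c * evx x B' := by
    intro x hx
    have := evx_zero hB'd hx
    rw [map_sub, map_mul, evx_tt, sub_eq_zero] at this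
    exact this
  -- the left sides
  have hL1 : ∀ x : Fin 3 → K, eval x p = 0 → ∀ k,
      c ^ 2 * ((lf x * pderiv k (evx x U') + (D.N : R K) * (C (x k) * evx x U')) * evx x B'
        - evx x U' * lf x * pderiv k (evx x B'))
      = C (eval x D.h) * (F.θ * C (x k) + F.ρ k * lf x) := by
    intro x hx k
    rw [← (F.hrel x hx).e1 k, hUc x hx, hBc x hx, pderiv_mul, pderiv_mul]
    ring
  have hL2 : ∀ x : Fin 3 → K, eval x p = 0 → ∀ k,
      c ^ 2 * ((lf x * pderiv k (evx x U') + (D.N : R K) * (C (x k) * evx x U')) * evx x A'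
        - evx x U' * lf x * pderiv k (evx x A'))
      = -(C (eval x D.g) * (F.θ * C (x k) + F.ρ k * lf x)) := by
    intro x hx k
    rw [← (F.hrel x hx).e2 k, hUc x hx, hAc x hx, pderiv_mul, pderiv_mul]
    ring
  have hkey : ∀ x : Fin 3 → K, x ≠ 0 → eval x p = 0 → ∀ k, c ^ 2 ∣ F.θ * C (x k) + F.ρ k * lf x := by
    intro x hx0 hx k
    rcases gh_ne D hx0 (hxf x hx) with hg | hh
    · refine C_dvd_mul hg ?_
      refine (dvd_neg).1 ?_
      rw [← hL2 x hx k]
      exact Dvd.intro _ rfl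
    · refine C_dvd_mul hh ?_
      rw [← hL1 x hx k]
      exact Dvd.intro _ rfl
  obtain ⟨x1, hx10, hx1p, -, hx1c⟩ := exists_not_dvd_lf hph hpd hc ∅ (by simp)
  obtain ⟨x2, hx20, hx2p, hx2, hx2c⟩ := exists_not_dvd_lf hph hpd hc {x1} (by
    intro z hz
    rw [Finset.mem_singleton] at hz
    rw [hz]; exact hx10)
  have hρ : ∀ k, c ^ 2 ∣ F.ρ k := dvd_of_two hx10 (hx2 x1 (Finset.mem_singleton_self _))
    (dvd_rho hc 2 (hkey x2 hx20 hx2p) hx2c) (dvd_rho hc 2 (hkey x1 hx10 hx1p) hx1c)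
  choose ρ' hρ' using hρ
  have hθ' : F.θ = c ^ 2 * (-∑ k, X k * ρ' k) := by
    have h1 := F.heul
    simp only [hρ'] at h1
    rw [mul_neg, Finset.mul_sum]
    have h2 : ∑ k, X k * (c ^ 2 * ρ' k) = ∑ k, c ^ 2 * (X k * ρ' k) :=
      Finset.sum_congr rfl fun k _ => by ring
    rw [← h2, h1, neg_neg]
  have hc0 := hc.ne_zero
  have hc2 : c ^ 2 ≠ 0 := pow_ne_zero _ hc0
  refine ⟨e - c.totalDegree, by omega, ⟨
    { U := U', A := A', B := B', θ := (-∑ k, X k * ρ' k),
      H := F.H * c, ρ := ρ', hUx := hU'x, hUt := hU't, hAx := hA'x, hBx := hB'x, hU0 := ?_,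
      hrel := ?_, heul := by rw [neg_neg], hθ := ?_, hρ := ?_, hu := ?_, ha := ?_, hb := ?_,
      hH := mul_ne_zero F.hH hc0 }⟩⟩
  · intro h
    apply F.hU0
    have h1 : F.U = (F.U - tt c * U') + tt c * U' := by ring
    rw [h1]
    exact dvd_add hU'd (h.mul_left _)
  · intro x hx
    refine ⟨?_, fun k => ?_, fun k => ?_⟩
    · apply mul_left_cancel₀ hc0
      rw [mul_zero, ← (F.hrel x hx).e0, hUc x hx, hAc x hx, hBc x hx]
      ring
    · apply mul_left_cancel₀ hc2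
      rw [hL1 x hx k, hθ', hρ' k]
      ring
    · apply mul_left_cancel₀ hc2
      rw [hL2 x hx k, hθ', hρ' k]
      ring
  · rw [F.hθ, hθ']
    ring
  · intro k
    rw [F.hρ k, hρ' k]
    ring
  · intro x hx
    rw [F.hu x hx, hUc x hx]
    ring
  · intro x hx
    rw [F.ha x hx, hAc x hx]
    ring
  · intro x hx
    rw [F.hb x hx, hBc x hx]
    ring

/-- **The reduced data on a component.** -/
theorem exists_CD [CharZero K] [IsAlgClosed K] (D : Dt K) (S : Sz D) {p : R K} (hp : Irreducible p)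
    (hpf : p ∣ D.f) (hpu : ¬ (C p : RT K) ∣ D.u) : ∃ (e : ℕ) (F : CD D S p e),
      ∀ c : R K, Irreducible c → ∃ t : Fin 3 → K, eval t c = 0 ∧ ¬ p ∣ evt t F.U := by
  classical
  have hex : ∃ e, Nonempty (CD D S p e) := ⟨D.d, ⟨CD.start D S hpu hpf⟩⟩
  obtain ⟨F⟩ := Nat.find_spec hex
  refine ⟨_, F, fun c hc => ?_⟩
  by_contra hcon
  push Not at hcon
  obtain ⟨e', he', hne⟩ := F.step hp hpf hc hcon
  exact Nat.find_min hex he' hne

end Pool.Agent.H868.TC
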