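import Pool.Agent.H868.TC.Step
import Pool.Graph.R_pool_sql_team_seeded_1e53cb71.Helper15K9.IC.Zero

/-!
The case where the discriminant vanishes (following `Helper15K9.IC.Zero`).
-/

namespace Pool.Agent.H868.TC

open MvPolynomial
open Pool.Agent.Helper15K9.IC
open Pool.Agent.W695.SLP (lf Good)

variable {K : Type*} [Field K]

lemma C_dvd_of_evx [IsAlgClosed K] {p : R K} (hp : Irreducible p) {P : RT K}
    (h : ∀ x : Fin 3 → K, eval x p = 0 → evx x P = 0) : (C p : RT K) ∣ P := by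
  rw [C_dvd_iff_dvd_coeff]
  intro m
  apply dvd_of_zeros hp
  intro x hx
  have h2 := congrArg (coeff m) (h x hx)
  rw [evx, coeff_map, coeff_zero] at h2
  exact h2

lemma Cp_prime {p : R K} (hp : Irreducible p) : Prime (C p : RT K) :=
  (MvPolynomial.prime_C_iff _).2 hp.prime

lemma lf_single (k : Fin 3) : (lf (Pi.single k 1) : R K) = X k := by
  rw [lf, Finset.sum_eq_single k]
  · rw [Pi.single_eq_same, C_1, one_mul]
  · intro j _ hj
    rw [Pi.single_eq_of_ne hj, C_0, zero_mul]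
  · intro h; exact absurd (Finset.mem_univ k) h

lemma Cp_not_dvd_gl {p : R K} (hp2 : ∀ y : Fin 3 → K, y ≠ 0 → ¬ p ∣ lf y) :
    ¬ (C p : RT K) ∣ gl K := by
  intro h
  obtain ⟨q, hq⟩ := h
  have h1 := congrArg (evt (Pi.single 0 1)) hq
  rw [evt_gl, map_mul, evt_C] at h1
  refine hp2 (Pi.single 0 1) ?_ ⟨_, h1⟩
  intro h
  have := congrFun h 0
  simp at this

theorem theta_zero [CharZero K] [IsAlgClosed K] (D : Dt K) (S : Sz D) {p : R K}
    (hp : Irreducible p) (hpf : p ∣ D.f) (hp2 : ∀ y : Fin 3 → K, y ≠ 0 → ¬ p ∣ lf y)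
    (hwp : ¬ p ∣ D.w) (hpu : ¬ (C p : RT K) ∣ D.u) (hθ : S.θ = 0) (t0 : Fin 3 → K) :
    D.w * evt t0 D.u ∈ Ideal.span {p, D.g, D.h} := by
  classical
  have hρ := rho_zero D S hθ
  have hN := D.hN
  have hpr := Cp_prime hp
  have hph : p.IsHomogeneous p.totalDegree := Pool.Agent.Chud.homog_of_dvd D.hf D.hf0 hpf
  have hpd := totalDegree_pos hp
  have hxf : ∀ {P : RT K}, (C D.f : RT K) ∣ P → (C p : RT K) ∣ P := by
    intro P h
    obtain ⟨r, hr⟩ := hpf
    refine Dvd.dvd.trans ⟨C r, ?_⟩ h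
    rw [hr, C_mul]
  have hCfw : ¬ (C p : RT K) ∣ C D.w := by
    intro h
    apply hwp
    have := (C_dvd_iff_dvd_coeff _ _).1 h 0
    rwa [coeff_zero_C] at this
  obtain ⟨P, hP⟩ : ∃ P : RT K, P = C D.w * (D.u * gl K ^ D.N) := ⟨_, rfl⟩
  have hngl := Cp_not_dvd_gl hp2
  have hCfP : ¬ (C p : RT K) ∣ P := by
    intro h
    rw [hP] at h
    rcases hpr.dvd_or_dvd h with h1 | h1
    · exact hCfw h1
    · rcases hpr.dvd_or_dvd h1 with h2 | h2
      · exact hpu h2
      · exact hngl (hpr.dvd_of_dvd_pow h2)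
  have hugl : ¬ (C p : RT K) ∣ D.u * gl K := by
    intro h
    rcases hpr.dvd_or_dvd h with h1 | h1
    · exact hpu h1
    · exact hngl h1
  have hPder : ∀ k, D.u * gl K * pderiv k P = P * D.s k := by
    intro k
    obtain ⟨N', hN'⟩ : ∃ N', D.N = N' + 1 := ⟨D.N - 1, by have := D.hN; omega⟩
    rw [hP]
    simp only [pderiv_mul, pderiv_C, pderiv_pow, pderiv_gl, Dt.s, hN', Nat.add_sub_cancel]
    push_cast
    ring
  have hgrad : ∀ {B : RT K}, (∀ k, (C p : RT K) ∣ D.s k * B - D.u * gl K * pderiv k B) →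
      ∀ k, (C p : RT K) ∣ P * pderiv k B - B * pderiv k P := by
    intro B hB k
    have h1 : (C p : RT K) ∣ (D.u * gl K) * (P * pderiv k B - B * pderiv k P) := by
      obtain ⟨q, hq⟩ := hB k
      refine ⟨-(P * q), ?_⟩
      linear_combination (-B) * hPder k - P * hq
    exact (hpr.dvd_or_dvd h1).resolve_left hugl
  have hB : ∀ k, (C p : RT K) ∣ D.s k * S.B - D.u * gl K * pderiv k S.B := by
    intro k
    have := S.hE1 k
    rw [hθ, hρ k, map_zero, zero_mul, zero_mul, add_zero, mul_zero, sub_zero] at this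
    exact hxf this
  have hA : ∀ k, (C p : RT K) ∣ D.s k * S.A - D.u * gl K * pderiv k S.A := by
    intro k
    have := S.hE2 k
    rw [hθ, hρ k, map_zero, zero_mul, zero_mul, add_zero, mul_zero, add_zero] at this
    exact hxf this
  -- a good point
  obtain ⟨t1, ht1⟩ : ∃ t1, ¬ p ∣ evt t1 P := by
    by_contra hcon
    push Not at hcon
    exact hCfP (C_dvd_of_evt hp hcon)
  obtain ⟨γ, hγ⟩ : ∃ γ, γ = evt t1 P := ⟨_, rfl⟩
  rw [← hγ] at ht1
  have hratio : ∀ {B : RT K}, (∀ k, (C p : RT K) ∣ D.s k * B - D.u * gl K * pderiv k B) →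
      ∀ m, p ∣ γ * coeff m B - evt t1 B * coeff m P := by
    intro B hB
    have h1 := hgrad hB
    have h2 : (C p : RT K) ∣ C γ * B - C (evt t1 B) * P := by
      apply C_dvd_of_evt hp
      intro t
      apply dvd_of_zeros hp
      intro x hx
      have h3 : ∀ k, evx x P * pderiv k (evx x B) = evx x B * pderiv k (evx x P) := by
        intro k
        obtain ⟨q, hq⟩ := h1 k
        have h4 := congrArg (evx x) hq
        rw [map_sub, map_mul, map_mul, map_mul, evx_C, hx, C_0, zero_mul, evx_pderiv,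
          evx_pderiv] at h4
        exact sub_eq_zero.mp h4
      have h5 := const_ratio h3 t1 t
      simp only [eval_evx] at h5
      rw [map_sub, map_mul, map_mul, evt_C, evt_C, map_sub, map_mul, map_mul, hγ]
      linear_combination h5
    intro m
    have h6 := (C_dvd_iff_dvd_coeff _ _).1 h2 m
    rwa [coeff_sub, coeff_C_mul, coeff_C_mul] at h6
  -- the ideal
  have hγh : γ.IsHomogeneous (D.e + (D.i + D.N)) := by
    rw [hγ, hP]
    apply evt_XH
    have h1 : ∀ n, XH n (gl K ^ n) := by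
      intro n
      induction n with
      | zero =>
        have h2 : XH 0 (C (1 : R K) : RT K) := XH.C (isHomogeneous_one _ _)
        simpa using h2
      | succ n ih => rw [pow_succ]; exact ih.mul XH.gl
    exact (XH.C D.hw).mul ((show XH D.i D.u from D.hux).mul (h1 _))
  have hs : ∀ s : R K, (∀ j, X j * s ∈ Ideal.span {p, γ}) → s ∈ Ideal.span {p, γ} :=
    fun s => sat K p γ s p.totalDegree (D.e + (D.i + D.N)) hph hγh (by omega) (by omega) hp ht1
  let I : Ideal (R K) :=
    { carrier := {s | s * evt t1 S.B ∈ Ideal.span {p, γ} ∧ s * evt t1 S.A ∈ Ideal.span {p, γ}}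
      zero_mem' := by
        constructor <;> · rw [zero_mul]; exact Ideal.zero_mem _
      add_mem' := by
        intro a b ha hb
        exact ⟨by rw [add_mul]; exact Ideal.add_mem _ ha.1 hb.1,
          by rw [add_mul]; exact Ideal.add_mem _ ha.2 hb.2⟩
      smul_mem' := by
        intro c a ha
        exact ⟨by rw [smul_eq_mul, mul_assoc]; exact Ideal.mul_mem_left _ _ ha.1,
          by rw [smul_eq_mul, mul_assoc]; exact Ideal.mul_mem_left _ _ ha.2⟩ }
  have hImem : ∀ s, s ∈ I ↔ s * evt t1 S.B ∈ Ideal.span {p, γ} ∧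
    s * evt t1 S.A ∈ Ideal.span {p, γ} := fun s => Iff.rfl
  have hIsat : ∀ s : R K, (∀ j, X j * s ∈ I) → s ∈ I := by
    intro s h
    rw [hImem]
    constructor
    · apply hs
      intro j
      rw [← mul_assoc]
      exact (h j).1
    · apply hs
      intro j
      rw [← mul_assoc]
      exact (h j).2
  have hfm : p ∈ Ideal.span {p, γ} := Ideal.subset_span (by simp)
  have hγm : γ ∈ Ideal.span {p, γ} := Ideal.subset_span (by simp)
  have hcoef : ∀ m, coeff m P ∈ I := by
    intro m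
    rw [hImem]
    have key : ∀ {B : RT K}, (∀ k, (C p : RT K) ∣ D.s k * B - D.u * gl K * pderiv k B) →
        coeff m P * evt t1 B ∈ Ideal.span {p, γ} := by
      intro B hB
      have h1 := hratio hB m
      have h2 : coeff m P * evt t1 B = γ * coeff m B - (γ * coeff m B - evt t1 B * coeff m P) := by
        ring
      rw [h2]
      exact Ideal.sub_mem _ (Ideal.mul_mem_right _ _ hγm) (Ideal.mem_of_dvd _ h1 hfm)
    exact ⟨key hB, key hA⟩
  have hwu : ∀ m, coeff m (C D.w * D.u) ∈ I := by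
    apply mc_pow (mc K I hIsat) D.N
    intro m
    have := hcoef m
    rwa [hP, show C D.w * (D.u * gl K ^ D.N) = gl K ^ D.N * (C D.w * D.u) by ring] at this
  have hwt : D.w * evt t0 D.u ∈ I := by
    have := evt_mem hwu t0
    rwa [map_mul, evt_C] at this
  obtain ⟨h1, h2⟩ := (hImem _).mp hwt
  rw [Ideal.mem_span_pair] at h1 h2
  obtain ⟨a1, b1, h1⟩ := h1
  obtain ⟨a2, b2, h2⟩ := h2
  obtain ⟨s, hsdef⟩ : ∃ s, s = D.w * evt t0 D.u := ⟨_, rfl⟩
  rw [← hsdef] at h1 h2 ⊢
  -- the relation at `t1`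
  have h3 : p ∣ γ + D.h * evt t1 S.A + D.g * evt t1 S.B := by
    obtain ⟨q, hq⟩ := hxf S.hP0
    have := congrArg (evt t1) hq
    rw [← hP, map_add, map_add, map_mul, map_mul, map_mul, evt_C, evt_C, evt_C, ← hγ] at this
    rw [this]
    exact dvd_mul_right _ _
  have h4 : p ∣ γ * (s + D.h * b2 + D.g * b1) := by
    obtain ⟨q, hq⟩ := h3
    refine ⟨s * q - D.h * a2 - D.g * a1, ?_⟩
    linear_combination s * hq + D.h * h2 + D.g * h1
  have h5 := (hp.prime.dvd_or_dvd h4).resolve_left ht1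
  have hJ : ∀ q : R K, p ∣ q → q ∈ Ideal.span {p, D.g, D.h} := fun q hq =>
    Ideal.mem_of_dvd _ hq (Ideal.subset_span (by simp))
  have hgm : D.g ∈ Ideal.span {p, D.g, D.h} := Ideal.subset_span (by simp)
  have hhm : D.h ∈ Ideal.span {p, D.g, D.h} := Ideal.subset_span (by simp)
  have h6 : s = (s + D.h * b2 + D.g * b1) - D.h * b2 - D.g * b1 := by ring
  rw [h6]
  exact Ideal.sub_mem _ (Ideal.sub_mem _ (hJ _ h5) (Ideal.mul_mem_right _ _ hhm))
    (Ideal.mul_mem_right _ _ hgm)

end Pool.Agent.H868.TC
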